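import Mathlib
import Pool.Agent.Lib.MP_ae5b4e_an_NB2.Defs
import Pool.Agent.Lib.MP_ae5b4e_an_LL.Rmer

/-!
# MP_ae5b4e_an, Lemma U: definitions

`Y` is a fundamental system of `y'' + Q y = 0`, the limit curve is `y2 / y1`.  The text is
POR_NB_2_heights_h46.md, sections 2.3 and 2.4 (formulas (2.20)-(2.31)).
-/

noncomputable section

namespace Pool.Agent.MP_ae5b4e_an_NB2

open Complex Set Filter Topology Metric
open Pool.Agent.MP_ae5b4e_an_NBT (St Mer MerAt EqM)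
open Pool.Agent.Lib.MP_ae5b4e_an_LL (ExtH hdom ExtR)

/-! ### The class Sigma in the coordinate `x = 1 / ζ` -/

/-- `ζ + E (1 / ζ)` is univalent in `|ζ| > 1`, without constant term -/
structure Sig (E : ℂ → ℂ) : Prop where
  an : AnalyticOnNhd ℂ E (ball 0 1)
  zero : E 0 = 0
  inj : InjOn (fun x => x⁻¹ + E x) (ball 0 1 \ {0})

/-! ### The limit curve on discs -/

/-- `y2 / y1` is injective on the disc `ball w d` -/
structure Uni (Y : Sys) (w : ℂ) (d : ℝ) : Prop where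
  pos : 0 < d
  on : Y.On (ball w d)
  inj : ∀ u ∈ ball w d, ∀ v ∈ ball w d, Y.s u v = 0 → u = v

/-- the automorphism of the disc `ball w d` (in the coordinate `x` of the unit disc) which maps
`0` to `w + d e c` -/
def phi (w e : ℂ) (d c : ℝ) (x : ℂ) : ℂ := w + d * (e * ((c - x) / (1 - c * x)))

/-- numerator of the value of the limit curve at the upper neighbour of the label `l`, when the
lower neighbour is `v` -/
def nuN (Y : Sys) (l v : ℂ) : ℂ := Y.y2' l * Y.s v l - Y.y2 l * Y.c v l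

/-- the denominator -/
def deN (Y : Sys) (l v : ℂ) : ℂ := Y.y1' l * Y.s v l - Y.y1 l * Y.c v l

/-- the function `F` in terms of the label `M` -/
def Fu (Y : Sys) (M : ℂ × ℂ → ℂ) (p : ℂ × ℂ) : ℂ := Y.y2 (M p) / Y.y1 (M p)

/-! ### The label over an arc -/

/-- the region over the arc where the label is controlled -/
def SReg (h b l C R : ℝ) : Set (ℂ × ℂ) :=
  {p | |p.1.re - b| < l / 2 ∧ dep h p.1 < l / 4 ∧ C * ‖p.2‖ < dep h p.1 ∧ ‖p.2‖ < R}

/-- the label `M` on the region: the slope bound with the constant `C` -/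
structure Slope (Y : Sys) (h b l C R : ℝ) (M : ℂ × ℂ → ℂ) : Prop where
  h_pos : 0 < h
  l_pos : 0 < l
  l_le : l ≤ h / 2
  C_one : 1 ≤ C
  R_pos : 0 < R
  on : Y.On (St (-h) h)
  an : AnalyticOnNhd ℂ M (SReg h b l C R)
  maps : MapsTo M (SReg h b l C R) (St (-h) h)
  zero : ∀ t : ℂ, (t, (0:ℂ)) ∈ SReg h b l C R → M (t, 0) = t
  even : ∀ p ∈ SReg h b l C R, M (p.1, -p.2) = M p
  est : ∀ p ∈ SReg h b l C R, 3 * C * ‖p.2‖ ≤ dep h p.1 → dep h p.1 ≤ C * R →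
    ‖M p - p.1‖ ≤ 3 * C ^ 2 * ‖p.2‖ ^ 2 / dep h p.1
  node : ∀ p ∈ SReg h b l C R, |p.1.re - b| + ‖p.2‖ < l / 2 → dep h p.1 + ‖p.2‖ < l / 4 →
    (C + 1) * ‖p.2‖ < dep h p.1 → Y.node (M p) (M (p.1 + p.2, p.2)) (M (p.1 - p.2, p.2))

/-- natural boundary over the arc, for the label near the line `η = 0` -/
def NBArc (Y : Sys) (h b l : ℝ) (L : ℂ × ℂ → ℂ) : Prop :=
  ∀ β : ℂ, |β.re - b| < l / 2 → β.im = h → ¬ ∃ δ > 0, ∃ g : ℂ × ℂ → ℂ,
    Mer g (ball β δ ×ˢ ball 0 δ) ∧ ∃ t₁ ∈ ball β δ, |t₁.re - b| < l / 2 ∧ 0 < dep h t₁ ∧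
      dep h t₁ < l / 4 ∧ EqM g (Fu Y L) (t₁, 0)

end Pool.Agent.MP_ae5b4e_an_NB2
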