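import Mathlib
import Pool.Agent.Lib.MP_ae5b4e_an_LU.Defs

/-!
# MP_ae5b4e_an, Lemma U: the controlled region is open and convex
-/

noncomputable section

namespace Pool.Agent.MP_ae5b4e_an_NB2

open Complex Set Filter Topology Metric

lemma mem_SReg {h b l C R : ℝ} {p : ℂ × ℂ} : p ∈ SReg h b l C R ↔
    |p.1.re - b| < l / 2 ∧ dep h p.1 < l / 4 ∧ C * ‖p.2‖ < dep h p.1 ∧ ‖p.2‖ < R := Iff.rfl

theorem isOpen_SReg (h b l C R : ℝ) : IsOpen (SReg h b l C R) := by
  have h1 : Continuous fun p : ℂ × ℂ => |p.1.re - b| := by fun_prop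
  have h2 : Continuous fun p : ℂ × ℂ => dep h p.1 := by unfold dep; fun_prop
  have h3 : Continuous fun p : ℂ × ℂ => C * ‖p.2‖ := by fun_prop
  have h4 : Continuous fun p : ℂ × ℂ => ‖p.2‖ := by fun_prop
  exact (isOpen_lt h1 continuous_const).inter ((isOpen_lt h2 continuous_const).inter
    ((isOpen_lt h3 h2).inter (isOpen_lt h4 continuous_const)))

theorem convex_SReg {h b l C R : ℝ} (hC : 0 ≤ C) : Convex ℝ (SReg h b l C R) := by
  intro p hp q hq s t hs ht hst
  rw [mem_SReg] at *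
  have e1 : (s • p + t • q).1.re = s * p.1.re + t * q.1.re := by simp
  have e2 : (s • p + t • q).1.im = s * p.1.im + t * q.1.im := by simp
  have e3 : ‖(s • p + t • q).2‖ ≤ s * ‖p.2‖ + t * ‖q.2‖ := by
    have : (s • p + t • q).2 = s • p.2 + t • q.2 := rfl
    rw [this]
    refine (norm_add_le _ _).trans ?_
    rw [norm_smul, norm_smul, Real.norm_eq_abs, Real.norm_eq_abs, abs_of_nonneg hs,
      abs_of_nonneg ht]
  obtain ⟨p1, p2, p3, p4⟩ := hp
  obtain ⟨q1, q2, q3, q4⟩ := hq
  rw [abs_lt] at p1 q1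
  have key2 : ∀ x y : ℝ, 0 < x → 0 < y → 0 < s * x + t * y := by
    intro x y hx hy
    rcases eq_or_lt_of_le hs with h0 | h0
    · have : t = 1 := by linarith
      rw [← h0, this]
      linarith
    · have := mul_pos h0 hx
      have := mul_nonneg ht hy.le
      linarith
  simp only [dep] at *
  have hts : t = 1 - s := by linarith
  refine ⟨?_, ?_, ?_, ?_⟩
  · rw [e1, abs_lt]
    have a1 := key2 (p.1.re - b + l / 2) (q.1.re - b + l / 2) (by linarith) (by linarith)
    have a2 := key2 (l / 2 - (p.1.re - b)) (l / 2 - (q.1.re - b)) (by linarith) (by linarith)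
    subst hts
    constructor <;> nlinarith
  · rw [e2]
    have a1 := key2 (l / 4 - (h - p.1.im)) (l / 4 - (h - q.1.im)) (by linarith) (by linarith)
    subst hts
    nlinarith
  · rw [e2]
    have a1 := key2 (h - p.1.im - C * ‖p.2‖) (h - q.1.im - C * ‖q.2‖) (by linarith) (by linarith)
    have a2 := mul_le_mul_of_nonneg_left e3 hC
    subst hts
    nlinarith
  · have a1 := key2 (R - ‖p.2‖) (R - ‖q.2‖) (by linarith) (by linarith)
    refine e3.trans_lt ?_
    subst hts
    nlinarith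

theorem isPreconnected_SReg {h b l C R : ℝ} (hC : 0 ≤ C) : IsPreconnected (SReg h b l C R) :=
  (convex_SReg hC).isPreconnected

lemma SReg_zero {h b l C R : ℝ} (hR : 0 < R) {t : ℂ} (h1 : |t.re - b| < l / 2)
    (h2 : 0 < dep h t) (h3 : dep h t < l / 4) : (t, (0:ℂ)) ∈ SReg h b l C R := by
  rw [mem_SReg]
  exact ⟨h1, h3, by simpa using h2, by simpa using hR⟩

end Pool.Agent.MP_ae5b4e_an_NB2
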