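import Mathlib
import Pool.Agent.Lib.MP_ae5b4e_an_LU.SRegL

/-!
# MP_ae5b4e_an, Lemma U: the function `F` is meromorphic on the controlled region
-/

noncomputable section

namespace Pool.Agent.MP_ae5b4e_an_NB2

open Complex Set Filter Topology Metric
open Pool.Agent.MP_ae5b4e_an_NBT (St Mer MerAt EqM)
open Pool.Agent.Lib.MP_ae5b4e_an_LL (ExtH hdom ExtR)

variable {Y : Sys} {h b l C R : ℝ} {M : ℂ × ℂ → ℂ}

/-- `F` is meromorphic on the controlled region -/
theorem mer_Fu (hS : Slope Y h b l C R M) : Mer (Fu Y M) (SReg h b l C R) := by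
  intro p hp
  have hO : IsOpen (St (-h) h) := Pool.Agent.MP_ae5b4e_an_NBT.isOpen_St _ _
  have hM : AnalyticAt ℂ M p := hS.an p hp
  have hSt : M p ∈ St (-h) h := hS.maps hp
  have a1 : AnalyticAt ℂ Y.y1 (M p) := (DifferentiableOn.analyticOnNhd
    (fun z hz => (hS.on.d1 z hz).differentiableAt.differentiableWithinAt) hO) (M p) hSt
  have a2 : AnalyticAt ℂ Y.y2 (M p) := (DifferentiableOn.analyticOnNhd
    (fun z hz => (hS.on.d2 z hz).differentiableAt.differentiableWithinAt) hO) (M p) hSt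
  have m1 : MerAt (fun q => Y.y1 (M q)) p :=
    Pool.Agent.MP_ae5b4e_an_NBT.merAt_of_analyticAt (a1.comp hM)
  have m2 : MerAt (fun q => Y.y2 (M q)) p :=
    Pool.Agent.MP_ae5b4e_an_NBT.merAt_of_analyticAt (a2.comp hM)
  exact m2.div m1

end Pool.Agent.MP_ae5b4e_an_NB2
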