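import Mathlib
import Pool.Agent.Lib.MP_ae5b4e_an_LU.MerFu

/-!
# MP_ae5b4e_an, Lemma U: all directions (2.21), and the natural boundary
-/

noncomputable section

namespace Pool.Agent.MP_ae5b4e_an_NB2

open Complex Set Filter Topology Metric
open Pool.Agent.MP_ae5b4e_an_NBT (St Mer MerAt EqM)
open Pool.Agent.Lib.MP_ae5b4e_an_LL (ExtH hdom ExtR)

variable {Y : Sys} {h b l C R : ℝ} {M : ℂ × ℂ → ℂ} {w : ℂ}

/-- the real part and the depth at a point near `w` -/
private lemma AllDir_near {t : ℂ} {s : ℝ} (ht : t ∈ ball w s) :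
    |t.re - b| < |w.re - b| + s ∧ dep h t < dep h w + s ∧ dep h w - s < dep h t := by
  rw [mem_ball, dist_eq_norm] at ht
  have h1 : |t.re - w.re| < s := by
    have := abs_re_le_norm (t - w)
    rw [sub_re] at this
    exact this.trans_lt ht
  have h2 : |t.im - w.im| < s := by
    have := abs_im_le_norm (t - w)
    rw [sub_im] at this
    exact this.trans_lt ht
  rw [abs_lt] at h2
  refine ⟨?_, ?_, ?_⟩
  · have h3 : t.re - b = (w.re - b) + (t.re - w.re) := by ring
    rw [h3]
    exact (abs_add_le _ _).trans_lt (by linarith)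
  · unfold dep
    linarith [h2.1]
  · unfold dep
    linarith [h2.2]

/-- all directions -/
theorem ext_all (hS : Slope Y h b l C R M) (hw : |w.re - b| < l / 4) (hw0 : 0 < dep h w)
    (hw1 : dep h w ≤ l / 20) {η : ℂ} (hη : C * ‖η‖ < dep h w) (hηR : ‖η‖ < R) {s : ℝ}
    (hs : s < dep h w - C * ‖η‖) : ExtR (Fu Y M) w s η := by
  have hl := hS.l_pos
  have hC : 0 < C := zero_lt_one.trans_le hS.C_one
  have h1 : 0 < (dep h w - s - C * ‖η‖) / C := div_pos (by linarith) hC
  have h2 : 0 < R - ‖η‖ := by linarith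
  have hCη : 0 ≤ C * ‖η‖ := mul_nonneg hC.le (norm_nonneg _)
  refine ⟨min ((dep h w - s - C * ‖η‖) / C) (R - ‖η‖), lt_min h1 h2, Fu Y M, ?_,
    fun _ _ => EqM.refl _ _⟩
  refine (mer_Fu hS).mono ?_
  rintro ⟨t, η'⟩ ⟨ht, hη'⟩
  obtain ⟨a1, a2, a3⟩ := AllDir_near (b := b) (h := h) ht
  rw [mem_ball, dist_eq_norm] at hη'
  have h3 : ‖η' - η‖ < (dep h w - s - C * ‖η‖) / C := hη'.trans_le (min_le_left _ _)
  have h4 : ‖η' - η‖ < R - ‖η‖ := hη'.trans_le (min_le_right _ _)
  have h5 : ‖η'‖ ≤ ‖η' - η‖ + ‖η‖ := by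
    have := norm_add_le (η' - η) η
    rwa [sub_add_cancel] at this
  have h6 : C * ‖η' - η‖ < dep h w - s - C * ‖η‖ := by
    rw [lt_div_iff₀ hC] at h3
    linarith
  have h7 : C * ‖η'‖ ≤ C * ‖η' - η‖ + C * ‖η‖ := by
    have := mul_le_mul_of_nonneg_left h5 hC.le
    linarith
  rw [mem_SReg]
  refine ⟨?_, ?_, ?_, ?_⟩
  · show |t.re - b| < l / 2
    linarith
  · show dep h t < l / 4
    linarith
  · show C * ‖η'‖ < dep h t
    linarith
  · show ‖η'‖ < R
    linarith

/-- the natural boundary -/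
theorem ext_zero (hS : Slope Y h b l C R M) (hN : NBArc Y h b l M) (hw : |w.re - b| < l / 4)
    (hw0 : 0 < dep h w) (hw1 : dep h w ≤ l / 20) {s : ℝ} (hs : ExtR (Fu Y M) w s 0) :
    s ≤ dep h w := by
  by_contra hcon
  rw [not_le] at hcon
  have hl := hS.l_pos
  obtain ⟨δ, hδ, G, hG, hGF⟩ := hs
  have hdist : ∀ x : ℝ, dist (w + I * x) w = |x| := by
    intro x
    rw [dist_eq_norm, add_sub_cancel_left, norm_mul, norm_I, one_mul, norm_real,
      Real.norm_eq_abs]
  have hδ0 : 0 < min (s - dep h w) δ := lt_min (by linarith) hδ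
  set D : ℝ := dep h w with hD
  set δ' : ℝ := min (s - D) δ with hδ'
  have hb1 : (w + I * D).re = w.re := by simp
  have hb2 : (w + I * D).im = h := by
    simp [hD, dep]
  refine hN (w + I * D) ?_ hb2 ⟨δ', hδ0, G, ?_, ?_⟩
  · rw [hb1]
    linarith
  · refine hG.mono (prod_mono ?_ (ball_subset_ball (min_le_right _ _)))
    intro t ht
    rw [mem_ball] at ht ⊢
    have h1 := dist_triangle t (w + I * D) w
    have h2 := hdist D
    rw [abs_of_pos hw0] at h2
    have h3 : dist t (w + I * D) < s - D := ht.trans_le (min_le_left _ _)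
    linarith
  · set ε : ℝ := min (δ' / 2) (D / 2) with hε
    have e0 : 0 < ε := lt_min (by linarith) (by linarith)
    have e1 : ε ≤ δ' / 2 := min_le_left _ _
    have e2 : ε ≤ D / 2 := min_le_right _ _
    have hdep : dep h (w + I * ((D - ε : ℝ) : ℂ)) = ε := by
      have : (w + I * ((D - ε : ℝ) : ℂ)).im = w.im + (D - ε) := by simp
      unfold dep at hD ⊢
      rw [this, hD]
      ring
    have hre : (w + I * ((D - ε : ℝ) : ℂ)).re = w.re := by simp
    have hmem : w + I * ((D - ε : ℝ) : ℂ) ∈ ball w D := by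
      rw [mem_ball, hdist, abs_of_pos (by linarith)]
      linarith
    refine ⟨w + I * ((D - ε : ℝ) : ℂ), ?_, ?_, ?_, ?_, ?_⟩
    · rw [mem_ball, dist_eq_norm]
      have h1 : w + I * ((D - ε : ℝ) : ℂ) - (w + I * D) = -(I * (ε : ℂ)) := by
        push_cast
        ring
      rw [h1, norm_neg, norm_mul, norm_I, one_mul, norm_real, Real.norm_eq_abs, abs_of_pos e0]
      linarith
    · rw [hre]
      linarith
    · rw [hdep]
      exact e0
    · rw [hdep]
      linarith
    · have hpc : IsPreconnected (ball w D ×ˢ ({0} : Set ℂ)) :=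
        (convex_ball w D).isPreconnected.prod isPreconnected_singleton
      have hm1 : Mer G (ball w D ×ˢ ({0} : Set ℂ)) := by
        refine hG.mono (prod_mono (ball_subset_ball hcon.le) ?_)
        rintro x hx
        rw [mem_singleton_iff] at hx
        rw [hx]
        exact mem_ball_self hδ
      have hm2 : Mer (Fu Y M) (ball w D ×ˢ ({0} : Set ℂ)) := by
        refine (mer_Fu hS).mono ?_
        rintro ⟨t, x⟩ ⟨ht, hx⟩
        rw [mem_singleton_iff] at hx
        simp only at hx ht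
        obtain ⟨a1, a2, a3⟩ := AllDir_near (b := b) (h := h) ht
        rw [hx]
        refine SReg_zero hS.R_pos ?_ ?_ ?_
        · linarith
        · linarith
        · linarith
      exact Pool.Agent.MP_ae5b4e_an_NBT.Mer.eqM hpc hm1 hm2
        (p := (w, 0)) ⟨mem_ball_self hw0, rfl⟩ (hGF 0 (mem_ball_self hδ)) _ ⟨hmem, rfl⟩

end Pool.Agent.MP_ae5b4e_an_NB2
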