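import Mathlib
import Pool.Agent.Lib.MP_ae5b4e_an_LU.Defs

/-!
# MP_ae5b4e_an, Lemma U: uniqueness and analytic dependence of the upper neighbour
-/

noncomputable section

namespace Pool.Agent.MP_ae5b4e_an_NB2

open Complex Set Filter Topology Metric

variable {Y : Sys} {w : ℂ} {d : ℝ}

/-! ### The analytic implicit function theorem -/

/-- the linear map `(p, u) ↦ (p, A p + ν u)` -/
def duEquiv {E : Type*} [NormedAddCommGroup E] [NormedSpace ℂ E] (A : E →L[ℂ] ℂ) (ν : ℂ)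
    (hν : ν ≠ 0) : (E × ℂ) ≃L[ℂ] (E × ℂ) :=
  ContinuousLinearEquiv.equivOfInverse
    ((ContinuousLinearMap.fst ℂ E ℂ).prod
      (A.comp (ContinuousLinearMap.fst ℂ E ℂ) + ν • ContinuousLinearMap.snd ℂ E ℂ))
    ((ContinuousLinearMap.fst ℂ E ℂ).prod
      (ν⁻¹ • (ContinuousLinearMap.snd ℂ E ℂ - A.comp (ContinuousLinearMap.fst ℂ E ℂ))))
    (by
      intro p
      ext
      · simp
      · simp
        field_simp)
    (by
      intro p
      ext
      · simp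
      · simp
        field_simp
        ring)

/-- the analytic implicit function theorem with one unknown -/
theorem implicit_an {E : Type*} [NormedAddCommGroup E] [NormedSpace ℂ E] [CompleteSpace E]
    {N : E × ℂ → ℂ} {a : E} {u₀ : ℂ} (hN : AnalyticAt ℂ N (a, u₀)) (h0 : N (a, u₀) = 0) {ν : ℂ}
    (hν : ν ≠ 0) (hd : HasDerivAt (fun u => N (a, u)) ν u₀) :
    ∃ g : E → ℂ, AnalyticAt ℂ g a ∧ g a = u₀ ∧ ∀ᶠ p in 𝓝 a, N (p, g p) = 0 := by
  set D := fderiv ℂ N (a, u₀) with hD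
  have hND : HasFDerivAt N D (a, u₀) := hN.differentiableAt.hasFDerivAt
  set A : E →L[ℂ] ℂ := D.comp (ContinuousLinearMap.inl ℂ E ℂ) with hA
  have hDν : D (0, 1) = ν := by
    have h1 : HasDerivAt (fun u : ℂ => ((a, u) : E × ℂ)) ((0 : E), (1 : ℂ)) u₀ :=
      (hasDerivAt_const u₀ a).prodMk (hasDerivAt_id u₀)
    exact (hND.comp_hasDerivAt u₀ h1).unique hd
  have hDsum : ∀ q : E × ℂ, D q = A q.1 + ν * q.2 := by
    intro q
    have h1 : q = ContinuousLinearMap.inl ℂ E ℂ q.1 + q.2 • ((0 : E), (1 : ℂ)) := by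
      ext <;> simp
    conv_lhs => rw [h1]
    rw [map_add, map_smul, hDν, smul_eq_mul, mul_comm]
    rfl
  set Φ : E × ℂ → E × ℂ := fun q => (q.1, N q) with hΦ
  have hΦa : AnalyticAt ℂ Φ (a, u₀) := analyticAt_fst.prod hN
  have hΦd : HasFDerivAt Φ (duEquiv A ν hν : (E × ℂ) →L[ℂ] (E × ℂ)) (a, u₀) := by
    have h1 : HasFDerivAt Φ ((ContinuousLinearMap.fst ℂ E ℂ).prod D) (a, u₀) :=
      hasFDerivAt_fst.prodMk hND
    convert h1 using 1
    refine ContinuousLinearMap.ext fun q => Prod.ext rfl ?_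
    show A q.1 + ν • q.2 = D q
    rw [hDsum, smul_eq_mul]
  have hcd : ContDiffAt ℂ ⊤ Φ (a, u₀) := hΦa.contDiffAt
  set G := hcd.localInverse hΦd (by simp) with hG
  have hGa : AnalyticAt ℂ G (Φ (a, u₀)) := (hcd.to_localInverse hΦd (by simp)).analyticAt
  have hG0 : G (Φ (a, u₀)) = (a, u₀) := hcd.localInverse_apply_image hΦd (by simp)
  have hGr : ∀ᶠ q in 𝓝 (Φ (a, u₀)), Φ (G q) = q :=
    (hcd.hasStrictFDerivAt' hΦd (by simp)).eventually_right_inverse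
  have hΦ0 : Φ (a, u₀) = (a, 0) := by
    show ((a, N (a, u₀)) : E × ℂ) = (a, 0)
    rw [h0]
  rw [hΦ0] at hGa hG0 hGr
  have hι : AnalyticAt ℂ (fun p : E => ((p, (0:ℂ)) : E × ℂ)) a :=
    analyticAt_id.prod analyticAt_const
  refine ⟨fun p => (G (p, 0)).2, ?_, ?_, ?_⟩
  · have h1 : AnalyticAt ℂ (fun p : E => G (p, 0)) a :=
      AnalyticAt.fun_comp (g := G) (f := fun p : E => ((p, (0:ℂ)) : E × ℂ)) hGa hι
    exact analyticAt_snd.comp h1
  · show (G (a, 0)).2 = u₀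
    rw [hG0]
  · have h1 : Tendsto (fun p : E => ((p, (0:ℂ)) : E × ℂ)) (𝓝 a) (𝓝 (a, 0)) :=
      hι.continuousAt
    filter_upwards [h1.eventually hGr] with p hp
    have h2 : (G (p, 0)).1 = p := congrArg Prod.fst hp
    have h3 : N (G (p, 0)) = 0 := congrArg Prod.snd hp
    have h4 : ((p, (G (p, 0)).2) : E × ℂ) = G (p, 0) := by
      ext
      · exact h2.symm
      · rfl
    rw [h4]
    exact h3

/-! ### The limit curve -/

theorem Sys.On.an {Y : Sys} {S : Set ℂ} (hS : IsOpen S) (hY : Y.On S) {z : ℂ} (hz : z ∈ S) :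
    AnalyticAt ℂ Y.y1 z ∧ AnalyticAt ℂ Y.y1' z ∧ AnalyticAt ℂ Y.y2 z ∧ AnalyticAt ℂ Y.y2' z := by
  have key : ∀ f f' : ℂ → ℂ, (∀ z ∈ S, HasDerivAt f (f' z) z) → AnalyticAt ℂ f z ∧
      AnalyticAt ℂ f' z := by
    intro f f' h
    have h1 : DifferentiableOn ℂ f S := fun x hx => (h x hx).differentiableAt.differentiableWithinAt
    have h2 : AnalyticAt ℂ f z := h1.analyticAt (hS.mem_nhds hz)
    refine ⟨h2, h2.deriv.congr ?_⟩
    filter_upwards [hS.mem_nhds hz] with x hx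
    exact (h x hx).deriv
  exact ⟨(key _ _ hY.d1).1, (key _ _ hY.d1).2, (key _ _ hY.d2).1, (key _ _ hY.d2).2⟩

/-- the relation between the kernels -/
theorem Sys.cs_sub {Y : Sys} {S : Set ℂ} (hY : Y.On S) {l u v : ℂ} (hl : l ∈ S) :
    Y.c u l * Y.s v l - Y.c v l * Y.s u l = Y.s v u := by
  have h := hY.wr l hl
  have e : Y.c u l * Y.s v l - Y.c v l * Y.s u l =
      (Y.y1 l * Y.y2' l - Y.y1' l * Y.y2 l) * Y.s v u := by
    simp only [Sys.c, Sys.s]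
    ring
  rw [e, h, one_mul]

/-- uniqueness of the upper neighbour in a disc of univalence -/
theorem node_uniq (hU : Uni Y w d) {l u u' v : ℂ} (hl : l ∈ ball w d) (hu : u ∈ ball w d)
    (hu' : u' ∈ ball w d) (hv : v ∈ ball w d) (hvl : v ≠ l) (h : Y.node l u v)
    (h' : Y.node l u' v) : u = u' := by
  have hs : Y.s v l ≠ 0 := fun h0 => hvl (hU.inj v hv l hl h0)
  unfold Sys.node at h h'
  have h1 := Sys.cs_sub hU.on (l := l) (u := u) (v := u') hl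
  have h2 : Y.s v l * (Y.c u l * Y.s u' l - Y.c u' l * Y.s u l) = 0 := by
    linear_combination Y.s u' l * h - Y.s u l * h'
  rw [h1] at h2
  exact (hU.inj u' hu' u hu ((mul_eq_zero.1 h2).resolve_left hs)).symm

/-- the upper neighbour depends analytically on the label and the lower neighbour -/
theorem node_analytic (hU : Uni Y w d) {O : Set (ℂ × ℂ)} (hO : IsOpen O)
    {lam low upp : ℂ × ℂ → ℂ} (hlam : AnalyticOnNhd ℂ lam O) (hlow : AnalyticOnNhd ℂ low O)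
    (h1 : MapsTo lam O (ball w d)) (h2 : MapsTo low O (ball w d)) (h3 : MapsTo upp O (ball w d))
    (hne : ∀ p ∈ O, low p ≠ lam p) (hn : ∀ p ∈ O, Y.node (lam p) (upp p) (low p)) :
    AnalyticOnNhd ℂ upp O := by
  intro p₀ hp₀
  set l := lam p₀ with hl
  set v := low p₀ with hv
  set u₀ := upp p₀ with hu₀
  have hlB : l ∈ ball w d := h1 hp₀
  have hvB : v ∈ ball w d := h2 hp₀
  have huB : u₀ ∈ ball w d := h3 hp₀
  obtain ⟨a1, a1', a2, a2'⟩ := Sys.On.an isOpen_ball hU.on hlB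
  obtain ⟨b1, b1', b2, b2'⟩ := Sys.On.an isOpen_ball hU.on hvB
  obtain ⟨c1, c1', c2, c2'⟩ := Sys.On.an isOpen_ball hU.on huB
  set N : (ℂ × ℂ) × ℂ → ℂ := fun q =>
    Y.c q.2 (lam q.1) * Y.s (low q.1) (lam q.1) + Y.c (low q.1) (lam q.1) * Y.s q.2 (lam q.1)
    with hN
  have hfst : AnalyticAt ℂ (fun q : (ℂ × ℂ) × ℂ => q.1) (p₀, u₀) := analyticAt_fst
  have hsnd : AnalyticAt ℂ (fun q : (ℂ × ℂ) × ℂ => q.2) (p₀, u₀) := analyticAt_snd
  have hlamq : AnalyticAt ℂ (fun q : (ℂ × ℂ) × ℂ => lam q.1) (p₀, u₀) :=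
    AnalyticAt.fun_comp (g := lam) (f := fun q : (ℂ × ℂ) × ℂ => q.1) (hlam p₀ hp₀) hfst
  have hlowq : AnalyticAt ℂ (fun q : (ℂ × ℂ) × ℂ => low q.1) (p₀, u₀) :=
    AnalyticAt.fun_comp (g := low) (f := fun q : (ℂ × ℂ) × ℂ => q.1) (hlow p₀ hp₀) hfst
  have key : ∀ {g : ℂ → ℂ} {f : (ℂ × ℂ) × ℂ → ℂ} {y : ℂ}, AnalyticAt ℂ g y → f (p₀, u₀) = y →
      AnalyticAt ℂ f (p₀, u₀) → AnalyticAt ℂ (fun q => g (f q)) (p₀, u₀) := by
    intro g f y hg hy hf
    refine AnalyticAt.fun_comp (g := g) (f := f) ?_ hf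
    rw [hy]
    exact hg
  have hNa : AnalyticAt ℂ N (p₀, u₀) := by
    have e1 := key a1 rfl hlamq
    have e1' := key a1' rfl hlamq
    have e2 := key a2 rfl hlamq
    have e2' := key a2' rfl hlamq
    have g1 := key b1 rfl hlowq
    have g2 := key b2 rfl hlowq
    have k1 := key c1 rfl hsnd
    have k2 := key c2 rfl hsnd
    exact ((((e2'.mul k1).sub (e1'.mul k2)).mul ((e1.mul g2).sub (e2.mul g1))).add
      (((e2'.mul g1).sub (e1'.mul g2)).mul ((e1.mul k2).sub (e2.mul k1))))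
  have hN0 : N (p₀, u₀) = 0 := hn p₀ hp₀
  set ν : ℂ := (Y.y2' l * Y.y1' u₀ - Y.y1' l * Y.y2' u₀) * Y.s v l +
    Y.c v l * (Y.y1 l * Y.y2' u₀ - Y.y2 l * Y.y1' u₀) with hν
  have hd : HasDerivAt (fun u => N (p₀, u)) ν u₀ := by
    have k1 := hU.on.d1 u₀ huB
    have k2 := hU.on.d2 u₀ huB
    exact ((((k1.const_mul (Y.y2' l)).sub (k2.const_mul (Y.y1' l))).mul_const (Y.s v l)).add
      (((k2.const_mul (Y.y1 l)).sub (k1.const_mul (Y.y2 l))).const_mul (Y.c v l)))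
  have hν0 : ν ≠ 0 := by
    intro h0
    have hs : Y.s v l ≠ 0 := fun h4 => hne p₀ hp₀ (hU.inj v hvB l hlB h4)
    apply hs
    have hwl := hU.on.wr l hlB
    have hwu := hU.on.wr u₀ huB
    have hN1 : (Y.y2' l * Y.y1 u₀ - Y.y1' l * Y.y2 u₀) * Y.s v l +
        Y.c v l * (Y.y1 l * Y.y2 u₀ - Y.y2 l * Y.y1 u₀) = 0 := hN0
    set α : ℂ := Y.y2' l * Y.s v l - Y.c v l * Y.y2 l with hα
    set β : ℂ := -(Y.y1' l * Y.s v l) + Y.c v l * Y.y1 l with hβ
    have e1 : α * Y.y1 u₀ + β * Y.y2 u₀ = 0 := by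
      rw [hα, hβ]; linear_combination hN1
    have e2 : α * Y.y1' u₀ + β * Y.y2' u₀ = 0 := by
      rw [hα, hβ]; linear_combination h0
    have hα0 : α = 0 := by
      have : α * (Y.y1 u₀ * Y.y2' u₀ - Y.y1' u₀ * Y.y2 u₀) = 0 := by
        linear_combination Y.y2' u₀ * e1 - Y.y2 u₀ * e2
      rwa [hwu, mul_one] at this
    have hβ0 : β = 0 := by
      have : β * (Y.y1 u₀ * Y.y2' u₀ - Y.y1' u₀ * Y.y2 u₀) = 0 := by
        linear_combination Y.y1 u₀ * e2 - Y.y1' u₀ * e1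
      rwa [hwu, mul_one] at this
    have : Y.y1 l * α + Y.y2 l * β = Y.s v l * (Y.y1 l * Y.y2' l - Y.y1' l * Y.y2 l) := by
      rw [hα, hβ]; ring
    rw [hα0, hβ0, hwl] at this
    simpa using this.symm
  obtain ⟨g, hg1, hg2, hg3⟩ := implicit_an hNa hN0 hν0 hd
  refine hg1.congr ?_
  have hgB : ∀ᶠ p in 𝓝 p₀, g p ∈ ball w d :=
    hg1.continuousAt.eventually (isOpen_ball.mem_nhds (by rw [hg2]; exact huB))
  filter_upwards [hg3, hgB, hO.mem_nhds hp₀] with p hp1 hp2 hp3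
  exact node_uniq hU (h1 hp3) hp2 (h3 hp3) (h2 hp3) (hne p hp3) hp1 (hn p hp3)

/-- the value of the limit curve at the upper neighbour -/
theorem node_value {S : Set ℂ} (hY : Y.On S) {l u v : ℂ} (hl : l ∈ S) (_hu : u ∈ S) (_hv : v ∈ S)
    (h : Y.node l u v) (hs : Y.s v l ≠ 0) (h1 : Y.y1 u ≠ 0) :
    deN Y l v ≠ 0 ∧ Y.y2 u / Y.y1 u = nuN Y l v / deN Y l v := by
  have hw := hY.wr l hl
  have h2 : Y.y1 u * nuN Y l v = Y.y2 u * deN Y l v := by
    unfold Sys.node at h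
    simp only [nuN, deN]
    have : (Y.y2' l * Y.y1 u - Y.y1' l * Y.y2 u) * Y.s v l +
        Y.c v l * (Y.y1 l * Y.y2 u - Y.y2 l * Y.y1 u) = 0 := h
    linear_combination this
  have h3 : deN Y l v ≠ 0 := by
    intro h0
    rw [h0, mul_zero] at h2
    have h4 : nuN Y l v = 0 := (mul_eq_zero.1 h2).resolve_left h1
    apply hs
    have h5 : Y.y1 l * nuN Y l v - Y.y2 l * deN Y l v =
        (Y.y1 l * Y.y2' l - Y.y1' l * Y.y2 l) * Y.s v l := by
      simp only [nuN, deN]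
      ring
    rw [h4, h0, hw] at h5
    simpa using h5.symm
  refine ⟨h3, ?_⟩
  rw [div_eq_div_iff h1 h3]
  linear_combination -h2

end Pool.Agent.MP_ae5b4e_an_NB2
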