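import Mathlib
import Pool.Agent.Lib.MP_ae5b4e_an_NB2.SB
import Pool.Agent.Lib.MP_ae5b4e_an_NB2.Est
import Pool.Agent.Lib.MP_ae5b4e_an_LU.SRegL
import Pool.Agent.Lib.MP_ae5b4e_an_LU.DUniq

/-!
# MP_ae5b4e_an, Lemma U: the label over an arc with bounded `|Q| d ^ 2` (from the slope bound)
-/

noncomputable section

namespace Pool.Agent.MP_ae5b4e_an_NB2

open Complex Set Filter Topology Metric
open Pool.Agent.MP_ae5b4e_an_NBT (St Mer MerAt EqM isOpen_St)
open Pool.Agent.Lib.MP_ae5b4e_an_LL (ExtH hdom ExtR)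

/-- the node relation along the segment from `η = 0` -/
private lemma br_node {Y : Sys} {h b l C R : ℝ} {L M : ℂ × ℂ → ℂ} (hC : 0 ≤ C) (hL : Lab Y h L)
    (hSt : ∀ p ∈ SReg h b l C R, p.1 ∈ St (-h) h)
    (hMa : AnalyticOnNhd ℂ M (SReg h b l C R)) (hMm : MapsTo M (SReg h b l C R) (St (-h) h))
    (hML : ∀ t : ℂ, (t, (0:ℂ)) ∈ SReg h b l C R → M =ᶠ[𝓝 (t, (0:ℂ))] L) {t η : ℂ}
    (h0 : (t, (0:ℂ)) ∈ SReg h b l C R) (h1 : (t, η) ∈ SReg h b l C R)
    (h2 : (t + η, η) ∈ SReg h b l C R) (h3 : (t - η, η) ∈ SReg h b l C R) :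
    Y.node (M (t, η)) (M (t + η, η)) (M (t - η, η)) := by
  set S := SReg h b l C R with hS
  have hSo : IsOpen S := isOpen_SReg h b l C R
  have hSc : Convex ℝ S := convex_SReg hC
  -- the three lines
  set f1 : ℂ → ℂ × ℂ := fun z => (t, z * η) with hf1
  set f2 : ℂ → ℂ × ℂ := fun z => (t + z * η, z * η) with hf2
  set f3 : ℂ → ℂ × ℂ := fun z => (t - z * η, z * η) with hf3
  have a1 : ∀ z, AnalyticAt ℂ f1 z := fun z =>
    analyticAt_const.prod (analyticAt_id.mul analyticAt_const)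
  have a2 : ∀ z, AnalyticAt ℂ f2 z := fun z =>
    (analyticAt_const.add (analyticAt_id.mul analyticAt_const)).prod
      (analyticAt_id.mul analyticAt_const)
  have a3 : ∀ z, AnalyticAt ℂ f3 z := fun z =>
    (analyticAt_const.sub (analyticAt_id.mul analyticAt_const)).prod
      (analyticAt_id.mul analyticAt_const)
  have k1 : ∀ (s r : ℝ) (x y : ℂ), s + r = 1 → f1 (s • x + r • y) = s • f1 x + r • f1 y := by
    intro s r x y hsr
    have hsr' : (s:ℂ) + r = 1 := by exact_mod_cast hsr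
    ext <;> simp [f1]
    · linear_combination (-t) * hsr'
    · ring
  have k2 : ∀ (s r : ℝ) (x y : ℂ), s + r = 1 → f2 (s • x + r • y) = s • f2 x + r • f2 y := by
    intro s r x y hsr
    have hsr' : (s:ℂ) + r = 1 := by exact_mod_cast hsr
    ext <;> simp [f2]
    · linear_combination (-t) * hsr'
    · ring
  have k3 : ∀ (s r : ℝ) (x y : ℂ), s + r = 1 → f3 (s • x + r • y) = s • f3 x + r • f3 y := by
    intro s r x y hsr
    have hsr' : (s:ℂ) + r = 1 := by exact_mod_cast hsr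
    ext <;> simp [f3]
    · linear_combination (-t) * hsr'
    · ring
  set W : Set ℂ := f1 ⁻¹' S ∩ (f2 ⁻¹' S ∩ f3 ⁻¹' S) with hW
  have hWc : Convex ℝ W := by
    rintro x ⟨x1, x2, x3⟩ y ⟨y1, y2, y3⟩ s r hs hr hsr
    refine ⟨?_, ?_, ?_⟩
    · show f1 _ ∈ S
      rw [k1 s r x y hsr]
      exact hSc x1 y1 hs hr hsr
    · show f2 _ ∈ S
      rw [k2 s r x y hsr]
      exact hSc x2 y2 hs hr hsr
    · show f3 _ ∈ S
      rw [k3 s r x y hsr]
      exact hSc x3 y3 hs hr hsr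
  have hW0 : (0:ℂ) ∈ W := by
    refine ⟨?_, ?_, ?_⟩
    · show f1 0 ∈ S
      simpa [f1] using h0
    · show f2 0 ∈ S
      simpa [f2] using h0
    · show f3 0 ∈ S
      simpa [f3] using h0
  have hW1 : (1:ℂ) ∈ W := by
    refine ⟨?_, ?_, ?_⟩
    · show f1 1 ∈ S
      simpa [f1] using h1
    · show f2 1 ∈ S
      simpa [f2] using h2
    · show f3 1 ∈ S
      simpa [f3] using h3
  set g : ℂ → ℂ := fun z => Y.c (M (f2 z)) (M (f1 z)) * Y.s (M (f3 z)) (M (f1 z)) +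
    Y.c (M (f3 z)) (M (f1 z)) * Y.s (M (f2 z)) (M (f1 z)) with hg
  have hga : AnalyticOnNhd ℂ g W := by
    rintro z ⟨z1, z2, z3⟩
    have key : ∀ (f : ℂ → ℂ × ℂ), AnalyticAt ℂ f z → f z ∈ S →
        AnalyticAt ℂ (fun z => Y.y1 (M (f z))) z ∧ AnalyticAt ℂ (fun z => Y.y1' (M (f z))) z ∧
        AnalyticAt ℂ (fun z => Y.y2 (M (f z))) z ∧ AnalyticAt ℂ (fun z => Y.y2' (M (f z))) z := by
      intro f hf hz
      have h4 : AnalyticAt ℂ (fun z => M (f z)) z :=
        AnalyticAt.fun_comp (g := M) (f := f) (hMa _ hz) hf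
      obtain ⟨b1, b2, b3, b4⟩ := Sys.On.an (isOpen_St (-h) h) hL.on (hMm hz)
      exact ⟨AnalyticAt.fun_comp (f := fun z => M (f z)) b1 h4,
        AnalyticAt.fun_comp (f := fun z => M (f z)) b2 h4,
        AnalyticAt.fun_comp (f := fun z => M (f z)) b3 h4,
        AnalyticAt.fun_comp (f := fun z => M (f z)) b4 h4⟩
    obtain ⟨b1, b2, b3, b4⟩ := key f1 (a1 z) z1
    obtain ⟨c1, c2, c3, c4⟩ := key f2 (a2 z) z2
    obtain ⟨d1, d2, d3, d4⟩ := key f3 (a3 z) z3
    exact (((b4.mul c1).sub (b2.mul c3)).mul ((b1.mul d3).sub (b3.mul d1))).add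
      (((b4.mul d1).sub (b2.mul d3)).mul ((b1.mul c3).sub (b3.mul c1)))
  have hg0 : g =ᶠ[𝓝 0] 0 := by
    have e1 : Tendsto f1 (𝓝 0) (𝓝 (t, 0)) := by
      have := (a1 0).continuousAt.tendsto
      simpa [f1] using this
    have e2 : Tendsto f2 (𝓝 0) (𝓝 (t, 0)) := by
      have := (a2 0).continuousAt.tendsto
      simpa [f2] using this
    have e3 : Tendsto f3 (𝓝 0) (𝓝 (t, 0)) := by
      have := (a3 0).continuousAt.tendsto
      simpa [f3] using this
    have hm := hML t h0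
    filter_upwards [e1.eventually hm, e2.eventually hm, e3.eventually hm,
      e1.eventually (hL.node t (hSt _ h0))] with z z1 z2 z3 z4
    show Y.c (M (f2 z)) (M (f1 z)) * Y.s (M (f3 z)) (M (f1 z)) +
      Y.c (M (f3 z)) (M (f1 z)) * Y.s (M (f2 z)) (M (f1 z)) = 0
    rw [z1, z2, z3]
    exact z4
  have h5 := hga.eqOn_zero_of_preconnected_of_eventuallyEq_zero hWc.isPreconnected hW0 hg0 hW1
  have h6 : g 1 = 0 := h5
  simp only [hg, hf1, hf2, hf3, one_mul] at h6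
  exact h6

/-- the slope bound gives the controlled label -/
theorem exists_slope {q : ℝ} (hq : 1 ≤ q) : ∃ C : ℝ, 1 ≤ C ∧ ∀ (Y : Sys) (h : ℝ) (L : ℂ × ℂ → ℂ)
    (b l : ℝ), Lab Y h L → Arc Y h b l q → ∃ (R : ℝ) (M : ℂ × ℂ → ℂ), Slope Y h b l C R M ∧
      ∀ t : ℂ, |t.re - b| < l / 2 → 0 < dep h t → dep h t < l / 4 → M =ᶠ[𝓝 (t, (0:ℂ))] L := by
  obtain ⟨a₀, ha₀, H⟩ := slope_bound hq
  set C : ℝ := max 1 (1 / a₀) with hC
  have hC1 : 1 ≤ C := le_max_left _ _
  have hC0 : 0 < C := by linarith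
  have haC : 1 ≤ a₀ * C := by
    calc (1:ℝ) = a₀ * (1 / a₀) := by field_simp
      _ ≤ a₀ * C := mul_le_mul_of_nonneg_left (le_max_right _ _) ha₀.le
  refine ⟨C, hC1, fun Y h L b l hL hA => ?_⟩
  obtain ⟨R, hR, HR⟩ := H Y h L b l hL hA
  obtain ⟨M, hM⟩ := exists_isExt h L
  have hlh := hA.l_le
  have hl := hA.l_pos
  have hh := hL.h_pos
  have hSt' : ∀ t : ℂ, 0 < dep h t → dep h t < l / 4 → t ∈ St (-h) h := by
    intro t h1 h2
    unfold dep at h1 h2
    exact ⟨by linarith, by linarith⟩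
  have hdep : ∀ p ∈ SReg h b l C R, 0 < dep h p.1 := fun p hp =>
    lt_of_le_of_lt (mul_nonneg hC0.le (norm_nonneg _)) hp.2.2.1
  have hSt : ∀ p ∈ SReg h b l C R, p.1 ∈ St (-h) h := fun p hp =>
    hSt' _ (hdep p hp) hp.2.1
  have hreg : ∀ p ∈ SReg h b l C R, LReg h L (min (a₀ * dep h p.1) R) p.1 := fun p hp =>
    HR p.1 hp.1 (hdep p hp) hp.2.1
  have hlt : ∀ p ∈ SReg h b l C R, ‖p.2‖ < min (a₀ * dep h p.1) R := by
    intro p hp
    refine lt_min ?_ hp.2.2.2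
    have h1 := mul_lt_mul_of_pos_left hp.2.2.1 ha₀
    have h2 : ‖p.2‖ ≤ a₀ * (C * ‖p.2‖) := by
      rw [← mul_assoc]
      exact le_mul_of_one_le_left (norm_nonneg _) haC
    linarith
  have hmem : ∀ p ∈ SReg h b l C R, p ∈ hdom L 0 (St (-h) h) := fun p hp =>
    mem_hdom_of_lreg (hreg p hp) (hlt p hp)
  have hMa : AnalyticOnNhd ℂ M (SReg h b l C R) := fun p hp => hM.an p (hmem p hp)
  have hMm : MapsTo M (SReg h b l C R) (St (-h) h) := fun p hp => hM.maps (hmem p hp)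
  have hML : ∀ t : ℂ, t ∈ St (-h) h → M =ᶠ[𝓝 (t, (0:ℂ))] L := fun t ht =>
    hM.eq t (hL.mem_hdom ht)
  refine ⟨R, M, ?_, fun t _ h2 h3 => hML t (hSt' t h2 h3)⟩
  refine
    { h_pos := hh, l_pos := hl, l_le := hlh, C_one := hC1, R_pos := hR, on := hL.on, an := hMa
      maps := hMm, zero := fun t ht => hM.zero hL (hSt _ ht), even := ?_, est := ?_, node := ?_ }
  · intro p hp
    exact hM.even hL (hSt p hp) (hreg p hp) (hlt p hp)
  · intro p hp h1 h2
    have hd := hdep p hp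
    obtain ⟨r, hr⟩ : ∃ r : ℝ, r = dep h p.1 / C := ⟨_, rfl⟩
    have hr0 : 0 < r := by rw [hr]; exact div_pos hd hC0
    have hrC : C * r = dep h p.1 := by rw [hr]; field_simp
    have hrle : r ≤ min (a₀ * dep h p.1) R := by
      refine le_min ?_ ?_
      · rw [← hrC]
        calc r ≤ (a₀ * C) * r := le_mul_of_one_le_left hr0.le haC
          _ = a₀ * (C * r) := by ring
      · rw [hr, div_le_iff₀ hC0]
        linarith
    have h3 : ‖p.2‖ ≤ r / 3 := by
      have : C * (3 * ‖p.2‖) ≤ C * r := by rw [hrC]; linarith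
      have := le_of_mul_le_mul_left this hC0
      linarith
    have h4 := label_est hL hM (hSt p hp) ((hreg p hp).mono hrle) h3 hr0
    refine h4.trans (le_of_eq ?_)
    rw [← hrC]
    field_simp
  · intro p hp h1 h2 h3
    obtain ⟨t, η⟩ := p
    simp only at h1 h2 h3 hp ⊢
    have hη0 := norm_nonneg η
    have him : |η.im| ≤ ‖η‖ := Complex.abs_im_le_norm η
    have hre : |η.re| ≤ ‖η‖ := Complex.abs_re_le_norm η
    rw [abs_le] at him hre
    have hp1 := hp.1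
    have hp2 := hp.2.1
    have hp3 := hp.2.2.1
    have hp4 := hp.2.2.2
    simp only at hp1 hp2 hp3 hp4
    have e1 : (t, (0:ℂ)) ∈ SReg h b l C R := SReg_zero hR hp1 (hdep _ hp) hp2
    have e2 : (t + η, η) ∈ SReg h b l C R := by
      rw [mem_SReg]
      simp only [dep, add_re, add_im] at *
      rw [abs_lt] at *
      refine ⟨?_, by linarith [him.1, him.2], by linarith [him.1, him.2], hp4⟩
      have h5 : |t.re - b| < l / 2 - ‖η‖ := by linarith
      rw [abs_lt] at h5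
      constructor <;> linarith [hre.1, hre.2, h5.1, h5.2]
    have e3 : (t - η, η) ∈ SReg h b l C R := by
      rw [mem_SReg]
      simp only [dep, sub_re, sub_im] at *
      rw [abs_lt] at *
      refine ⟨?_, by linarith [him.1, him.2], by linarith [him.1, him.2], hp4⟩
      have h5 : |t.re - b| < l / 2 - ‖η‖ := by linarith
      rw [abs_lt] at h5
      constructor <;> linarith [hre.1, hre.2, h5.1, h5.2]
    exact br_node hC0.le hL hSt hMa hMm (fun t' ht' => hML t' (hSt _ ht')) e1 hp e2 e3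

end Pool.Agent.MP_ae5b4e_an_NB2
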