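import Mathlib
import Pool.Agent.Lib.MP_ae5b4e_an_LU.DUniq

/-!
# MP_ae5b4e_an, Lemma U: the column of labels (formulas (2.24), (2.25))

The labels `lam j` belong to the points `(t - j η, η)`, `1 ≤ j ≤ N`; they are constructed upwards
from `lam N = A`, `lam (N - 1) = B`.
-/

noncomputable section

namespace Pool.Agent.MP_ae5b4e_an_NB2

open Complex Set Filter Topology Metric

/-- the position of the points of the column -/
structure ColGeo (w : ℂ) (d r : ℝ) (N : ℕ) (O : Set (ℂ × ℂ)) : Prop where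
  isOpen : IsOpen O
  r_pos : 0 < r
  three : 3 ≤ N
  small : r ≤ 0.00001 * d
  eta : ∀ p ∈ O, ‖p.2 - I * r‖ ≤ 0.0001 * r
  low : ∀ p ∈ O, ∀ j : ℕ, 1 ≤ j → j ≤ N → (j - 0.05) * r ≤ d - ‖p.1 - j * p.2 - w‖
  upp : ∀ p ∈ O, ∀ j : ℕ, 1 ≤ j → j ≤ N → d - ‖p.1 - j * p.2 - w‖ ≤ 0.00005 * d
  dir : ∀ p ∈ O, ∀ j : ℕ, 1 ≤ j → j ≤ N → ‖p.1 - j * p.2 - w - I * d‖ ≤ 0.0009 * d

/-- the labels at the bottom of the column -/
structure ColStart (w : ℂ) (r ε : ℝ) (N : ℕ) (O : Set (ℂ × ℂ)) (A B : ℂ × ℂ → ℂ) : Prop where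
  anA : AnalyticOnNhd ℂ A O
  anB : AnalyticOnNhd ℂ B O
  eps : N * ε ≤ 0.003
  eps0 : 0 ≤ ε
  estA : ∀ p ∈ O, ‖A p - (p.1 - N * p.2)‖ ≤ 0.001 * r
  estB : ∀ p ∈ O, ∃ m : ℂ, ‖m - 1‖ ≤ ε ∧ B p = A p + p.2 / m

/-- a column of labels -/
structure Col (Y : Sys) (w : ℂ) (d r : ℝ) (N : ℕ) (O : Set (ℂ × ℂ)) (A B : ℂ × ℂ → ℂ)
    (lam : ℕ → ℂ × ℂ → ℂ) : Prop where
  an : ∀ j, 1 ≤ j → j ≤ N → AnalyticOnNhd ℂ (lam j) O
  maps : ∀ j, 1 ≤ j → j ≤ N → MapsTo (lam j) O (ball w d)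
  top : EqOn (lam N) A O
  pre : EqOn (lam (N - 1)) B O
  ne : ∀ j, 1 ≤ j → j + 1 ≤ N → ∀ p ∈ O, lam (j + 1) p ≠ lam j p
  node : ∀ j, 1 ≤ j → j + 2 ≤ N → ∀ p ∈ O, Y.node (lam (j + 1) p) (lam j p) (lam (j + 2) p)

/-- agreement of a column with given labels -/
theorem Col.agree {Y : Sys} {w : ℂ} {d r : ℝ} (hU : Uni Y w d) {N : ℕ} (hN : 3 ≤ N)
    {O : Set (ℂ × ℂ)} {A B : ℂ × ℂ → ℂ} {lam : ℕ → ℂ × ℂ → ℂ} (hC : Col Y w d r N O A B lam)
    {p : ℂ × ℂ} (hp : p ∈ O) {M : ℕ → ℂ} (hA : M N = A p) (hB : M (N - 1) = B p)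
    (hM : ∀ j, 1 ≤ j → j ≤ N → M j ∈ ball w d)
    (hn : ∀ j, 1 ≤ j → j + 2 ≤ N → Y.node (M (j + 1)) (M j) (M (j + 2))) :
    ∀ j, 1 ≤ j → j ≤ N → M j = lam j p := by
  have key : ∀ k : ℕ, ∀ j, 1 ≤ j → j + 1 ≤ N → N ≤ j + 1 + k →
      M j = lam j p ∧ M (j + 1) = lam (j + 1) p := by
    intro k
    induction k with
    | zero =>
      intro j h1 h2 h3
      have e : j + 1 = N := by omega
      have e' : j = N - 1 := by omega
      refine ⟨?_, ?_⟩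
      · rw [e', hB]
        exact (hC.pre hp).symm
      · rw [e, hA]
        exact (hC.top hp).symm
    | succ k ih =>
      intro j h1 h2 h3
      by_cases h4 : N ≤ j + 1 + k
      · exact ih j h1 h2 h4
      · have h5 : j + 2 ≤ N := by omega
        obtain ⟨i1, i2⟩ := ih (j + 1) (by omega) (by omega) (by omega)
        have i2' : M (j + 2) = lam (j + 2) p := i2
        refine ⟨?_, i1⟩
        have n1 := hn j h1 h5
        rw [i1, i2'] at n1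
        have n2 := hC.node j h1 h5 p hp
        exact node_uniq hU (hC.maps (j + 1) (by omega) (by omega) hp)
          (hM j h1 (by omega)) (hC.maps j h1 (by omega) hp)
          (hC.maps (j + 2) (by omega) h5 hp)
          (hC.ne (j + 1) (by omega) (by omega) p hp) n1 n2
  intro j h1 h2
  by_cases h3 : j + 1 ≤ N
  · exact (key N j h1 h3 (by omega)).1
  · have e : j = (N - 1) + 1 := by omega
    rw [e]
    exact (key N (N - 1) (by omega) (by omega) (by omega)).2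

end Pool.Agent.MP_ae5b4e_an_NB2
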