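import Mathlib
import Pool.Agent.Lib.MP_ae5b4e_an_LU.Defs
import Pool.Agent.Lib.MP_ae5b4e_an_UT.Sigma

/-!
# MP_ae5b4e_an, Lemma U: facts on the class Sigma (from the area theorem)
-/

noncomputable section

namespace Pool.Agent.MP_ae5b4e_an_NB2

open Complex Set Filter Topology Metric
open Pool.Agent.Lib.MP_ae5b4e_an_UT (Sg)

theorem Sig.toSg {E : ℂ → ℂ} (hE : Sig E) : Sg E :=
  ⟨fun z hz => (hE.an z hz).differentiableAt.differentiableWithinAt, hE.zero, hE.inj⟩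

/-- the omitted values are in `|w| ≤ 2` -/
theorem sig_surj {E : ℂ → ℂ} (hE : Sig E) {w : ℂ} (hw : 2 < ‖w‖) :
    ∃ x ∈ ball (0:ℂ) 1, x ≠ 0 ∧ x⁻¹ + E x = w := by
  obtain ⟨x, hx, -⟩ := hE.toSg.solve hw
  exact ⟨x, hx.1.1, hx.1.2, hx.2⟩

/-- the area theorem and Cauchy-Schwarz, with `-log (1 - t) ≤ t / (1 - t)` -/
theorem sig_sq {E : ℂ → ℂ} (hE : Sig E) {x : ℂ} (hx : ‖x‖ < 1) :
    ‖E x‖ ^ 2 * (1 - ‖x‖ ^ 2) ≤ ‖x‖ ^ 2 := by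
  have h1 := hE.toSg.bound (mem_ball_zero_iff.2 hx)
  have h2 : 0 < 1 - ‖x‖ ^ 2 := by nlinarith [norm_nonneg x]
  have h3 := Real.one_sub_inv_le_log_of_pos h2
  have h4 : (1 - ‖x‖ ^ 2)⁻¹ * (1 - ‖x‖ ^ 2) = 1 := inv_mul_cancel₀ h2.ne'
  have h5 : ‖E x‖ ^ 2 ≤ (1 - ‖x‖ ^ 2)⁻¹ - 1 := by linarith
  calc ‖E x‖ ^ 2 * (1 - ‖x‖ ^ 2) ≤ ((1 - ‖x‖ ^ 2)⁻¹ - 1) * (1 - ‖x‖ ^ 2) :=
        mul_le_mul_of_nonneg_right h5 h2.le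
    _ = ‖x‖ ^ 2 := by rw [sub_mul, h4]; ring

/-- the size of the function -/
theorem sig_le {E : ℂ → ℂ} (hE : Sig E) {x : ℂ} (hx : ‖x‖ < 1) (hx0 : x ≠ 0) :
    ‖x⁻¹ + E x‖ ≤ 2 / ‖x‖ :=
  hE.toSg.growth ⟨mem_ball_zero_iff.2 hx, hx0⟩

/-- the two point estimate, in the form used for Lemma U -/
theorem sig_two {E : ℂ → ℂ} (hE : Sig E) {x y : ℂ} (hx : ‖x‖ ≤ 0.28) (hy : ‖y‖ ≤ 0.28) :
    ‖E x + E y‖ ^ 2 ≤ ‖x + y‖ ^ 2 + 0.55 * (‖x‖ ^ 2 + ‖y‖ ^ 2) ^ 2 := by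
  have hx1 : x ∈ ball (0:ℂ) 1 := mem_ball_zero_iff.2 (by linarith)
  have hy1 : y ∈ ball (0:ℂ) 1 := mem_ball_zero_iff.2 (by linarith)
  obtain ⟨hs, ht⟩ := hE.toSg.two hx1 hy1
  refine ht.trans ?_
  rw [hs.tsum_eq_zero_add]
  have e0 : ‖x ^ (0 + 1) + y ^ (0 + 1)‖ ^ 2 / (((0 : ℕ) : ℝ) + 1) = ‖x + y‖ ^ 2 := by simp
  rw [e0]
  refine add_le_add le_rfl ?_
  set Z : ℝ := ‖x‖ ^ 2 + ‖y‖ ^ 2 with hZ
  have hZ0 : 0 ≤ Z := by positivity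
  have hterm : ∀ k : ℕ, ‖x ^ (k + 1 + 1) + y ^ (k + 1 + 1)‖ ^ 2 / (((k + 1 : ℕ) : ℝ) + 1) ≤
      Z ^ 2 * (1 / 2) * (0.0784 : ℝ) ^ k := by
    intro k
    have h1 : ‖x ^ (k + 1 + 1) + y ^ (k + 1 + 1)‖ ≤ Z * 0.28 ^ k := by
      refine (norm_add_le _ _).trans ?_
      rw [norm_pow, norm_pow, hZ, add_mul]
      refine add_le_add ?_ ?_
      · rw [show k + 1 + 1 = 2 + k by ring, pow_add]
        exact mul_le_mul_of_nonneg_left (pow_le_pow_left₀ (norm_nonneg x) hx k) (by positivity)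
      · rw [show k + 1 + 1 = 2 + k by ring, pow_add]
        exact mul_le_mul_of_nonneg_left (pow_le_pow_left₀ (norm_nonneg y) hy k) (by positivity)
    have h2 : ‖x ^ (k + 1 + 1) + y ^ (k + 1 + 1)‖ ^ 2 ≤ Z ^ 2 * (0.0784 : ℝ) ^ k := by
      calc ‖x ^ (k + 1 + 1) + y ^ (k + 1 + 1)‖ ^ 2 ≤ (Z * 0.28 ^ k) ^ 2 :=
            pow_le_pow_left₀ (norm_nonneg _) h1 2
        _ = Z ^ 2 * (0.0784 : ℝ) ^ k := by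
            rw [mul_pow, ← pow_mul, mul_comm k 2, pow_mul]
            norm_num
    have h3 : (2 : ℝ) ≤ ((k + 1 : ℕ) : ℝ) + 1 := by
      push_cast
      have : (0 : ℝ) ≤ k := Nat.cast_nonneg k
      linarith
    calc ‖x ^ (k + 1 + 1) + y ^ (k + 1 + 1)‖ ^ 2 / (((k + 1 : ℕ) : ℝ) + 1)
        ≤ (Z ^ 2 * (0.0784 : ℝ) ^ k) / 2 := div_le_div₀ (by positivity) h2 (by norm_num) h3
      _ = Z ^ 2 * (1 / 2) * (0.0784 : ℝ) ^ k := by ring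
  have hg : HasSum (fun k : ℕ => Z ^ 2 * (1 / 2) * (0.0784 : ℝ) ^ k)
      (Z ^ 2 * (1 / 2) * (1 - 0.0784)⁻¹) :=
    (hasSum_geometric_of_lt_one (by norm_num) (by norm_num)).mul_left _
  have hs' : Summable fun k : ℕ =>
      ‖x ^ (k + 1 + 1) + y ^ (k + 1 + 1)‖ ^ 2 / (((k + 1 : ℕ) : ℝ) + 1) :=
    (summable_nat_add_iff 1).2 hs
  calc ∑' k : ℕ, ‖x ^ (k + 1 + 1) + y ^ (k + 1 + 1)‖ ^ 2 / (((k + 1 : ℕ) : ℝ) + 1)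
      ≤ Z ^ 2 * (1 / 2) * (1 - 0.0784)⁻¹ := by
        rw [← hg.tsum_eq]
        exact hs'.tsum_le_tsum hterm hg.summable
    _ ≤ 0.55 * Z ^ 2 := by
        have : (1 / 2 : ℝ) * (1 - 0.0784)⁻¹ ≤ 0.55 := by norm_num
        nlinarith [sq_nonneg Z]

end Pool.Agent.MP_ae5b4e_an_NB2
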