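import Mathlib
import Pool.Agent.Lib.MP_ae5b4e_an_LU.SigFacts

/-!
# MP_ae5b4e_an, Lemma U: the node estimate in the class Sigma (formula (2.25))
-/

noncomputable section

namespace Pool.Agent.MP_ae5b4e_an_NB2

open Complex Set Filter Topology Metric

/-- the area bound in the coordinate `ζ` -/
private lemma sn_area {E : ℂ → ℂ} (hE : Sig E) {ζ : ℂ} (hζ : 1 < ‖ζ‖) :
    ‖E ζ⁻¹‖ ^ 2 * (‖ζ‖ ^ 2 - 1) ≤ 1 := by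
  have hz : 0 < ‖ζ‖ := by linarith
  have h1 : ‖ζ⁻¹‖ < 1 := by
    rw [norm_inv]
    exact inv_lt_one_of_one_lt₀ hζ
  have h2 := sig_sq hE h1
  rw [norm_inv] at h2
  have h3 := mul_le_mul_of_nonneg_right h2 (sq_nonneg ‖ζ‖)
  have h4 : ‖ζ‖⁻¹ ^ 2 * ‖ζ‖ ^ 2 = 1 := by
    rw [← mul_pow, inv_mul_cancel₀ hz.ne', one_pow]
  calc ‖E ζ⁻¹‖ ^ 2 * (‖ζ‖ ^ 2 - 1) = ‖E ζ⁻¹‖ ^ 2 * (‖ζ‖ ^ 2 - ‖ζ‖⁻¹ ^ 2 * ‖ζ‖ ^ 2) := by rw [h4]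
    _ = ‖E ζ⁻¹‖ ^ 2 * (1 - ‖ζ‖⁻¹ ^ 2) * ‖ζ‖ ^ 2 := by ring
    _ ≤ ‖ζ‖⁻¹ ^ 2 * ‖ζ‖ ^ 2 := h3
    _ = 1 := h4

/-- the bound in the form used -/
private lemma sn_le {E : ℂ → ℂ} (hE : Sig E) {ζ : ℂ} {b m : ℝ} (hb : 1 ≤ b) (hζ1 : 1 < ‖ζ‖)
    (hζ : b ≤ ‖ζ‖) (hm : 0 ≤ m) (h : 1 ≤ m ^ 2 * (b ^ 2 - 1)) : ‖E ζ⁻¹‖ ≤ m := by
  have h1 := sn_area hE hζ1
  by_contra hcon
  push Not at hcon
  have hpos : 0 < b ^ 2 - 1 := by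
    by_contra h0
    have : m ^ 2 * (b ^ 2 - 1) ≤ 0 := mul_nonpos_of_nonneg_of_nonpos (sq_nonneg m) (by linarith)
    linarith
  have h2 : m ^ 2 < ‖E ζ⁻¹‖ ^ 2 := pow_lt_pow_left₀ hcon hm (by norm_num)
  have h3 : b ^ 2 - 1 ≤ ‖ζ‖ ^ 2 - 1 := by
    have := pow_le_pow_left₀ (by linarith) hζ 2
    linarith
  have h4 : m ^ 2 * (b ^ 2 - 1) < ‖E ζ⁻¹‖ ^ 2 * (b ^ 2 - 1) := mul_lt_mul_of_pos_right h2 hpos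
  have h5 : ‖E ζ⁻¹‖ ^ 2 * (b ^ 2 - 1) ≤ ‖E ζ⁻¹‖ ^ 2 * (‖ζ‖ ^ 2 - 1) :=
    mul_le_mul_of_nonneg_left h3 (sq_nonneg _)
  linarith

private lemma sn_zm {c : ℝ} (hc0 : 0.999 ≤ c) {P : ℂ} {p : ℝ} (hp : p = ‖P‖) (hp3 : 3 ≤ p)
    (hre : 0.997 * ‖P‖ ≤ P.re) : p + 0.98 ≤ ‖(c:ℂ) + P‖ := by
  have h1 : ‖(c:ℂ) + P‖ ^ 2 = c ^ 2 + 2 * c * P.re + p ^ 2 := by
    rw [hp, ← Complex.normSq_eq_norm_sq, ← Complex.normSq_eq_norm_sq, Complex.normSq_apply,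
      Complex.normSq_apply]
    simp
    ring
  rw [← hp] at hre
  have h2 : (p + 0.98) ^ 2 ≤ ‖(c:ℂ) + P‖ ^ 2 := by
    rw [h1]
    nlinarith [mul_nonneg (sub_nonneg.2 hc0) (by linarith : (0:ℝ) ≤ P.re)]
  exact le_of_sq_le_sq h2 (norm_nonneg _)

/-- the target of the upper neighbour -/
private lemma sn_target {c : ℝ} (hc0 : 0.999 ≤ c) (hc1 : c ≤ 1) {P e : ℂ} {m : ℝ}
    (he : ‖e‖ ≤ m) : ‖P‖ - 1 - m ≤ ‖2 * (c:ℂ) - (((c:ℂ) + P) + e)‖ := by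
  have h1 : 2 * (c:ℂ) - (((c:ℂ) + P) + e) = -(P - ((c:ℂ) - e)) := by ring
  rw [h1, norm_neg]
  have h2 := norm_sub_norm_le P ((c:ℂ) - e)
  have h3 : ‖(c:ℂ) - e‖ ≤ 1 + m := by
    refine (norm_sub_le _ _).trans (add_le_add ?_ he)
    rw [Complex.norm_real, Real.norm_eq_abs, abs_of_nonneg (by linarith)]
    exact hc1
  linarith

/-- the node estimate -/
theorem sig_step {E : ℂ → ℂ} (hE : Sig E) {c : ℝ} (hc0 : 0.999 ≤ c) (hc1 : c ≤ 1) {P : ℂ}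
    (hP : 5.2 ≤ ‖P‖) (hre : 0.997 * ‖P‖ ≤ P.re) :
    1 < ‖(c:ℂ) + P‖ ∧ ∃ ζ : ℂ, 1 < ‖ζ‖ ∧
      (ζ + E ζ⁻¹) + (((c:ℂ) + P) + E ((c:ℂ) + P)⁻¹) = 2 * c ∧
      ‖ζ - ((c:ℂ) - P)‖ ≤ 3.6 / ‖P‖ ^ 2 := by
  obtain ⟨p, hp⟩ : ∃ p : ℝ, p = ‖P‖ := ⟨_, rfl⟩
  rw [← hp] at hP
  have ha := sn_zm hc0 hp (by linarith) hre
  set zm : ℂ := (c:ℂ) + P with hzm
  have ha1 : 1 < ‖zm‖ := by linarith
  refine ⟨ha1, ?_⟩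
  have hEm : ‖E zm⁻¹‖ ≤ 0.165 := sn_le hE (b := 6.18) (by norm_num) ha1 (by linarith)
    (by norm_num) (by norm_num)
  obtain ⟨T, hT⟩ : ∃ T : ℂ, T = 2 * (c:ℂ) - (zm + E zm⁻¹) := ⟨_, rfl⟩
  have hTn : p - 1 - 0.165 ≤ ‖T‖ := by
    rw [hT, hp, hzm]
    exact sn_target hc0 hc1 hEm
  obtain ⟨x, hx1, hx0, hx⟩ := sig_surj hE (w := T) (by linarith)
  rw [mem_ball_zero_iff] at hx1
  have hxp : 0 < ‖x‖ := norm_pos_iff.2 hx0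
  obtain ⟨ζ, hζ⟩ : ∃ ζ : ℂ, ζ = x⁻¹ := ⟨_, rfl⟩
  have hζx : ζ⁻¹ = x := by rw [hζ, inv_inv]
  have hζn : ‖ζ‖ = ‖x‖⁻¹ := by rw [hζ, norm_inv]
  have hζ1 : 1 < ‖ζ‖ := by
    rw [hζn]
    exact (one_lt_inv₀ hxp).2 hx1
  have hx' : ζ + E ζ⁻¹ = T := by rw [hζx, hζ]; exact hx
  have hz1 : ‖T‖ / 2 ≤ ‖ζ‖ := by
    have h1 := sig_le hE hx1 hx0
    rw [hx] at h1
    rw [hζn]
    have h2 : 2 / ‖x‖ = 2 * ‖x‖⁻¹ := by ring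
    linarith
  have hzT : ∀ m : ℝ, ‖E ζ⁻¹‖ ≤ m → ‖T‖ - m ≤ ‖ζ‖ := by
    intro m hm
    have h1 : ζ = T - E ζ⁻¹ := by rw [← hx']; ring
    have h2 := norm_sub_norm_le T (E ζ⁻¹)
    rw [← h1] at h2
    linarith
  have hE1 : ‖E ζ⁻¹‖ ≤ 0.572 := sn_le hE (b := 2.0175) (by norm_num) hζ1 (by linarith)
    (by norm_num) (by norm_num)
  have hz2 := hzT _ hE1
  have hE2 : ‖E ζ⁻¹‖ ≤ 0.302 := sn_le hE (b := 3.463) (by norm_num) hζ1 (by linarith)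
    (by norm_num) (by norm_num)
  have hz3 := hzT _ hE2
  have hE3 : ‖E ζ⁻¹‖ ≤ 0.279 := sn_le hE (b := 3.733) (by norm_num) hζ1 (by linarith)
    (by norm_num) (by norm_num)
  obtain ⟨X, hX⟩ : ∃ X : ℂ, X = E ζ⁻¹ + E zm⁻¹ := ⟨_, rfl⟩
  have hXn : ‖X‖ ≤ 0.45 := by
    rw [hX]
    refine (norm_add_le _ _).trans ?_
    linarith
  have hζX : ζ - ((c:ℂ) - P) = -X := by
    have h1 : ζ = T - E ζ⁻¹ := by rw [← hx']; ring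
    rw [h1, hT, hX, hzm]
    ring
  refine ⟨ζ, hζ1, by rw [hx', hT]; ring, ?_⟩
  rw [hζX, norm_neg, ← hp]
  have hcn : ‖(c:ℂ)‖ ≤ 1 := by
    rw [Complex.norm_real, Real.norm_eq_abs, abs_of_nonneg (by linarith)]
    exact hc1
  have hz4 : p - 1.45 ≤ ‖ζ‖ := by
    have h1 : ζ = -(P - ((c:ℂ) - X)) := by
      have : ζ = ((c:ℂ) - P) + -X := by rw [← hζX]; ring
      rw [this]
      ring
    rw [h1, norm_neg, hp]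
    have h2 := norm_sub_norm_le P ((c:ℂ) - X)
    have h3 : ‖(c:ℂ) - X‖ ≤ 1 + 0.45 := (norm_sub_le _ _).trans (add_le_add hcn hXn)
    linarith
  -- the two point estimate
  obtain ⟨u, hu⟩ : ∃ u : ℝ, u = ‖ζ‖⁻¹ := ⟨_, rfl⟩
  obtain ⟨v, hv⟩ : ∃ v : ℝ, v = ‖zm‖⁻¹ := ⟨_, rfl⟩
  have hζp : 0 < ‖ζ‖ := by linarith
  have hzp : 0 < ‖zm‖ := by linarith
  have hu0 : 0 < u := by rw [hu]; exact inv_pos.2 hζp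
  have hv0 : 0 < v := by rw [hv]; exact inv_pos.2 hzp
  have hu1 : u * (p - 1.45) ≤ 1 := by
    calc u * (p - 1.45) ≤ u * ‖ζ‖ := mul_le_mul_of_nonneg_left hz4 hu0.le
      _ = 1 := by rw [hu, inv_mul_cancel₀ hζp.ne']
  have hv1 : v * (p + 0.98) ≤ 1 := by
    calc v * (p + 0.98) ≤ v * ‖zm‖ := mul_le_mul_of_nonneg_left ha hv0.le
      _ = 1 := by rw [hv, inv_mul_cancel₀ hzp.ne']
  have hu2 : u ≤ 0.28 := by nlinarith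
  have hu3 : u ≤ 1 / 3.75 := by
    rw [le_div_iff₀ (by norm_num)]
    nlinarith
  have hv2 : v ≤ 0.28 := by nlinarith
  have hxu : ‖ζ⁻¹‖ = u := by rw [norm_inv, hu]
  have hyv : ‖zm⁻¹‖ = v := by rw [norm_inv, hv]
  have h2 := sig_two hE (x := ζ⁻¹) (y := zm⁻¹) (by rw [hxu]; exact hu2) (by rw [hyv]; exact hv2)
  rw [← hX, hxu, hyv] at h2
  have hζ0 : ζ ≠ 0 := norm_pos_iff.1 hζp
  have hzm0 : zm ≠ 0 := norm_pos_iff.1 hzp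
  have h3 : ‖ζ⁻¹ + zm⁻¹‖ ≤ 2.45 * (u * v) := by
    have e1 : ζ⁻¹ + zm⁻¹ = (ζ + zm) * (ζ⁻¹ * zm⁻¹) := by
      field_simp
      ring
    have e2 : ζ + zm = 2 * (c:ℂ) - X := by
      have : ζ = ((c:ℂ) - P) + -X := by rw [← hζX]; ring
      rw [this, hzm]
      ring
    rw [e1, e2, norm_mul, norm_mul, hxu, hyv]
    refine mul_le_mul_of_nonneg_right ?_ (by positivity)
    refine (norm_sub_le _ _).trans ?_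
    rw [norm_mul]
    have : ‖(2:ℂ)‖ = 2 := by norm_num
    rw [this]
    linarith
  have h4 : ‖ζ⁻¹ + zm⁻¹‖ ^ 2 ≤ (2.45 * (u * v)) ^ 2 := pow_le_pow_left₀ (norm_nonneg _) h3 2
  have hp0 : 0 < p := by linarith
  -- bounds for `u p`, `v p`
  have k1 : u * p ≤ 1.3867 := by
    have : u * p = u * (p - 1.45) + 1.45 * u := by ring
    rw [this]
    have := mul_le_mul_of_nonneg_left hu3 (by norm_num : (0:ℝ) ≤ 1.45)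
    norm_num at this ⊢
    linarith
  have k2 : v * p ≤ 1 := by nlinarith
  have k3 : 0.8569 * (u * v * p ^ 2) ≤ 1 := by
    have e1 : (u * (p - 1.45)) * (v * (p + 0.98)) ≤ 1 * 1 :=
      mul_le_mul hu1 hv1 (by positivity) zero_le_one
    have e2 : 0.8569 * p ^ 2 ≤ (p - 1.45) * (p + 0.98) := by nlinarith
    have e3 := mul_le_mul_of_nonneg_left e2 (mul_pos hu0 hv0).le
    nlinarith
  have k4 : u * v * p ^ 2 ≤ 1.1671 := by nlinarith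
  have hup : 0 ≤ u * p := by positivity
  have hvp : 0 ≤ v * p := by positivity
  have huv : 0 ≤ u * v * p ^ 2 := by positivity
  have k5 : (‖X‖ * p ^ 2) ^ 2 ≤ 3.6 ^ 2 := by
    have e1 : (‖X‖ * p ^ 2) ^ 2 = ‖X‖ ^ 2 * p ^ 4 := by ring
    have e2 : ‖X‖ ^ 2 * p ^ 4 ≤ ((2.45 * (u * v)) ^ 2 + 0.55 * (u ^ 2 + v ^ 2) ^ 2) * p ^ 4 :=
      mul_le_mul_of_nonneg_right (h2.trans (add_le_add h4 le_rfl)) (by positivity)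
    have e3 : ((2.45 * (u * v)) ^ 2 + 0.55 * (u ^ 2 + v ^ 2) ^ 2) * p ^ 4 =
        2.45 ^ 2 * (u * v * p ^ 2) ^ 2 + 0.55 * ((u * p) ^ 2 + (v * p) ^ 2) ^ 2 := by ring
    have e4 : (u * v * p ^ 2) ^ 2 ≤ 1.1671 ^ 2 := pow_le_pow_left₀ huv k4 2
    have e5 : (u * p) ^ 2 ≤ 1.3867 ^ 2 := pow_le_pow_left₀ hup k1 2
    have e6 : (v * p) ^ 2 ≤ 1 ^ 2 := pow_le_pow_left₀ hvp k2 2
    have e7 : ((u * p) ^ 2 + (v * p) ^ 2) ^ 2 ≤ (1.3867 ^ 2 + 1 ^ 2) ^ 2 :=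
      pow_le_pow_left₀ (by positivity) (add_le_add e5 e6) 2
    rw [e1]
    refine (e2.trans_eq e3).trans ?_
    norm_num at e4 e7 ⊢
    linarith
  have k6 : ‖X‖ * p ^ 2 ≤ 3.6 := by
    exact le_of_sq_le_sq k5 (by norm_num)
  rw [le_div_iff₀ (by positivity)]
  exact k6

/-- the last node -/
theorem sig_last {E : ℂ → ℂ} (hE : Sig E) {c : ℝ} (hc0 : 0.999 ≤ c) (hc1 : c ≤ 1) {P : ℂ}
    (hP : 3.34 ≤ ‖P‖) (hre : 0.997 * ‖P‖ ≤ P.re) :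
    1 < ‖(c:ℂ) + P‖ ∧ ∃ ζ : ℂ, 1 < ‖ζ‖ ∧
      (ζ + E ζ⁻¹) + (((c:ℂ) + P) + E ((c:ℂ) + P)⁻¹) = 2 * c := by
  obtain ⟨p, hp⟩ : ∃ p : ℝ, p = ‖P‖ := ⟨_, rfl⟩
  rw [← hp] at hP
  have ha := sn_zm hc0 hp (by linarith) hre
  set zm : ℂ := (c:ℂ) + P with hzm
  have ha1 : 1 < ‖zm‖ := by linarith
  refine ⟨ha1, ?_⟩
  have hEm : ‖E zm⁻¹‖ ≤ 0.239 := sn_le hE (b := 4.32) (by norm_num) ha1 (by linarith)
    (by norm_num) (by norm_num)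
  obtain ⟨T, hT⟩ : ∃ T : ℂ, T = 2 * (c:ℂ) - (zm + E zm⁻¹) := ⟨_, rfl⟩
  have hTn : p - 1 - 0.239 ≤ ‖T‖ := by
    rw [hT, hp, hzm]
    exact sn_target hc0 hc1 hEm
  obtain ⟨x, hx1, hx0, hx⟩ := sig_surj hE (w := T) (by linarith)
  rw [mem_ball_zero_iff] at hx1
  have hxp : 0 < ‖x‖ := norm_pos_iff.2 hx0
  refine ⟨x⁻¹, ?_, ?_⟩
  · rw [norm_inv]
    exact (one_lt_inv₀ hxp).2 hx1
  · rw [inv_inv, hx, hT]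
    ring

end Pool.Agent.MP_ae5b4e_an_NB2
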