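import Mathlib
import Pool.Agent.Lib.MP_ae5b4e_an_LL.Ode
import Pool.Agent.Lib.MP_ae5b4e_an_LU.DUniq

/-!
# MP_ae5b4e_an, Lemma U: from a disc on which the limit curve is univalent to the class Sigma
-/

noncomputable section

namespace Pool.Agent.MP_ae5b4e_an_NB2

open Complex Set Filter Topology Metric

private lemma tr_den {c : ℝ} (hc0 : 0 ≤ c) (hc1 : c < 1) {x : ℂ} (hx : ‖x‖ < 1) :
    (1:ℂ) - c * x ≠ 0 := by
  intro h
  have h1 : (1:ℂ) = c * x := sub_eq_zero.1 h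
  have h2 : (1:ℝ) = c * ‖x‖ := by
    have := congrArg norm h1
    rwa [norm_one, norm_mul, Complex.norm_real, Real.norm_eq_abs, abs_of_nonneg hc0] at this
  nlinarith [norm_nonneg x]

/-- the disc automorphism -/
theorem phi_mem {w e : ℂ} {d c : ℝ} (hd : 0 < d) (he : ‖e‖ = 1) (hc0 : 0 ≤ c) (hc1 : c < 1)
    {x : ℂ} (hx : ‖x‖ < 1) : phi w e d c x ∈ ball w d := by
  have h0 := tr_den hc0 hc1 hx
  have h1 : ‖((c:ℂ) - x) / (1 - c * x)‖ < 1 := by
    rw [norm_div, div_lt_one (norm_pos_iff.2 h0)]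
    have h2 : ‖(c:ℂ) - x‖ ^ 2 < ‖(1:ℂ) - c * x‖ ^ 2 := by
      have hx2 : ‖x‖ ^ 2 < 1 := by nlinarith [norm_nonneg x]
      rw [← Complex.normSq_eq_norm_sq, Complex.normSq_apply] at hx2
      rw [← Complex.normSq_eq_norm_sq, ← Complex.normSq_eq_norm_sq, Complex.normSq_apply,
        Complex.normSq_apply]
      simp only [sub_re, ofReal_re, sub_im, ofReal_im, one_re, mul_re, one_im, mul_im]
      have hc2 : 0 < 1 - c ^ 2 := by nlinarith
      nlinarith [mul_pos hc2 (sub_pos.2 hx2)]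
    exact lt_of_pow_lt_pow_left₀ 2 (norm_nonneg _) h2
  unfold phi
  rw [mem_ball, dist_eq_norm, add_sub_cancel_left, norm_mul, norm_mul, he, one_mul,
    Complex.norm_real, Real.norm_eq_abs, abs_of_pos hd]
  calc d * _ < d * 1 := mul_lt_mul_of_pos_left h1 hd
    _ = d := mul_one d

/-- every point of the disc is a value of the disc automorphism; `ζ = 1 / x` -/
theorem phi_inv {w e l : ℂ} {d c : ℝ} (hc0 : 0 ≤ c) (hc1 : c < 1)
    (hl : l = w + d * (e * c)) {ζ : ℂ} (hζ : 1 < ‖ζ‖) :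
    phi w e d c ζ⁻¹ = l - e * (d * (1 - c ^ 2)) / (ζ - c) := by
  have hζ0 : ζ ≠ 0 := norm_pos_iff.1 (by linarith)
  have hζc : ζ - c ≠ 0 := by
    intro h
    have h1 : ζ = c := sub_eq_zero.1 h
    rw [h1, Complex.norm_real, Real.norm_eq_abs, abs_of_nonneg hc0] at hζ
    linarith
  have h2 : (1:ℂ) - c * ζ⁻¹ ≠ 0 := by
    have : (1:ℂ) - c * ζ⁻¹ = (ζ - c) / ζ := by field_simp
    rw [this]
    exact div_ne_zero hζc hζ0
  unfold phi
  rw [hl]
  have h3 : ((c:ℂ) - ζ⁻¹) / (1 - c * ζ⁻¹) = (c * ζ - 1) / (ζ - c) := by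
    rw [div_eq_div_iff h2 hζc]
    field_simp
  rw [h3]
  field_simp
  ring

/-- the value of the disc automorphism in terms of `x` -/
private lemma phi_sub {w e l : ℂ} {d c : ℝ} (hc0 : 0 ≤ c) (hc1 : c < 1)
    (hl : l = w + d * (e * c)) {x : ℂ} (hx : ‖x‖ < 1) :
    phi w e d c x - l = -(e * (d * (1 - c ^ 2)) * x / (1 - c * x)) := by
  have h2 := tr_den hc0 hc1 hx
  unfold phi
  rw [hl]
  field_simp
  ring

/-- **the transfer to the class Sigma** -/
theorem sig_of_uni {Y : Sys} {w e l : ℂ} {d c : ℝ} (hU : Uni Y w d) (he : ‖e‖ = 1) (hc0 : 0 ≤ c)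
    (hc1 : c < 1) (hl : l = w + d * (e * c)) :
    ∃ E : ℂ → ℂ, Sig E ∧ ∀ x ∈ ball (0:ℂ) 1, x ≠ 0 → Y.s (phi w e d c x) l ≠ 0 ∧
      x⁻¹ + E x =
        c - e * (d * (1 - c ^ 2)) * (Y.c (phi w e d c x) l / Y.s (phi w e d c x) l) := by
  classical
  have hd := hU.pos
  set φ : ℂ → ℂ := phi w e d c with hφ
  set K : ℂ := e * (d * (1 - (c:ℂ) ^ 2)) with hK
  have he0 : e ≠ 0 := by
    rintro rfl
    simp at he
  have hd0 : (d:ℂ) ≠ 0 := by exact_mod_cast hd.ne'
  have hc2 : (1:ℂ) - (c:ℂ) ^ 2 ≠ 0 := by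
    have : (1:ℝ) - c ^ 2 ≠ 0 := by nlinarith
    exact_mod_cast this
  have hK0 : K ≠ 0 := mul_ne_zero he0 (mul_ne_zero hd0 hc2)
  have hφB : ∀ x ∈ ball (0:ℂ) 1, φ x ∈ ball w d := fun x hx =>
    phi_mem hd he hc0 hc1 (mem_ball_zero_iff.1 hx)
  have hφl : ∀ x ∈ ball (0:ℂ) 1, φ x - l = -(K * x / (1 - c * x)) := fun x hx =>
    phi_sub hc0 hc1 hl (mem_ball_zero_iff.1 hx)
  have hden : ∀ x ∈ ball (0:ℂ) 1, (1:ℂ) - c * x ≠ 0 := fun x hx =>
    tr_den hc0 hc1 (mem_ball_zero_iff.1 hx)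
  have hlB : l ∈ ball w d := by
    have h1 := hφB 0 (mem_ball_self one_pos)
    have h2 := hφl 0 (mem_ball_self one_pos)
    rw [mul_zero, zero_div, neg_zero, sub_eq_zero] at h2
    rwa [h2] at h1
  have hφne : ∀ x ∈ ball (0:ℂ) 1, x ≠ 0 → φ x ≠ l := by
    intro x hx hx0 h
    have h1 := hφl x hx
    rw [h, sub_self] at h1
    have h2 : K * x / (1 - c * x) ≠ 0 := div_ne_zero (mul_ne_zero hK0 hx0) (hden x hx)
    exact h2 (neg_eq_zero.1 h1.symm)
  have hs : ∀ x ∈ ball (0:ℂ) 1, x ≠ 0 → Y.s (φ x) l ≠ 0 := fun x hx hx0 h =>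
    hφne x hx hx0 (hU.inj _ (hφB x hx) l hlB h)
  have hφinj : InjOn φ (ball (0:ℂ) 1) := by
    intro x hx y hy hxy
    have h1 := hφl x hx
    have h2 := hφl y hy
    rw [hxy] at h1
    rw [h1] at h2
    have h3 : K * x / (1 - c * x) = K * y / (1 - c * y) := by linear_combination -h2
    rw [div_eq_div_iff (hden x hx) (hden y hy)] at h3
    have h4 : K * (x - y) = 0 := by linear_combination h3
    exact sub_eq_zero.1 ((mul_eq_zero.1 h4).resolve_left hK0)
  -- the function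
  set k : ℂ → ℂ := fun x => c - K * (Y.c (φ x) l / Y.s (φ x) l) with hk
  set E : ℂ → ℂ := fun x => if x = 0 then 0 else k x - x⁻¹ with hE
  have hEx : ∀ x, x ≠ 0 → E x = k x - x⁻¹ := fun x hx => if_neg hx
  -- the local expansion at `l`
  set g : ℂ → ℂ := fun u => (u - l) * Y.c u l - Y.s u l with hg
  set C' : ℂ → ℂ := fun u => Y.y2' l * Y.y1' u - Y.y1' l * Y.y2' u with hC'
  set S' : ℂ → ℂ := fun u => Y.y1 l * Y.y2' u - Y.y2 l * Y.y1' u with hS'
  have hCd : ∀ u ∈ ball w d, HasDerivAt (fun u => Y.c u l) (C' u) u := fun u hu =>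
    ((hU.on.d1 u hu).const_mul _).sub ((hU.on.d2 u hu).const_mul _)
  have hSd : ∀ u ∈ ball w d, HasDerivAt (fun u => Y.s u l) (S' u) u := fun u hu =>
    ((hU.on.d2 u hu).const_mul _).sub ((hU.on.d1 u hu).const_mul _)
  have hwl := hU.on.wr l hlB
  have hSl : Y.s l l = 0 := by simp only [Sys.s]; ring
  have hCl : Y.c l l = 1 := by simp only [Sys.c]; linear_combination hwl
  have hC'l : C' l = 0 := by simp only [hC']; ring
  have hS'l : S' l = 1 := by simp only [hS']; linear_combination hwl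
  have hC'a : ∀ u ∈ ball w d, AnalyticAt ℂ C' u := fun u hu => by
    obtain ⟨-, h1, -, h2⟩ := Sys.On.an isOpen_ball hU.on hu
    exact (analyticAt_const.mul h1).sub (analyticAt_const.mul h2)
  have hS'a : ∀ u ∈ ball w d, AnalyticAt ℂ S' u := fun u hu => by
    obtain ⟨-, h1, -, h2⟩ := Sys.On.an isOpen_ball hU.on hu
    exact (analyticAt_const.mul h2).sub (analyticAt_const.mul h1)
  have hS'd : HasDerivAt S' 0 l := by
    have h1 := ((hU.on.d2' l hlB).const_mul (Y.y1 l)).sub ((hU.on.d1' l hlB).const_mul (Y.y2 l))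
    have h2 : Y.y1 l * -(Y.Q l * Y.y2 l) - Y.y2 l * -(Y.Q l * Y.y1 l) = 0 := by ring
    rw [h2] at h1
    exact h1
  set g' : ℂ → ℂ := fun u => Y.c u l + (u - l) * C' u - S' u with hg'
  have hgd : ∀ u ∈ ball w d, HasDerivAt g (g' u) u := by
    intro u hu
    have h1 := (((hasDerivAt_id u).sub_const l).mul (hCd u hu)).sub (hSd u hu)
    have h2 : g' u = 1 * Y.c u l + (u - l) * C' u - S' u := by
      show Y.c u l + (u - l) * C' u - S' u = 1 * Y.c u l + (u - l) * C' u - S' u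
      ring
    rw [h2]
    exact h1
  set g'' : ℂ → ℂ := fun u => C' u + (1 * C' u + (u - l) * deriv C' u) - deriv S' u with hg''
  have hgd' : ∀ u ∈ ball w d, HasDerivAt g' (g'' u) u := by
    intro u hu
    exact ((hCd u hu).add (((hasDerivAt_id u).sub_const l).mul
      (hC'a u hu).differentiableAt.hasDerivAt)).sub (hS'a u hu).differentiableAt.hasDerivAt
  have hg''l : g'' l = 0 := by
    show C' l + (1 * C' l + (l - l) * deriv C' l) - deriv S' l = 0
    rw [hC'l, hS'd.deriv]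
    ring
  have hg''a : AnalyticAt ℂ g'' l := by
    have h1 := hC'a l hlB
    exact (h1.add ((analyticAt_const.mul h1).add ((analyticAt_id.sub analyticAt_const).mul
      h1.deriv))).sub (hS'a l hlB).deriv
  obtain ⟨A, hA0, δ, hδ, hδB, hgA, hSA⟩ : ∃ A : ℝ, 0 ≤ A ∧ ∃ δ > 0, ball l δ ⊆ ball w d ∧
      (∀ u ∈ ball l δ, ‖g'' u‖ ≤ A * ‖u - l‖ ^ 1) ∧
      ∀ u ∈ ball l δ, ‖u - l‖ / 2 ≤ ‖Y.s u l‖ := by
    have h1 := hg''a.differentiableAt.isBigO_sub
    obtain ⟨A, hA, h1⟩ := h1.exists_nonneg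
    have h2 : ∀ᶠ u in 𝓝 l, ‖u - l‖ / 2 ≤ ‖Y.s u l‖ := by
      have h3 := (hSd l hlB).isLittleO
      rw [hS'l, hSl] at h3
      have h4 := h3.def (c := 1 / 2) (by norm_num)
      filter_upwards [h4] with u hu
      simp only [sub_zero, smul_eq_mul, mul_one] at hu
      have h5 : ‖u - l‖ ≤ ‖Y.s u l‖ + ‖Y.s u l - (u - l)‖ := by
        have := norm_sub_le (Y.s u l) (Y.s u l - (u - l))
        rwa [sub_sub_cancel] at this
      linarith
    obtain ⟨δ, hδ, h3⟩ := Metric.eventually_nhds_iff_ball.1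
      ((h1.bound.and h2).and (isOpen_ball.mem_nhds hlB))
    refine ⟨A, hA, δ, hδ, fun u hu => (h3 u hu).2, fun u hu => ?_, fun u hu => (h3 u hu).1.2⟩
    have := (h3 u hu).1.1
    rw [hg''l, sub_zero] at this
    rwa [pow_one]
  have hgl : g l = 0 := by simp only [hg, sub_self, zero_mul, hSl]
  have hg'l : g' l = 0 := by simp only [hg', hCl, hS'l, sub_self, zero_mul, add_zero]
  have hgb : ∀ u ∈ ball l δ, ‖g u‖ ≤ A * ‖u - l‖ ^ 3 := by
    intro u hu
    have h1 := Pool.Agent.Lib.MP_ae5b4e_an_LL.norm_le_of_deriv2_pow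
      (fun z hz => hgd z (hδB hz)) (fun z hz => hgd' z (hδB hz)) hgl hg'l hgA u hu
    refine h1.trans ?_
    have h2 : 0 ≤ A * ‖u - l‖ ^ 3 := by positivity
    have h3 : A * ‖u - l‖ ^ (1 + 2) / ((((1:ℕ):ℝ) + 1) * (((1:ℕ):ℝ) + 2)) =
        A * ‖u - l‖ ^ 3 / 6 := by norm_num
    rw [h3]
    linarith
  have hφc : ContinuousAt φ 0 := by
    rw [hφ]
    unfold phi
    have : (1:ℂ) - c * 0 ≠ 0 := by simp
    exact (by fun_prop (disch := exact this) : ContinuousAt
      (fun x : ℂ => w + d * (e * (((c:ℂ) - x) / (1 - c * x)))) 0)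
  have hφ0 : φ 0 = l := by
    have h2 := hφl 0 (mem_ball_self one_pos)
    rw [mul_zero, zero_div, neg_zero, sub_eq_zero] at h2
    exact h2
  have hEb : ∀ᶠ x in 𝓝 (0:ℂ), ‖E x‖ ≤ ‖K‖ * (2 * A * ‖φ x - l‖) := by
    have h1 : ∀ᶠ x in 𝓝 (0:ℂ), φ x ∈ ball l δ :=
      hφc.eventually (by rw [hφ0]; exact ball_mem_nhds l hδ)
    filter_upwards [h1, ball_mem_nhds (0:ℂ) one_pos] with x hx hx1
    by_cases hx0 : x = 0
    · rw [hx0, hE]
      simp only [if_true, norm_zero]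
      positivity
    · rw [hEx x hx0]
      have hu := hφne x hx1 hx0
      have hul : φ x - l ≠ 0 := sub_ne_zero.2 hu
      have hsx := hs x hx1 hx0
      have e1 : x⁻¹ = c - K / (φ x - l) := by
        rw [hφl x hx1]
        have := hden x hx1
        field_simp
        ring
      have e2 : k x - x⁻¹ = -(K * (g (φ x) / ((φ x - l) * Y.s (φ x) l))) := by
        rw [e1]
        simp only [hk, hg]
        field_simp
        ring
      rw [e2, norm_neg, norm_mul K, norm_div, norm_mul (φ x - l)]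
      refine mul_le_mul_of_nonneg_left ?_ (norm_nonneg _)
      have hp : 0 < ‖φ x - l‖ := norm_pos_iff.2 hul
      have h3 := hSA _ hx
      have h4 : 0 < ‖Y.s (φ x) l‖ := norm_pos_iff.2 hsx
      rw [div_le_iff₀ (by positivity)]
      calc ‖g (φ x)‖ ≤ A * ‖φ x - l‖ ^ 3 := hgb _ hx
        _ = 2 * A * ‖φ x - l‖ * (‖φ x - l‖ * (‖φ x - l‖ / 2)) := by ring
        _ ≤ 2 * A * ‖φ x - l‖ * (‖φ x - l‖ * ‖Y.s (φ x) l‖) := by
            refine mul_le_mul_of_nonneg_left ?_ (by positivity)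
            exact mul_le_mul_of_nonneg_left h3 hp.le
  have hE0 : E 0 = 0 := if_pos rfl
  have hEc : ContinuousAt E 0 := by
    have h1 : Tendsto (fun x => ‖K‖ * (2 * A * ‖φ x - l‖)) (𝓝 0) (𝓝 0) := by
      have h2 : Tendsto (fun x => ‖φ x - l‖) (𝓝 0) (𝓝 0) := by
        have h3 : Tendsto (fun x => φ x - l) (𝓝 0) (𝓝 0) := by
          have := hφc.tendsto.sub_const l
          rwa [hφ0, sub_self] at this
        have h4 := h3.norm
        rwa [norm_zero] at h4
      have h5 := (h2.const_mul (2 * A)).const_mul ‖K‖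
      simpa using h5
    show Tendsto E (𝓝 0) (𝓝 (E 0))
    rw [hE0]
    exact squeeze_zero_norm' hEb h1
  have hφa : ∀ x ∈ ball (0:ℂ) 1, AnalyticAt ℂ φ x := by
    intro x hx
    rw [hφ]
    unfold phi
    exact analyticAt_const.add (analyticAt_const.mul (analyticAt_const.mul
      ((analyticAt_const.sub analyticAt_id).div
        (analyticAt_const.sub (analyticAt_const.mul analyticAt_id)) (hden x hx))))
  have hEd : DifferentiableOn ℂ E (ball 0 1) := by
    rw [← Complex.differentiableOn_compl_singleton_and_continuousAt_iff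
      (ball_mem_nhds (0:ℂ) one_pos)]
    refine ⟨fun x hx => ?_, hEc⟩
    have hx0 : x ≠ 0 := hx.2
    have hx1 := hx.1
    have h1 : DifferentiableAt ℂ (fun x => k x - x⁻¹) x := by
      have hφd := (hφa x hx1).differentiableAt
      have h2 : DifferentiableAt ℂ (fun x => Y.c (φ x) l) x :=
        (hCd _ (hφB x hx1)).differentiableAt.fun_comp' x hφd
      have h3 : DifferentiableAt ℂ (fun x => Y.s (φ x) l) x :=
        (hSd _ (hφB x hx1)).differentiableAt.fun_comp' x hφd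
      exact ((h2.div h3 (hs x hx1 hx0)).const_mul K).const_sub (c:ℂ) |>.sub
        (differentiableAt_inv hx0)
    refine (h1.congr_of_eventuallyEq ?_).differentiableWithinAt
    filter_upwards [isOpen_ne.mem_nhds hx0] with y hy
    exact hEx y hy
  refine ⟨E, ⟨hEd.analyticOnNhd isOpen_ball, hE0, ?_⟩, fun x hx hx0 => ⟨hs x hx hx0, ?_⟩⟩
  · rintro x ⟨hx, hx0⟩ y ⟨hy, hy0⟩ hxy
    have hx0' : x ≠ 0 := hx0
    have hy0' : y ≠ 0 := hy0
    have h1 : k x = k y := by
      have h2 : x⁻¹ + E x = y⁻¹ + E y := hxy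
      rw [hEx x hx0', hEx y hy0'] at h2
      linear_combination h2
    have hsx := hs x hx hx0'
    have hsy := hs y hy hy0'
    have h2 : Y.c (φ x) l / Y.s (φ x) l = Y.c (φ y) l / Y.s (φ y) l := by
      have h3 : K * (Y.c (φ x) l / Y.s (φ x) l - Y.c (φ y) l / Y.s (φ y) l) = 0 := by
        simp only [hk] at h1
        linear_combination -h1
      exact sub_eq_zero.1 ((mul_eq_zero.1 h3).resolve_left hK0)
    rw [div_eq_div_iff hsx hsy] at h2
    have h4 := Sys.cs_sub hU.on (l := l) (u := φ x) (v := φ y) hlB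
    have h5 : Y.s (φ y) (φ x) = 0 := by rw [← h4]; linear_combination h2
    exact hφinj hx hy (hU.inj _ (hφB y hy) _ (hφB x hx) h5).symm
  · rw [hEx x hx0]
    simp only [hk]
    ring

end Pool.Agent.MP_ae5b4e_an_NB2
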