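import Mathlib
import Pool.Agent.Lib.MP_ae5b4e_an_LU.SigNum
import Pool.Agent.Lib.MP_ae5b4e_an_LU.Trans

/-!
# MP_ae5b4e_an, Lemma U: the node lemma in a disc of univalence (formula (2.24))
-/

noncomputable section

namespace Pool.Agent.MP_ae5b4e_an_NB2

open Complex Set Filter Topology Metric

variable {Y : Sys} {w : ℂ} {d r : ℝ}

/-- a point near `1` is in a thin sector -/
private lemma dn_sector {q : ℂ} (hq : ‖q - 1‖ ≤ 0.062) : 0.997 * ‖q‖ ≤ q.re := by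
  have h1 : ‖q - 1‖ ^ 2 = ‖q‖ ^ 2 - 2 * q.re + 1 := by
    rw [← Complex.normSq_eq_norm_sq, ← Complex.normSq_eq_norm_sq, Complex.normSq_apply,
      Complex.normSq_apply]
    simp
    ring
  have h2 : ‖q - 1‖ ^ 2 ≤ 0.062 ^ 2 := pow_le_pow_left₀ (norm_nonneg _) hq 2
  nlinarith [sq_nonneg (‖q‖ - 0.997)]

private lemma dn_setup (hd : 0 < d) (hr : 0 < r) {l η : ℂ} (hη : ‖η - I * r‖ ≤ 0.0001 * r)
    (hl : l ∈ ball w d) (ha : d - ‖l - w‖ ≤ 0.0001 * d) (hdir : ‖l - w - I * d‖ ≤ 0.001 * d) :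
    ∃ (c : ℝ) (e K : ℂ), 0.999 ≤ c ∧ c < 1 ∧ ‖e‖ = 1 ∧ l = w + d * (e * c) ∧
      K * η = e * (d * (1 - c ^ 2)) ∧ K ≠ 0 ∧ η ≠ 0 ∧ 1.9997 * (d - ‖l - w‖) ≤ ‖K‖ * r ∧
      ∀ m : ℂ, ‖m - 1‖ ≤ 0.06 → 0.997 * ‖K * m‖ ≤ (K * m).re := by
  rw [mem_ball, dist_eq_norm] at hl
  obtain ⟨s, hs⟩ : ∃ s : ℝ, s = ‖l - w‖ := ⟨_, rfl⟩
  rw [← hs] at hl ha ⊢
  have hs0 : 0 < s := by linarith
  have hsC : (s:ℂ) ≠ 0 := by exact_mod_cast hs0.ne'
  have hdC : (d:ℂ) ≠ 0 := by exact_mod_cast hd.ne'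
  have hrC : (r:ℂ) ≠ 0 := by exact_mod_cast hr.ne'
  obtain ⟨c, hc⟩ : ∃ c : ℝ, c = s / d := ⟨_, rfl⟩
  obtain ⟨e, he⟩ : ∃ e : ℂ, e = (l - w) / s := ⟨_, rfl⟩
  have hc0 : 0.999 ≤ c := by rw [hc, le_div_iff₀ hd]; linarith
  have hc1 : c < 1 := by rw [hc, div_lt_one hd]; exact hl
  have hen : ‖e‖ = 1 := by
    rw [he, norm_div, Complex.norm_real, Real.norm_eq_abs, abs_of_pos hs0, ← hs, div_self hs0.ne']
  have hη1 : ‖η‖ ≤ 1.0001 * r := by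
    have h1 : η = (η - I * r) + I * r := by ring
    have h2 : ‖I * (r:ℂ)‖ = r := by
      rw [norm_mul, Complex.norm_I, one_mul, Complex.norm_real, Real.norm_eq_abs, abs_of_pos hr]
    rw [h1]
    refine (norm_add_le _ _).trans ?_
    rw [h2]
    linarith
  have hη2 : 0.9999 * r ≤ ‖η‖ := by
    have h2 : ‖I * (r:ℂ)‖ = r := by
      rw [norm_mul, Complex.norm_I, one_mul, Complex.norm_real, Real.norm_eq_abs, abs_of_pos hr]
    have h3 := norm_sub_norm_le (I * (r:ℂ)) η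
    rw [h2, norm_sub_rev] at h3
    linarith
  have hη0 : η ≠ 0 := by
    rintro rfl
    rw [norm_zero] at hη2
    linarith
  have hlw : l = w + d * (e * c) := by
    rw [he, hc]
    push_cast
    field_simp
    ring
  have h1c : (0:ℝ) < 1 - c ^ 2 := by nlinarith
  have h1cC : (1:ℂ) - (c:ℂ) ^ 2 ≠ 0 := by exact_mod_cast h1c.ne'
  have he0 : e ≠ 0 := by
    rintro rfl
    simp at hen
  obtain ⟨K, hK⟩ : ∃ K : ℂ, K = e * (d * (1 - c ^ 2)) / η := ⟨_, rfl⟩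
  have hK0 : K ≠ 0 := by
    rw [hK]
    exact div_ne_zero (mul_ne_zero he0 (mul_ne_zero hdC h1cC)) hη0
  have hKη : K * η = e * (d * (1 - c ^ 2)) := by rw [hK, div_mul_cancel₀ _ hη0]
  have ha2 : d * (1 - c ^ 2) = (d - s) * (1 + c) := by
    rw [hc]
    field_simp
    ring
  have hKn : ‖K‖ * ‖η‖ = (d - s) * (1 + c) := by
    rw [← norm_mul, hKη, norm_mul, hen, one_mul, ← ha2]
    have : (d:ℂ) * (1 - (c:ℂ) ^ 2) = ((d * (1 - c ^ 2) : ℝ) : ℂ) := by push_cast; ring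
    rw [this, Complex.norm_real, Real.norm_eq_abs, abs_of_pos (mul_pos hd h1c)]
  refine ⟨c, e, K, hc0, hc1, hen, hlw, hKη, hK0, hη0, ?_, ?_⟩
  · have h0 : 0 ≤ d - s := by linarith
    have hc2 : 0.9999 ≤ c := by rw [hc, le_div_iff₀ hd]; linarith
    have h1 : (d - s) * (1 + c) ≤ ‖K‖ * (1.0001 * r) := by
      rw [← hKn]
      exact mul_le_mul_of_nonneg_left hη1 (norm_nonneg _)
    nlinarith [mul_nonneg h0 (sub_nonneg.2 hc2)]
  · intro m hm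
    -- `K m = ((d - s) (1 + c) / r) q`
    obtain ⟨q, hq⟩ : ∃ q : ℂ, q = e * r / η * m := ⟨_, rfl⟩
    have hKm : K * m = (((d - s) * (1 + c) / r : ℝ) : ℂ) * q := by
      rw [hq, hK]
      have : (d:ℂ) * (1 - (c:ℂ) ^ 2) = (((d - s) * (1 + c) : ℝ) : ℂ) := by
        rw [← ha2]; push_cast; ring
      rw [this]
      push_cast
      field_simp
    have hA : 0 ≤ (d - s) * (1 + c) / r :=
      div_nonneg (mul_nonneg (by linarith) (by linarith)) hr.le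
    have hq1 : 0.997 * ‖q‖ ≤ q.re := by
      apply dn_sector
      have heI : ‖e - I‖ ≤ 0.0011 := by
        have e1 : e - I = (l - w - I * d) / d + (l - w) / s * ((1:ℂ) - s / d) := by
          rw [he]
          field_simp
          ring
        have e2 : ‖(l - w - I * d) / (d:ℂ)‖ ≤ 0.001 := by
          rw [norm_div, Complex.norm_real, Real.norm_eq_abs, abs_of_pos hd, div_le_iff₀ hd]
          exact hdir
        have e3 : ‖(l - w) / (s:ℂ) * ((1:ℂ) - s / d)‖ ≤ 0.0001 := by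
          rw [norm_mul, ← he, hen, one_mul]
          have : (1:ℂ) - s / d = (((d - s) / d : ℝ) : ℂ) := by
            push_cast
            field_simp
          rw [this, Complex.norm_real, Real.norm_eq_abs, abs_of_nonneg
            (div_nonneg (by linarith) hd.le), div_le_iff₀ hd]
          exact ha
        rw [e1]
        refine (norm_add_le _ _).trans ?_
        linarith
      have hf : ‖e * r / η - 1‖ ≤ 0.0013 := by
        have e1 : e * r / η - 1 = ((e - I) * r - (η - I * r)) / η := by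
          field_simp
          ring
        rw [e1, norm_div, div_le_iff₀ (norm_pos_iff.2 hη0)]
        refine (norm_sub_le _ _).trans ?_
        rw [norm_mul, Complex.norm_real, Real.norm_eq_abs, abs_of_pos hr]
        nlinarith [mul_le_mul_of_nonneg_right heI hr.le]
      have hmn : ‖m‖ ≤ 1.06 := by
        have h1 : m = (m - 1) + 1 := by ring
        rw [h1]
        refine (norm_add_le _ _).trans ?_
        rw [norm_one]
        linarith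
      have e2 : q - 1 = (e * r / η - 1) * m + (m - 1) := by rw [hq]; ring
      rw [e2]
      refine (norm_add_le _ _).trans ?_
      rw [norm_mul]
      have := mul_le_mul hf hmn (norm_nonneg _) (by norm_num)
      linarith
    rw [hKm, Complex.re_ofReal_mul, norm_mul, Complex.norm_real, Real.norm_eq_abs,
      abs_of_nonneg hA]
    nlinarith [mul_le_mul_of_nonneg_left hq1 hA]

private lemma dn_node (hU : Uni Y w d) {l η K e : ℂ} {c : ℝ} (hc0 : 0.999 ≤ c) (hc1 : c < 1)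
    (he : ‖e‖ = 1) (hlw : l = w + d * (e * c)) (hKη : K * η = e * (d * (1 - c ^ 2)))
    (hη0 : η ≠ 0) {E : ℂ → ℂ}
    (hE : ∀ x ∈ ball (0:ℂ) 1, x ≠ 0 → Y.s (phi w e d c x) l ≠ 0 ∧ x⁻¹ + E x =
      c - e * (d * (1 - c ^ 2)) * (Y.c (phi w e d c x) l / Y.s (phi w e d c x) l))
    {m' ζ : ℂ} (hm' : m' ≠ 0) (hK0 : K ≠ 0) (hz : 1 < ‖(c:ℂ) + K * m'‖) (hζ : 1 < ‖ζ‖)
    (hsum : (ζ + E ζ⁻¹) + (((c:ℂ) + K * m') + E ((c:ℂ) + K * m')⁻¹) = 2 * c) :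
    l - η / m' ∈ ball w d ∧ (c - ζ) / K ≠ 0 ∧ l + η / ((c - ζ) / K) ∈ ball w d ∧
      Y.node l (l + η / ((c - ζ) / K)) (l - η / m') := by
  have hd := hU.pos
  have hc0' : 0 ≤ c := by linarith
  have hinv : ∀ {z : ℂ}, 1 < ‖z‖ → z⁻¹ ∈ ball (0:ℂ) 1 ∧ z⁻¹ ≠ 0 := by
    intro z hz
    have hz0 : z ≠ 0 := norm_pos_iff.1 (by linarith)
    refine ⟨?_, inv_ne_zero hz0⟩
    rw [mem_ball_zero_iff, norm_inv]
    exact inv_lt_one_of_one_lt₀ hz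
  have hζc : (c:ℂ) - ζ ≠ 0 := by
    intro h
    have h1 : ζ = c := (sub_eq_zero.1 h).symm
    rw [h1, Complex.norm_real, Real.norm_eq_abs, abs_of_nonneg hc0'] at hζ
    linarith
  have hv : phi w e d c ((c:ℂ) + K * m')⁻¹ = l - η / m' := by
    rw [phi_inv hc0' hc1 hlw hz, ← hKη]
    have : (c:ℂ) + K * m' - c = K * m' := by ring
    rw [this]
    field_simp
  have hu : phi w e d c ζ⁻¹ = l + η / ((c - ζ) / K) := by
    rw [phi_inv hc0' hc1 hlw hζ, ← hKη]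
    have h2 : ζ - c ≠ 0 := fun h => hζc (by linear_combination -h)
    field_simp
    ring
  obtain ⟨z1, z2⟩ := hinv hz
  obtain ⟨y1, y2⟩ := hinv hζ
  have hvB := phi_mem (w := w) hd he hc0' hc1 (mem_ball_zero_iff.1 z1)
  have huB := phi_mem (w := w) hd he hc0' hc1 (mem_ball_zero_iff.1 y1)
  rw [hv] at hvB
  rw [hu] at huB
  refine ⟨hvB, div_ne_zero hζc hK0, huB, ?_⟩
  obtain ⟨s1, g1⟩ := hE _ z1 z2
  obtain ⟨s2, g2⟩ := hE _ y1 y2
  rw [hv, inv_inv] at g1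
  rw [hu, inv_inv] at g2
  rw [hv] at s1
  rw [hu] at s2
  rw [g1, g2, ← hKη] at hsum
  set u := l + η / ((c - ζ) / K) with hudef
  set v := l - η / m' with hvdef
  have h3 : K * η * (Y.c u l / Y.s u l + Y.c v l / Y.s v l) = 0 := by
    linear_combination -hsum
  have h4 := (mul_eq_zero.1 h3).resolve_left (mul_ne_zero hK0 hη0)
  rw [div_add_div _ _ s2 s1, div_eq_zero_iff] at h4
  have h5 := h4.resolve_right (mul_ne_zero s2 s1)
  show Y.c u l * Y.s v l + Y.c v l * Y.s u l = 0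
  linear_combination h5

/-- the upper neighbour of the label `l` when the lower neighbour is `l - η / m'` -/
theorem disc_node (hU : Uni Y w d) (hr : 0 < r) {l η m' : ℂ} (hη : ‖η - I * r‖ ≤ 0.0001 * r)
    (hl : l ∈ ball w d) (ha : d - ‖l - w‖ ≤ 0.0001 * d) (hdir : ‖l - w - I * d‖ ≤ 0.001 * d)
    (hk : 2.78 * r ≤ d - ‖l - w‖) (hm : ‖m' - 1‖ ≤ 0.06) :
    l - η / m' ∈ ball w d ∧ ∃ m : ℂ, m ≠ 0 ∧ ‖m - m'‖ ≤ 0.52 * (r / (d - ‖l - w‖)) ^ 3 ∧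
      l + η / m ∈ ball w d ∧ Y.node l (l + η / m) (l - η / m') := by
  obtain ⟨c, e, K, hc0, hc1, he, hlw, hKη, hK0, hη0, hKn, hre⟩ :=
    dn_setup hU.pos hr hη hl ha hdir
  obtain ⟨E, hES, hE⟩ := sig_of_uni hU he (by linarith) hc1 hlw
  obtain ⟨a, hadef⟩ : ∃ a : ℝ, a = d - ‖l - w‖ := ⟨_, rfl⟩
  rw [← hadef] at hk hKn ⊢
  have ha0 : 0 < a := by linarith
  have hm1 : 0.94 ≤ ‖m'‖ := by
    have h1 := norm_sub_norm_le (1:ℂ) m'
    rw [norm_one, norm_sub_rev] at h1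
    linarith
  have hm0 : m' ≠ 0 := norm_pos_iff.1 (by linarith)
  have hKr : 1.9997 * (a / r) ≤ ‖K‖ := by
    rw [← mul_div_assoc, div_le_iff₀ hr]
    exact hKn
  have har : 2.78 ≤ a / r := by rwa [le_div_iff₀ hr]
  have hPn : ‖K * m'‖ = ‖K‖ * ‖m'‖ := norm_mul _ _
  have hP : 5.2 ≤ ‖K * m'‖ := by
    rw [hPn]
    have h1 : 1.9997 * 2.78 ≤ ‖K‖ := by linarith
    nlinarith [mul_le_mul h1 hm1 (by norm_num) (norm_nonneg K)]
  obtain ⟨hz, ζ, hζ, hsum, hest⟩ := sig_step hES hc0 hc1.le hP (hre m' hm)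
  obtain ⟨k1, k2, k3, k4⟩ := dn_node hU hc0 hc1 he hlw hKη hη0 hE hm0 hK0 hz hζ hsum
  refine ⟨k1, (c - ζ) / K, k2, ?_, k3, k4⟩
  have h1 : (c - ζ) / K - m' = -((ζ - (c - K * m')) / K) := by
    field_simp
    ring
  rw [h1, norm_neg, norm_div]
  have hKp : 0 < ‖K‖ := norm_pos_iff.2 hK0
  have hx : 0 < a / r := by positivity
  have hinv : r / a = (a / r)⁻¹ := (inv_div a r).symm
  rw [hinv, div_le_iff₀ hKp]
  refine hest.trans ?_
  rw [hPn, inv_pow, div_le_iff₀ (by positivity)]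
  obtain ⟨x, hxd⟩ : ∃ x : ℝ, x = a / r := ⟨_, rfl⟩
  rw [← hxd] at hKr hx har ⊢
  have h2 : (1.9997 * x) ^ 3 ≤ ‖K‖ ^ 3 := pow_le_pow_left₀ (by positivity) hKr 3
  have h3 : (0.94:ℝ) ^ 2 ≤ ‖m'‖ ^ 2 := pow_le_pow_left₀ (by norm_num) hm1 2
  have h4 : (1.9997 * x) ^ 3 * 0.94 ^ 2 ≤ ‖K‖ ^ 3 * ‖m'‖ ^ 2 :=
    mul_le_mul h2 h3 (by norm_num) (by positivity)
  have h5 : 0.52 * (x ^ 3)⁻¹ * ‖K‖ * (‖K‖ * ‖m'‖) ^ 2 = 0.52 * (x ^ 3)⁻¹ * (‖K‖ ^ 3 * ‖m'‖ ^ 2) := by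
    ring
  rw [h5]
  have h6 : 0.52 * (x ^ 3)⁻¹ * ((1.9997 * x) ^ 3 * 0.94 ^ 2) = 0.52 * 1.9997 ^ 3 * 0.94 ^ 2 := by
    field_simp
  have h7 : 0.52 * (x ^ 3)⁻¹ * ((1.9997 * x) ^ 3 * 0.94 ^ 2) ≤
      0.52 * (x ^ 3)⁻¹ * (‖K‖ ^ 3 * ‖m'‖ ^ 2) := mul_le_mul_of_nonneg_left h4 (by positivity)
  rw [h6] at h7
  refine le_trans ?_ h7
  norm_num

/-- the last node -/
theorem disc_last (hU : Uni Y w d) (hr : 0 < r) {l η m' : ℂ} (hη : ‖η - I * r‖ ≤ 0.0001 * r)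
    (hl : l ∈ ball w d) (ha : d - ‖l - w‖ ≤ 0.0001 * d) (hdir : ‖l - w - I * d‖ ≤ 0.001 * d)
    (hk : 1.78 * r ≤ d - ‖l - w‖) (hm : ‖m' - 1‖ ≤ 0.06) :
    l - η / m' ∈ ball w d ∧ ∃ u ∈ ball w d, Y.node l u (l - η / m') := by
  obtain ⟨c, e, K, hc0, hc1, he, hlw, hKη, hK0, hη0, hKn, hre⟩ :=
    dn_setup hU.pos hr hη hl ha hdir
  obtain ⟨E, hES, hE⟩ := sig_of_uni hU he (by linarith) hc1 hlw
  obtain ⟨a, hadef⟩ : ∃ a : ℝ, a = d - ‖l - w‖ := ⟨_, rfl⟩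
  rw [← hadef] at hk hKn
  have hm1 : 0.94 ≤ ‖m'‖ := by
    have h1 := norm_sub_norm_le (1:ℂ) m'
    rw [norm_one, norm_sub_rev] at h1
    linarith
  have hm0 : m' ≠ 0 := norm_pos_iff.1 (by linarith)
  have hKr : 1.9997 * (a / r) ≤ ‖K‖ := by
    rw [← mul_div_assoc, div_le_iff₀ hr]
    exact hKn
  have har : 1.78 ≤ a / r := by rwa [le_div_iff₀ hr]
  have hP : 3.34 ≤ ‖K * m'‖ := by
    rw [norm_mul]
    have h1 : 1.9997 * 1.78 ≤ ‖K‖ := by linarith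
    nlinarith [mul_le_mul h1 hm1 (by norm_num) (norm_nonneg K)]
  obtain ⟨hz, ζ, hζ, hsum⟩ := sig_last hES hc0 hc1.le hP (hre m' hm)
  obtain ⟨k1, k2, k3, k4⟩ := dn_node hU hc0 hc1 he hlw hKη hη0 hE hm0 hK0 hz hζ hsum
  exact ⟨k1, _, k3, k4⟩

end Pool.Agent.MP_ae5b4e_an_NB2
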