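import Mathlib
import Pool.Agent.Lib.MP_ae5b4e_an_LU.DNode
import Pool.Agent.Lib.MP_ae5b4e_an_LU.Column

/-!
# MP_ae5b4e_an, Lemma U: existence of the column of labels (formulas (2.24), (2.25))
-/

noncomputable section

namespace Pool.Agent.MP_ae5b4e_an_NB2

open Complex Set Filter Topology Metric

/-- the position of a label which is close to the point of the column -/
private lemma ce_geo {w : ℂ} {d r : ℝ} {N : ℕ} {O : Set (ℂ × ℂ)} (hG : ColGeo w d r N O)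
    {p : ℂ × ℂ} (hp : p ∈ O) {j : ℕ} (h1 : 1 ≤ j) (hj : j ≤ N) {l : ℂ}
    (hl : ‖l - (p.1 - j * p.2)‖ ≤ 0.17 * r) :
    l ∈ ball w d ∧ d - ‖l - w‖ ≤ 0.0001 * d ∧ ‖l - w - I * d‖ ≤ 0.001 * d ∧
      (j - 0.22) * r ≤ d - ‖l - w‖ := by
  have hr := hG.r_pos
  have hs := hG.small
  have g1 := hG.low p hp j h1 hj
  have g2 := hG.upp p hp j h1 hj
  have g3 := hG.dir p hp j h1 hj
  have hj1 : (1:ℝ) ≤ j := by exact_mod_cast h1
  have e1 : l - w = (l - (p.1 - j * p.2)) + (p.1 - j * p.2 - w) := by ring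
  have t1 : ‖l - w‖ ≤ 0.17 * r + ‖p.1 - j * p.2 - w‖ := by
    rw [e1]
    exact (norm_add_le _ _).trans (by linarith)
  have t2 : ‖p.1 - j * p.2 - w‖ ≤ 0.17 * r + ‖l - w‖ := by
    have e2 : p.1 - j * p.2 - w = -(l - (p.1 - j * p.2)) + (l - w) := by ring
    rw [e2]
    refine (norm_add_le _ _).trans ?_
    rw [norm_neg]
    linarith
  have t3 : ‖l - w - I * d‖ ≤ 0.17 * r + ‖p.1 - j * p.2 - w - I * d‖ := by
    have e3 : l - w - I * d = (l - (p.1 - j * p.2)) + (p.1 - j * p.2 - w - I * d) := by ring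
    rw [e3]
    exact (norm_add_le _ _).trans (by linarith)
  have hjr : 1 * r ≤ j * r := mul_le_mul_of_nonneg_right hj1 hr.le
  refine ⟨?_, ?_, ?_, ?_⟩
  · rw [mem_ball, dist_eq_norm]
    nlinarith
  · nlinarith
  · nlinarith
  · nlinarith

/-- the error bound is small -/
private lemma ce_err {r ε : ℝ} (hr : 0 < r) {N j : ℕ} (hε : N * ε ≤ 0.003) (hε0 : 0 ≤ ε)
    (h2 : 2 ≤ j) :
    r * (0.001 + 1.065 * ((N - j) * ε + 0.26 / (j - 0.22))) ≤ 0.17 * r := by
  have hj : (2:ℝ) ≤ j := by exact_mod_cast h2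
  have h3 : 0.26 / ((j:ℝ) - 0.22) ≤ 0.26 / 1.78 := by
    apply div_le_div_of_nonneg_left <;> linarith
  have h4 : ((N:ℝ) - j) * ε ≤ 0.003 := by nlinarith
  have h5 : 0.001 + 1.065 * (((N:ℝ) - j) * ε + 0.26 / (j - 0.22)) ≤ 0.17 := by
    norm_num at h3 ⊢
    linarith
  nlinarith

private lemma ce_num1 {y : ℝ} (hy : 1 < y) :
    0.26 / (y + 0.5) ^ 2 + 0.52 * (1 / y) ^ 3 ≤ 0.26 / (y - 0.5) ^ 2 := by
  have h1 : 0 < y - 0.5 := by linarith
  have h2 : 0 < y + 0.5 := by linarith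
  have h3 : 0 < y := by linarith
  have h4 : 0.26 / (y - 0.5) ^ 2 - 0.26 / (y + 0.5) ^ 2 - 0.52 * (1 / y) ^ 3 =
      0.52 * (y ^ 4 - (y ^ 2 - 0.25) ^ 2) / ((y - 0.5) ^ 2 * (y + 0.5) ^ 2 * y ^ 3) := by
    field_simp
    ring
  have h5 : 0 ≤ 0.52 * (y ^ 4 - (y ^ 2 - 0.25) ^ 2) / ((y - 0.5) ^ 2 * (y + 0.5) ^ 2 * y ^ 3) := by
    apply div_nonneg
    · nlinarith
    · positivity
  linarith

private lemma ce_num2 {y : ℝ} (hy : 1 < y) :
    0.26 / (y + 0.5) + 0.26 / y ^ 2 ≤ 0.26 / (y - 0.5) := by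
  have h1 : 0 < y - 0.5 := by linarith
  have h2 : 0 < y + 0.5 := by linarith
  have h3 : 0 < y := by linarith
  have h4 : 0.26 / (y - 0.5) - 0.26 / (y + 0.5) - 0.26 / y ^ 2 =
      0.26 * 0.25 / ((y - 0.5) * (y + 0.5) * y ^ 2) := by
    field_simp
    ring
  have h5 : 0 ≤ 0.26 * 0.25 / ((y - 0.5) * (y + 0.5) * y ^ 2) := by positivity
  linarith

/-- the increment -/
private lemma ce_inc {r : ℝ} (hr : 0 < r) {η m : ℂ} (hη : ‖η - I * r‖ ≤ 0.0001 * r) {b : ℝ}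
    (hm : ‖m - 1‖ ≤ b) (hb : b ≤ 0.06) : η ≠ 0 ∧ m ≠ 0 ∧ ‖η / m - η‖ ≤ 1.065 * r * b := by
  have h2 : ‖I * (r:ℂ)‖ = r := by
    rw [norm_mul, Complex.norm_I, one_mul, Complex.norm_real, Real.norm_eq_abs, abs_of_pos hr]
  have hη1 : ‖η‖ ≤ 1.0001 * r := by
    have h1 : η = (η - I * r) + I * r := by ring
    rw [h1]
    refine (norm_add_le _ _).trans ?_
    rw [h2]
    linarith
  have hη0 : η ≠ 0 := by
    rintro rfl
    rw [zero_sub, norm_neg, h2] at hη
    linarith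
  have hm1 : 0.94 ≤ ‖m‖ := by
    have h1 := norm_sub_norm_le (1:ℂ) m
    rw [norm_one, norm_sub_rev] at h1
    linarith
  have hm0 : m ≠ 0 := norm_pos_iff.1 (by linarith)
  refine ⟨hη0, hm0, ?_⟩
  have e : η / m - η = -(η * (m - 1) / m) := by
    field_simp
    ring
  rw [e, norm_neg, norm_div, norm_mul, div_le_iff₀ (by linarith)]
  have hb0 : 0 ≤ b := (norm_nonneg _).trans hm
  have h3 : ‖η‖ * ‖m - 1‖ ≤ 1.0001 * r * b :=
    mul_le_mul hη1 hm (norm_nonneg _) (by positivity)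
  have h4 : 1.065 * r * b * 0.94 ≤ 1.065 * r * b * ‖m‖ :=
    mul_le_mul_of_nonneg_left hm1 (by positivity)
  have h5 : 0 ≤ r * b := by positivity
  nlinarith

/-- the state of the upward construction at the index `j`: `a` is the label `j + 1`, `b` is the
label `j` -/
private def CeSt (r ε : ℝ) (N j : ℕ) (p : ℂ × ℂ) (a b : ℂ) : Prop :=
  ∃ m : ℂ, ‖m - 1‖ ≤ ε + 0.26 / (j + 0.28) ^ 2 ∧ b = a + p.2 / m ∧
    ‖b - (p.1 - j * p.2)‖ ≤ r * (0.001 + 1.065 * ((N - j) * ε + 0.26 / (j - 0.22)))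

private lemma ce_eps {ε : ℝ} {N j : ℕ} (hN : 3 ≤ N) (hε : N * ε ≤ 0.003) (hε0 : 0 ≤ ε)
    (h2 : 2 ≤ j) : ε + 0.26 / ((j:ℝ) + 0.28) ^ 2 ≤ 0.06 := by
  have hj : (2:ℝ) ≤ j := by exact_mod_cast h2
  have hN' : (3:ℝ) ≤ N := by exact_mod_cast hN
  have h3 : 0.26 / ((j:ℝ) + 0.28) ^ 2 ≤ 0.26 / 2.28 ^ 2 := by
    apply div_le_div_of_nonneg_left
    · norm_num
    · norm_num
    · exact pow_le_pow_left₀ (by norm_num) (by linarith) 2
  have h4 : ε ≤ 0.001 := by nlinarith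
  norm_num at h3 ⊢
  linarith

/-- the step -/
private lemma ce_step {Y : Sys} {w : ℂ} {d r ε : ℝ} (hU : Uni Y w d) {N : ℕ} {O : Set (ℂ × ℂ)}
    (hG : ColGeo w d r N O) (hε : N * ε ≤ 0.003) (hε0 : 0 ≤ ε) {p : ℂ × ℂ} (hp : p ∈ O) {j : ℕ}
    (h2 : 3 ≤ j) (hj : j + 1 ≤ N) {a b : ℂ} (h : CeSt r ε N j p a b) :
    ∃ c : ℂ, CeSt r ε N (j - 1) p b c ∧ Y.node b c a ∧ c ∈ ball w d := by
  obtain ⟨m', hm', hb, hb2⟩ := h
  have hr := hG.r_pos
  have hη := hG.eta p hp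
  have hj3 : (3:ℝ) ≤ j := by exact_mod_cast h2
  have herr := ce_err hr hε hε0 (show 2 ≤ j by omega)
  obtain ⟨g1, g2, g3, g4⟩ := ce_geo hG hp (show 1 ≤ j by omega) (show j ≤ N by omega)
    (hb2.trans herr)
  have hm6 := ce_eps hG.three hε hε0 (show 2 ≤ j by omega)
  have hk : 2.78 * r ≤ d - ‖b - w‖ := by nlinarith
  obtain ⟨k1, m, hm0, hm, k2, k3⟩ := disc_node hU hr hη g1 g2 g3 hk (hm'.trans hm6)
  have ha : a = b - p.2 / m' := by rw [hb]; ring
  rw [← ha] at k3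
  have hjm : ((j - 1 : ℕ) : ℝ) = j - 1 := by
    rw [Nat.cast_sub (by omega)]
    simp
  have hjmC : ((j - 1 : ℕ) : ℂ) = j - 1 := by
    rw [Nat.cast_sub (by omega)]
    simp
  have hq : r / (d - ‖b - w‖) ≤ 1 / (j - 0.22) := by
    rw [div_le_div_iff₀ (by linarith) (by linarith)]
    linarith
  have hq3 : (r / (d - ‖b - w‖)) ^ 3 ≤ (1 / ((j:ℝ) - 0.22)) ^ 3 :=
    pow_le_pow_left₀ (div_nonneg hr.le (by linarith)) hq 3
  have n1 := ce_num1 (show (1:ℝ) < j - 0.22 by linarith)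
  have e1 : (j:ℝ) - 0.22 + 0.5 = j + 0.28 := by ring
  have e2 : (j:ℝ) - 0.22 - 0.5 = j - 0.72 := by ring
  rw [e1, e2] at n1
  have hm1 : ‖m - 1‖ ≤ ε + 0.26 / ((j:ℝ) - 0.72) ^ 2 := by
    have e : m - 1 = (m - m') + (m' - 1) := by ring
    rw [e]
    refine (norm_add_le _ _).trans ?_
    linarith
  have e3 : (((j - 1 : ℕ) : ℝ) + 0.28) = j - 0.72 := by rw [hjm]; ring
  have hm7 := ce_eps hG.three hε hε0 (show 2 ≤ j - 1 by omega)
  rw [e3] at hm7
  obtain ⟨hη0, -, hinc⟩ := ce_inc hr hη hm1 hm7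
  refine ⟨b + p.2 / m, ⟨m, ?_, rfl, ?_⟩, k3, k2⟩
  · rw [e3]
    exact hm1
  · rw [hjm, hjmC]
    have e : b + p.2 / m - (p.1 - ((j:ℂ) - 1) * p.2) =
        (b - (p.1 - j * p.2)) + (p.2 / m - p.2) := by ring
    rw [e]
    refine (norm_add_le _ _).trans ?_
    have n2 := ce_num2 (show (1:ℝ) < j - 0.72 by linarith)
    have e4 : (j:ℝ) - 0.72 + 0.5 = j - 0.22 := by ring
    have e5 : (j:ℝ) - 0.72 - 0.5 = j - 1 - 0.22 := by ring
    rw [e4, e5] at n2
    have n3 := mul_le_mul_of_nonneg_left n2 hr.le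
    nlinarith

/-- the labels over one point, down to the index `j = N - 1 - k` -/
private lemma ce_down {Y : Sys} {w : ℂ} {d r ε : ℝ} (hU : Uni Y w d) {N : ℕ} {O : Set (ℂ × ℂ)}
    (hG : ColGeo w d r N O) {A B : ℂ × ℂ → ℂ} (hS : ColStart w r ε N O A B) {p : ℂ × ℂ}
    (hp : p ∈ O) (k : ℕ) : ∀ j : ℕ, j + 1 + k = N → 2 ≤ j → ∃ M : ℕ → ℂ, M N = A p ∧
      M (N - 1) = B p ∧ CeSt r ε N j p (M (j + 1)) (M j) ∧
      (∀ i, j ≤ i → i ≤ N → M i ∈ ball w d) ∧
      (∀ i, j ≤ i → i + 1 ≤ N → M (i + 1) ≠ M i) ∧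
      (∀ i, j ≤ i → i + 2 ≤ N → Y.node (M (i + 1)) (M i) (M (i + 2))) := by
  have hr := hG.r_pos
  have hη := hG.eta p hp
  have hε := hS.eps
  have hε0 := hS.eps0
  -- a label in a state is different from the lower one
  have hdiff : ∀ j, 2 ≤ j → ∀ a b, CeSt r ε N j p a b → a ≠ b ∧
      ‖b - (p.1 - j * p.2)‖ ≤ 0.17 * r := by
    rintro j hj a b ⟨m, hm, hb, hb2⟩
    obtain ⟨hη0, hm0, -⟩ := ce_inc hr hη hm (ce_eps hG.three hε hε0 hj)
    refine ⟨?_, hb2.trans (ce_err hr hε hε0 hj)⟩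
    intro h
    rw [h] at hb
    have : p.2 / m = 0 := by linear_combination -hb
    exact (div_ne_zero hη0 hm0) this
  induction k with
  | zero =>
    intro j hj h2
    have hN1 : N - 1 = j := by omega
    have hN2 : N = j + 1 := by omega
    obtain ⟨m, hm, hB⟩ := hS.estB p hp
    have hjN : (N:ℝ) = j + 1 := by rw [hN2]; push_cast; ring
    have hjNC : (N:ℂ) = j + 1 := by rw [hN2]; push_cast; ring
    have hj2 : (2:ℝ) ≤ j := by exact_mod_cast h2
    have hq : 0 ≤ 0.26 / ((j:ℝ) + 0.28) ^ 2 := by positivity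
    have hm1 : ‖m - 1‖ ≤ ε + 0.26 / ((j:ℝ) + 0.28) ^ 2 := by linarith
    have h6 := ce_eps hG.three hε hε0 h2
    obtain ⟨hη0, hm0, hinc⟩ := ce_inc hr hη hm (by linarith)
    have hst : CeSt r ε N j p (A p) (B p) := by
      refine ⟨m, hm1, hB, ?_⟩
      have e : B p - (p.1 - j * p.2) = (A p - (p.1 - N * p.2)) + (p.2 / m - p.2) := by
        rw [hB, hjNC]
        ring
      rw [e]
      refine (norm_add_le _ _).trans ?_
      have h7 := hS.estA p hp
      have h8 : 0 ≤ 0.26 / ((j:ℝ) - 0.22) := div_nonneg (by norm_num) (by linarith)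
      rw [hjN]
      have h9 := mul_nonneg hr.le h8
      nlinarith
    obtain ⟨hne, hbB⟩ := hdiff j h2 _ _ hst
    obtain ⟨M, hM⟩ : ∃ M : ℕ → ℂ, M = fun i => if i = N then A p else B p := ⟨_, rfl⟩
    have hMN : M N = A p := by rw [hM]; simp
    have hMj : M j = B p := by
      rw [hM]
      have : j ≠ N := by omega
      simp [this]
    have hAb : A p ∈ ball w d := (ce_geo hG hp (show 1 ≤ N by omega) le_rfl
      ((hS.estA p hp).trans (by nlinarith))).1
    have hBb : B p ∈ ball w d := (ce_geo hG hp (show 1 ≤ j by omega) (show j ≤ N by omega) hbB).1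
    refine ⟨M, hMN, ?_, ?_, ?_, ?_, ?_⟩
    · rw [hN1, hMj]
    · rw [← hN2, hMN, hMj]
      exact hst
    · intro i hi hi'
      rcases (show i = j ∨ i = N by omega) with h | h
      · rw [h, hMj]
        exact hBb
      · rw [h, hMN]
        exact hAb
    · intro i hi hi'
      have : i = j := by omega
      rw [this, ← hN2, hMN, hMj]
      exact hne
    · intro i hi hi'
      omega
  | succ k ih =>
    intro j hj h2
    obtain ⟨M, hMN, hMN1, hst, hmem, hne, hnode⟩ := ih (j + 1) (by omega) (by omega)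
    obtain ⟨c, hc1, hc2, hc3⟩ := ce_step hU hG hε hε0 hp (show 3 ≤ j + 1 by omega)
      (show j + 1 + 1 ≤ N by omega) hst
    rw [Nat.add_sub_cancel] at hc1
    have hup : ∀ i, j + 1 ≤ i → Function.update M j c i = M i := by
      intro i hi
      exact Function.update_of_ne (by omega) _ _
    have hupj : Function.update M j c j = c := Function.update_self _ _ _
    refine ⟨Function.update M j c, ?_, ?_, ?_, ?_, ?_, ?_⟩
    · rw [hup N (by omega), hMN]
    · rw [hup (N - 1) (by omega), hMN1]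
    · rw [hup (j + 1) le_rfl, hupj]
      exact hc1
    · intro i hi hi'
      rcases Nat.eq_or_lt_of_le hi with h | h
      · rw [← h, hupj]
        exact hc3
      · rw [hup i h]
        exact hmem i h hi'
    · intro i hi hi'
      rcases Nat.eq_or_lt_of_le hi with h | h
      · rw [← h, hupj, hup (j + 1) le_rfl]
        exact (hdiff j h2 _ _ hc1).1
      · rw [hup i h, hup (i + 1) (by omega)]
        exact hne i h hi'
    · intro i hi hi'
      rcases Nat.eq_or_lt_of_le hi with h | h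
      · rw [← h, hupj, hup (j + 1) le_rfl, hup (j + 2) (by omega)]
        exact hc2
      · rw [hup i h, hup (i + 1) (by omega), hup (i + 2) (by omega)]
        exact hnode i h hi'

/-- the labels over one point -/
private lemma ce_point {Y : Sys} {w : ℂ} {d r ε : ℝ} (hU : Uni Y w d) {N : ℕ} {O : Set (ℂ × ℂ)}
    (hG : ColGeo w d r N O) {A B : ℂ × ℂ → ℂ} (hS : ColStart w r ε N O A B) {p : ℂ × ℂ}
    (hp : p ∈ O) : ∃ M : ℕ → ℂ, M N = A p ∧ M (N - 1) = B p ∧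
      (∀ i, 1 ≤ i → i ≤ N → M i ∈ ball w d) ∧
      (∀ i, 1 ≤ i → i + 1 ≤ N → M (i + 1) ≠ M i) ∧
      (∀ i, 1 ≤ i → i + 2 ≤ N → Y.node (M (i + 1)) (M i) (M (i + 2))) := by
  have hN := hG.three
  have hr := hG.r_pos
  have hη := hG.eta p hp
  have hε := hS.eps
  have hε0 := hS.eps0
  obtain ⟨M, hMN, hMN1, ⟨m, hm, hb, hb2⟩, hmem, hne, hnode⟩ :=
    ce_down hU hG hS hp (N - 3) 2 (by omega) le_rfl
  have hm6 := ce_eps hN hε hε0 (le_refl 2)
  obtain ⟨g1, g2, g3, g4⟩ := ce_geo hG hp (show 1 ≤ 2 by omega) (show 2 ≤ N by omega)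
    (hb2.trans (ce_err hr hε hε0 le_rfl))
  have hk : 1.78 * r ≤ d - ‖M 2 - w‖ := by
    push_cast at g4
    linarith
  obtain ⟨-, c, hc1, hc2⟩ := disc_last hU hr hη g1 g2 g3 hk (hm.trans hm6)
  have ha : M 3 = M 2 - p.2 / m := by
    rw [hb]
    ring
  rw [← ha] at hc2
  have hup : ∀ i, 2 ≤ i → Function.update M 1 c i = M i := by
    intro i hi
    exact Function.update_of_ne (by omega) _ _
  have hup1 : Function.update M 1 c 1 = c := Function.update_self _ _ _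
  refine ⟨Function.update M 1 c, ?_, ?_, ?_, ?_, ?_⟩
  · rw [hup N (by omega), hMN]
  · rw [hup (N - 1) (by omega), hMN1]
  · intro i hi hi'
    rcases Nat.eq_or_lt_of_le hi with h | h
    · rw [← h, hup1]
      exact hc1
    · rw [hup i h]
      exact hmem i h hi'
  · intro i hi hi'
    rcases Nat.eq_or_lt_of_le hi with h | h
    · rw [← h, hup1, hup 2 le_rfl]
      intro h0
      rw [← h0] at hc2
      -- the node relation with `u = l` gives `s (v, l) = 0`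
      have h3 := hne 2 le_rfl (by omega)
      apply h3
      apply hU.inj _ (hmem 3 (by omega) (by omega)) _ (hmem 2 (by omega) (by omega))
      have hc := hU.on.wr (M 2) (hmem 2 (by omega) (by omega))
      unfold Sys.node at hc2
      have e1 : Y.c (M 2) (M 2) = 1 := by
        simp only [Sys.c]
        linear_combination hc
      have e2 : Y.s (M 2) (M 2) = 0 := by
        simp only [Sys.s]
        ring
      rw [e1, e2] at hc2
      simpa using hc2
    · rw [hup i h, hup (i + 1) (by omega)]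
      exact hne i h hi'
  · intro i hi hi'
    rcases Nat.eq_or_lt_of_le hi with h | h
    · rw [← h, hup1, hup 2 le_rfl, hup 3 (by omega)]
      exact hc2
    · rw [hup i h, hup (i + 1) (by omega), hup (i + 2) (by omega)]
      exact hnode i h hi'

/-- **the column** -/
theorem exists_col {Y : Sys} {w : ℂ} {d r ε : ℝ} (hU : Uni Y w d) {N : ℕ} {O : Set (ℂ × ℂ)}
    (hG : ColGeo w d r N O) {A B : ℂ × ℂ → ℂ} (hS : ColStart w r ε N O A B) :
    ∃ lam : ℕ → ℂ × ℂ → ℂ, Col Y w d r N O A B lam := by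
  classical
  have hN := hG.three
  have hP : ∀ p : ℂ × ℂ, ∃ M : ℕ → ℂ, p ∈ O → M N = A p ∧ M (N - 1) = B p ∧
      (∀ i, 1 ≤ i → i ≤ N → M i ∈ ball w d) ∧
      (∀ i, 1 ≤ i → i + 1 ≤ N → M (i + 1) ≠ M i) ∧
      (∀ i, 1 ≤ i → i + 2 ≤ N → Y.node (M (i + 1)) (M i) (M (i + 2))) := by
    intro p
    by_cases hp : p ∈ O
    · obtain ⟨M, hM⟩ := ce_point hU hG hS hp
      exact ⟨M, fun _ => hM⟩
    · exact ⟨fun _ => 0, fun h => absurd h hp⟩
  choose M hM using hP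
  have htop : EqOn (fun p => M p N) A O := fun p hp => (hM p hp).1
  have hpre : EqOn (fun p => M p (N - 1)) B O := fun p hp => (hM p hp).2.1
  have hmaps : ∀ j, 1 ≤ j → j ≤ N → MapsTo (fun p => M p j) O (ball w d) :=
    fun j h1 h2 p hp => (hM p hp).2.2.1 j h1 h2
  have hne : ∀ j, 1 ≤ j → j + 1 ≤ N → ∀ p ∈ O, M p (j + 1) ≠ M p j :=
    fun j h1 h2 p hp => (hM p hp).2.2.2.1 j h1 h2
  have hnode : ∀ j, 1 ≤ j → j + 2 ≤ N → ∀ p ∈ O, Y.node (M p (j + 1)) (M p j) (M p (j + 2)) :=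
    fun j h1 h2 p hp => (hM p hp).2.2.2.2 j h1 h2
  have hanN : AnalyticOnNhd ℂ (fun p => M p N) O := hS.anA.congr hG.isOpen htop.symm
  have hanN1 : AnalyticOnNhd ℂ (fun p => M p (N - 1)) O := hS.anB.congr hG.isOpen hpre.symm
  have hall : ∀ k : ℕ, ∀ j, 1 ≤ j → j + 1 ≤ N → N ≤ j + 1 + k →
      AnalyticOnNhd ℂ (fun p => M p j) O ∧ AnalyticOnNhd ℂ (fun p => M p (j + 1)) O := by
    intro k
    induction k with
    | zero =>
      intro j h1 h2 h3
      have e1 : j = N - 1 := by omega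
      have e2 : j + 1 = N := by omega
      refine ⟨?_, ?_⟩
      · rw [e1]
        exact hanN1
      · rw [e2]
        exact hanN
    | succ k ih =>
      intro j h1 h2 h3
      by_cases h4 : N ≤ j + 1 + k
      · exact ih j h1 h2 h4
      · obtain ⟨i1, i2⟩ := ih (j + 1) (by omega) (by omega) (by omega)
        refine ⟨?_, i1⟩
        exact node_analytic hU hG.isOpen i1 i2 (hmaps (j + 1) (by omega) (by omega))
          (hmaps (j + 2) (by omega) (by omega)) (hmaps j h1 (by omega))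
          (hne (j + 1) (by omega) (by omega)) (hnode j h1 (by omega))
  refine ⟨fun j p => M p j, ?_, hmaps, htop, hpre, hne, hnode⟩
  intro j h1 h2
  by_cases h3 : j + 1 ≤ N
  · exact (hall N j h1 h3 (by omega)).1
  · have e : j = N := by omega
    rw [e]
    exact hanN

end Pool.Agent.MP_ae5b4e_an_NB2
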