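import Mathlib
import Pool.Agent.Lib.MP_ae5b4e_an_LU.Column

/-!
# MP_ae5b4e_an, Lemma U: the geometry of the cap (formula (2.22))
-/

noncomputable section

namespace Pool.Agent.MP_ae5b4e_an_NB2

open Complex Set Filter Topology Metric

/-- the number of nodes -/
def NN (C : ℝ) : ℕ := ⌈10000 * C ^ 2⌉₊ + 2

/-- the radius of the disc of parameters -/
def del (C r : ℝ) : ℝ := 0.00001 * r / NN C

/-- the cap: the points of `ball w (d + 0.04 r)` of depth less than `5 C ^ 2 r` -/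
def Cap (h C r d : ℝ) (w : ℂ) : Set ℂ := {t | t ∈ ball w (d + 0.04 * r) ∧ dep h t < 5 * C ^ 2 * r}

theorem isOpen_Cap (h C r d : ℝ) (w : ℂ) : IsOpen (Cap h C r d w) := by
  have h1 : IsOpen {t : ℂ | dep h t < 5 * C ^ 2 * r} := by
    apply isOpen_lt _ continuous_const
    unfold dep
    exact continuous_const.sub continuous_im
  exact isOpen_ball.inter h1

theorem convex_Cap (h C r d : ℝ) (w : ℂ) : Convex ℝ (Cap h C r d w) := by
  have h1 : Convex ℝ {t : ℂ | dep h t < 5 * C ^ 2 * r} := by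
    have e : {t : ℂ | dep h t < 5 * C ^ 2 * r} = {t : ℂ | h - 5 * C ^ 2 * r < t.im} := by
      ext t
      change h - t.im < 5 * C ^ 2 * r ↔ h - 5 * C ^ 2 * r < t.im
      constructor <;> intro h <;> linarith
    rw [e]
    exact convex_halfSpace_im_gt _
  exact (convex_ball _ _).inter h1

private theorem NN_ge (C : ℝ) : 3 ≤ NN C ∨ C = 0 := by
  unfold NN
  by_cases hC : C = 0
  · exact Or.inr hC
  · left
    have : 0 < ⌈10000 * C ^ 2⌉₊ := Nat.ceil_pos.2 (by positivity)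
    omega

private theorem NN_le {C : ℝ} (hC : 1 ≤ C) : (NN C : ℝ) ≤ 10003 * C ^ 2 := by
  unfold NN
  have h1 : (⌈10000 * C ^ 2⌉₊ : ℝ) < 10000 * C ^ 2 + 1 := Nat.ceil_lt_add_one (by positivity)
  have h2 : 1 ≤ C ^ 2 := one_le_pow₀ hC
  push_cast
  linarith

/-- the basic facts about the points of the cap -/
private theorem cap_facts {h C r d : ℝ} {w : ℂ}
    (hd : d ≤ dep h w) {t η : ℂ} (ht : t ∈ Cap h C r d w)
    (hη : η ∈ ball (I * r) (del C r)) {j : ℕ} (hj : j ≤ NN C) :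
    (t.re - w.re) ^ 2 + (t.im - w.im) ^ 2 ≤ (d + 0.04 * r) ^ 2 ∧ d - 5 * C ^ 2 * r ≤ t.im - w.im ∧
      t.im - w.im ≤ d + 0.04 * r ∧ (j : ℝ) * |η.re| ≤ 0.00001 * r ∧
      (j : ℝ) * |η.im - r| ≤ 0.00001 * r ∧ (j : ℝ) * ‖η - I * r‖ ≤ 0.00001 * r := by
  obtain ⟨h1, h2⟩ := ht
  rw [mem_ball, dist_eq_norm] at h1 hη
  have h3 : ‖t - w‖ ^ 2 = (t.re - w.re) ^ 2 + (t.im - w.im) ^ 2 := by
    rw [← Complex.normSq_eq_norm_sq, Complex.normSq_apply, sub_re, sub_im]
    ring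
  have h4 : t.im - w.im ≤ ‖t - w‖ := by
    rw [← sub_im]
    exact (le_abs_self _).trans (abs_im_le_norm _)
  unfold dep at h2 hd
  have hNpos : (0 : ℝ) < NN C := by
    have : 0 < NN C := by
      unfold NN
      omega
    exact_mod_cast this
  have h5 : (j : ℝ) * ‖η - I * r‖ ≤ 0.00001 * r := by
    have h6 : (j : ℝ) ≤ NN C := by exact_mod_cast hj
    calc (j : ℝ) * ‖η - I * r‖ ≤ NN C * del C r := by
          apply mul_le_mul h6 hη.le (norm_nonneg _) hNpos.le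
      _ = 0.00001 * r := by
          unfold del
          field_simp
  have h7 : |η.re| ≤ ‖η - I * r‖ := by
    have := abs_re_le_norm (η - I * r)
    simpa using this
  have h8 : |η.im - r| ≤ ‖η - I * r‖ := by
    have := abs_im_le_norm (η - I * r)
    simpa using this
  have hj0 : (0 : ℝ) ≤ j := Nat.cast_nonneg j
  refine ⟨?_, ?_, ?_, ?_, ?_, h5⟩
  · rw [← h3]
    exact pow_le_pow_left₀ (norm_nonneg _) h1.le 2
  · linarith
  · linarith
  · exact (mul_le_mul_of_nonneg_left h7 hj0).trans h5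
  · exact (mul_le_mul_of_nonneg_left h8 hj0).trans h5

private theorem cap_num {C r d : ℝ} (hC : 1 ≤ C) (hr : 0 < r) (hrd : 10 ^ 12 * C ^ 4 * r ≤ d) :
    10 ^ 12 * (C ^ 2 * r) ≤ d ∧ 10 ^ 12 * r ≤ d ∧ r ≤ C ^ 2 * r ∧ 0 < d := by
  have h2 : 1 ≤ C ^ 2 := one_le_pow₀ hC
  have h4 : C ^ 2 ≤ C ^ 4 := pow_le_pow_right₀ hC (by norm_num)
  have h5 : C ^ 2 * r ≤ C ^ 4 * r := mul_le_mul_of_nonneg_right h4 hr.le
  have h6 : 1 * r ≤ C ^ 2 * r := mul_le_mul_of_nonneg_right h2 hr.le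
  refine ⟨?_, ?_, ?_, ?_⟩ <;> nlinarith

private theorem cap_re {h C r d : ℝ} {w : ℂ} (hC : 1 ≤ C) (hr : 0 < r)
    (hrd : 10 ^ 12 * C ^ 4 * r ≤ d) (hd : d ≤ dep h w) {t η : ℂ} (ht : t ∈ Cap h C r d w)
    (hη : η ∈ ball (I * r) (del C r)) : |t.re - w.re| ≤ 0.00001 * d := by
  obtain ⟨a1, a2, a3, -⟩ := cap_facts hd ht hη (Nat.zero_le _)
  obtain ⟨b1, b2, b3, b4⟩ := cap_num hC hr hrd
  apply abs_le_of_sq_le_sq _ (by positivity)
  have h1 : 0 ≤ d - 5 * C ^ 2 * r := by nlinarith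
  have h2 : (d - 5 * C ^ 2 * r) ^ 2 ≤ (t.im - w.im) ^ 2 := pow_le_pow_left₀ h1 a2 2
  have h3 : (t.re - w.re) ^ 2 ≤ (d + 0.04 * r) ^ 2 - (d - 5 * C ^ 2 * r) ^ 2 := by linarith
  have h4 : (d + 0.04 * r) ^ 2 - (d - 5 * C ^ 2 * r) ^ 2 =
      (5 * (C ^ 2 * r) + 0.04 * r) * (2 * d + 0.04 * r - 5 * (C ^ 2 * r)) := by ring
  have h5 : 5 * (C ^ 2 * r) + 0.04 * r ≤ 0.00000000001 * d := by linarith
  have h6 : 2 * d + 0.04 * r - 5 * (C ^ 2 * r) ≤ 2 * d := by linarith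
  have h7 : (5 * (C ^ 2 * r) + 0.04 * r) * (2 * d + 0.04 * r - 5 * (C ^ 2 * r)) ≤
      0.00000000001 * d * (2 * d) := by
    apply mul_le_mul h5 h6
    · linarith
    · positivity
  nlinarith

/-- **the geometry of the cap** -/
theorem cap_geo {h C r d : ℝ} {w : ℂ} (hC : 1 ≤ C) (hr : 0 < r) (hrd : 10 ^ 12 * C ^ 4 * r ≤ d)
    (hd : d ≤ dep h w) (hd' : dep h w ≤ 2 * d) :
    ColGeo w d r (NN C) (Cap h C r d w ×ˢ ball (I * r) (del C r)) := by
  obtain ⟨b1, b2, b3, b4⟩ := cap_num hC hr hrd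
  have hN3 : 3 ≤ NN C := by
    rcases NN_ge C with h | h
    · exact h
    · rw [h] at hC
      norm_num at hC
  have hNle := NN_le hC
  have hN3' : (3 : ℝ) ≤ NN C := by exact_mod_cast hN3
  have hNr : (NN C : ℝ) * r ≤ 10003 * (C ^ 2 * r) := by nlinarith
  refine ⟨(isOpen_Cap h C r d w).prod isOpen_ball, hr, hN3, by linarith, ?_, ?_, ?_, ?_⟩
  · rintro ⟨t, η⟩ ⟨ht, hη⟩
    have := (cap_facts hd ht hη (show 1 ≤ NN C by omega)).2.2.2.2.2
    rw [Nat.cast_one, one_mul] at this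
    dsimp only
    linarith
  · rintro ⟨t, η⟩ ⟨ht, hη⟩ j hj1 hj
    obtain ⟨a1, a2, a3, a4, a5, a6⟩ := cap_facts hd ht hη hj
    dsimp only
    have hj0 : (1 : ℝ) ≤ j := by exact_mod_cast hj1
    have hjN : (j : ℝ) ≤ NN C := by exact_mod_cast hj
    have hjr : (j : ℝ) * r ≤ 10003 * (C ^ 2 * r) :=
      (mul_le_mul_of_nonneg_right hjN hr.le).trans hNr
    have h1 : ‖t - j * η - w‖ ≤ ‖t - w - j * (I * r)‖ + 0.00001 * r := by
      have e : t - j * η - w = (t - w - j * (I * r)) - j * (η - I * r) := by ring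
      rw [e]
      refine (norm_sub_le _ _).trans ?_
      rw [norm_mul (j : ℂ), Complex.norm_natCast]
      linarith
    have hpos : 0 ≤ d - (j - 0.045) * r := by nlinarith
    have h2 : ‖t - w - j * (I * r)‖ ≤ d - (j - 0.045) * r := by
      apply le_of_sq_le_sq _ hpos
      rw [← Complex.normSq_eq_norm_sq, Complex.normSq_apply]
      have e1 : (t - w - j * (I * r)).re = t.re - w.re := by simp
      have e2 : (t - w - j * (I * r)).im = t.im - w.im - j * r := by simp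
      rw [e1, e2]
      have h3 : (j : ℝ) * r * (d - 5 * C ^ 2 * r) ≤ j * r * (t.im - w.im) :=
        mul_le_mul_of_nonneg_left a2 (by positivity)
      have h4 : (j : ℝ) * r * (C ^ 2 * r) ≤ 10003 * (C ^ 2 * r) * (C ^ 2 * r) :=
        mul_le_mul_of_nonneg_right hjr (by positivity)
      have h5 : (j : ℝ) * r * r ≤ 10003 * (C ^ 2 * r) * (C ^ 2 * r) := by
        calc (j : ℝ) * r * r ≤ 10003 * (C ^ 2 * r) * r :=
              mul_le_mul_of_nonneg_right hjr hr.le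
          _ ≤ 10003 * (C ^ 2 * r) * (C ^ 2 * r) := by gcongr
      have h6 : (C ^ 2 * r) * (C ^ 2 * r) * 10 ^ 12 ≤ r * d := by
        have : (C ^ 2 * r) * (C ^ 2 * r) * 10 ^ 12 = r * (10 ^ 12 * C ^ 4 * r) := by ring
        rw [this]
        exact mul_le_mul_of_nonneg_left hrd hr.le
      have h7 : r * r ≤ (C ^ 2 * r) * (C ^ 2 * r) := by gcongr
      nlinarith
    linarith
  · rintro ⟨t, η⟩ ⟨ht, hη⟩ j hj1 hj
    obtain ⟨a1, a2, a3, a4, a5, a6⟩ := cap_facts hd ht hη hj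
    dsimp only
    have hjN : (j : ℝ) ≤ NN C := by exact_mod_cast hj
    have hjr : (j : ℝ) * r ≤ 10003 * (C ^ 2 * r) :=
      (mul_le_mul_of_nonneg_right hjN hr.le).trans hNr
    have h1 : (t - j * η - w).im ≤ ‖t - j * η - w‖ := (le_abs_self _).trans (abs_im_le_norm _)
    have e : (t - j * η - w).im = t.im - w.im - j * r - j * (η.im - r) := by
      simp
      ring
    have h2 : (j : ℝ) * (η.im - r) ≤ j * |η.im - r| :=
      mul_le_mul_of_nonneg_left (le_abs_self _) (Nat.cast_nonneg j)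
    rw [e] at h1
    linarith
  · rintro ⟨t, η⟩ ⟨ht, hη⟩ j hj1 hj
    obtain ⟨a1, a2, a3, a4, a5, a6⟩ := cap_facts hd ht hη hj
    have c1 := cap_re hC hr hrd hd ht hη
    dsimp only
    have hj0 : (0 : ℝ) ≤ j := Nat.cast_nonneg j
    have hjN : (j : ℝ) ≤ NN C := by exact_mod_cast hj
    have hjr : (j : ℝ) * r ≤ 10003 * (C ^ 2 * r) :=
      (mul_le_mul_of_nonneg_right hjN hr.le).trans hNr
    have hjr0 : 0 ≤ (j : ℝ) * r := by positivity
    have h1 := Complex.norm_le_abs_re_add_abs_im (t - j * η - w - I * d)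
    have e1 : (t - j * η - w - I * d).re = (t.re - w.re) - j * η.re := by
      simp
      ring
    have e2 : (t - j * η - w - I * d).im = (t.im - w.im - d) - j * r - j * (η.im - r) := by
      simp
      ring
    have h2 : |(t.re - w.re) - j * η.re| ≤ 0.00001 * d + 0.00001 * r := by
      refine (abs_sub _ _).trans ?_
      rw [abs_mul, abs_of_nonneg hj0]
      linarith
    have h3 : |(t.im - w.im - d) - j * r - j * (η.im - r)| ≤
        5 * (C ^ 2 * r) + 10003 * (C ^ 2 * r) + 0.00001 * r := by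
      have h4 : |(j : ℝ) * (η.im - r)| ≤ 0.00001 * r := by
        rw [abs_mul, abs_of_nonneg hj0]
        exact a5
      rw [abs_le] at h4 ⊢
      constructor
      · linarith [h4.1, h4.2]
      · linarith [h4.1, h4.2]
    rw [e1, e2] at h1
    linarith

/-- the depth in the cap -/
theorem cap_dep {h C r d : ℝ} {w : ℂ} (hC : 1 ≤ C) (hr : 0 < r) (hrd : 10 ^ 12 * C ^ 4 * r ≤ d)
    (hd : d ≤ dep h w) (hd' : dep h w ≤ 2 * d) {t η : ℂ} (ht : t ∈ Cap h C r d w)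
    (hη : η ∈ ball (I * r) (del C r)) {j : ℕ} (hj : j ≤ NN C) :
    (j - 0.05) * r ≤ dep h (t - j * η) ∧ dep h (t - j * η) ≤ 30000 * C ^ 2 * r ∧
      |dep h (t - j * η) - (dep h t + j * r)| ≤ 0.001 * r ∧ |(t - j * η).re - w.re| ≤ 0.001 * d := by
  obtain ⟨b1, b2, b3, b4⟩ := cap_num hC hr hrd
  obtain ⟨a1, a2, a3, a4, a5, a6⟩ := cap_facts hd ht hη hj
  have c1 := cap_re hC hr hrd hd ht hη
  have hNle := NN_le hC
  have hNr : (NN C : ℝ) * r ≤ 10003 * (C ^ 2 * r) := by nlinarith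
  have hj0 : (0 : ℝ) ≤ j := Nat.cast_nonneg j
  have hjN : (j : ℝ) ≤ NN C := by exact_mod_cast hj
  have hjr : (j : ℝ) * r ≤ 10003 * (C ^ 2 * r) :=
    (mul_le_mul_of_nonneg_right hjN hr.le).trans hNr
  have h2 := ht.2
  have h4 : |(j : ℝ) * (η.im - r)| ≤ 0.00001 * r := by
    rw [abs_mul, abs_of_nonneg hj0]
    exact a5
  have e : dep h (t - j * η) = dep h t + j * r + j * (η.im - r) := by
    unfold dep
    simp
    ring
  rw [e]
  have h5 := abs_le.1 h4
  have h6 : -(0.04 * r) ≤ dep h t := by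
    unfold dep at hd ⊢
    linarith
  refine ⟨?_, ?_, ?_, ?_⟩
  · linarith [h5.1]
  · linarith [h5.2]
  · have e' : dep h t + j * r + j * (η.im - r) - (dep h t + j * r) = j * (η.im - r) := by ring
    rw [e']
    linarith
  · have e1 : (t - j * η).re - w.re = (t.re - w.re) - j * η.re := by
      simp
      ring
    rw [e1]
    refine (abs_sub _ _).trans ?_
    rw [abs_mul, abs_of_nonneg hj0]
    linarith

end Pool.Agent.MP_ae5b4e_an_NB2
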