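import Mathlib
import Pool.Agent.Lib.MP_ae5b4e_an_LU.CapGeo

/-!
# MP_ae5b4e_an, Lemma U: the bottom of the column
-/

noncomputable section

namespace Pool.Agent.MP_ae5b4e_an_NB2

open Complex Set Filter Topology Metric

/-- the position of the disc below the arc; `D` is the depth of its centre -/
structure Pos (h b l C R d r : ℝ) (w : ℂ) : Prop where
  re : |w.re - b| < l / 4
  le : dep h w ≤ l / 20
  leR : dep h w ≤ R
  d_le : d ≤ dep h w
  le_d : dep h w ≤ 2 * d
  r_pos : 0 < r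
  r_le : 10 ^ 12 * C ^ 4 * r ≤ d

variable {Y : Sys} {h b l C R d r : ℝ} {M : ℂ × ℂ → ℂ} {w : ℂ}

private lemma start_NN (C : ℝ) : 10000 * C ^ 2 + 2 ≤ (NN C : ℝ) ∧
    (NN C : ℝ) ≤ 10000 * C ^ 2 + 3 := by
  unfold NN
  push_cast
  have h1 := Nat.le_ceil (10000 * C ^ 2)
  have h2 := Nat.ceil_lt_add_one (show (0:ℝ) ≤ 10000 * C ^ 2 by positivity)
  constructor <;> linarith

private lemma start_dep (h : ℝ) (u c : ℂ) : |dep h u - dep h c| ≤ ‖u - c‖ := by
  have h1 : dep h u - dep h c = -(u - c).im := by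
    unfold dep
    rw [sub_im]
    ring
  rw [h1, abs_neg]
  exact Complex.abs_im_le_norm _

/-- the bounds for `η` -/
private lemma start_eta (hC : 1 ≤ C) (hr : 0 < r) {η : ℂ} (hη : η ∈ ball (I * r) (del C r)) :
    ‖η‖ < 1.00001 * r ∧ 0.9 * r < ‖η‖ := by
  have hN := (start_NN C).1
  have hN1 : (1:ℝ) ≤ NN C := by nlinarith [sq_nonneg C]
  rw [mem_ball, dist_eq_norm] at hη
  have h1 : del C r ≤ 0.00001 * r := by
    unfold del
    rw [div_le_iff₀ (by linarith)]
    nlinarith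
  have h2 : ‖I * (r:ℂ)‖ = r := by
    rw [norm_mul, norm_I, one_mul, Complex.norm_real, Real.norm_eq_abs, abs_of_pos hr]
  have h3 := norm_sub_norm_le η (I * r)
  have h4 := norm_sub_norm_le (I * (r:ℂ)) η
  rw [norm_sub_rev] at h4
  rw [h2] at h3 h4
  constructor <;> linarith

/-- the facts about a point `(u, η)` with `u` near `t - N η` -/
private lemma start_mem (hS : Slope Y h b l C R M) (hP : Pos h b l C R d r w) {t η : ℂ}
    (ht : t ∈ Cap h C r d w) (hη : η ∈ ball (I * r) (del C r)) {u : ℂ}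
    (hu : ‖u - (t - (NN C : ℕ) * η)‖ < dep h (t - (NN C : ℕ) * η) / 2) :
    (u, η) ∈ SReg h b l C R ∧ ‖M (u, η) - u‖ ≤
      6 * C ^ 2 * ‖η‖ ^ 2 / dep h (t - (NN C : ℕ) * η) := by
  have hC := hS.C_one
  have hr := hP.r_pos
  obtain ⟨hη1, hη2⟩ := start_eta hC hr hη
  obtain ⟨g1, g2, _, g4⟩ := cap_dep hC hr hP.r_le hP.d_le hP.le_d ht hη (le_refl (NN C))
  set c : ℂ := t - (NN C : ℕ) * η with hc
  set D : ℝ := dep h c with hD
  have hNN := (start_NN C).1
  have hC2 : 1 ≤ C ^ 2 := by nlinarith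
  have hC24 : C ^ 2 ≤ C ^ 4 := by nlinarith
  have hCC2 : C ≤ C ^ 2 := by nlinarith
  have hD1 : 10000 * C ^ 2 * r ≤ D := by
    have : (10000 * C ^ 2) * r ≤ ((NN C : ℝ) - 0.05) * r := by
      apply mul_le_mul_of_nonneg_right _ hr.le
      linarith
    linarith
  have hC2r : 10 ^ 12 * (C ^ 2 * r) ≤ d := by
    have h1 : C ^ 2 * r ≤ C ^ 4 * r := mul_le_mul_of_nonneg_right hC24 hr.le
    have h2 := hP.r_le
    nlinarith
  have hrC : r ≤ C ^ 2 * r := by nlinarith
  have hCr : C * r ≤ C ^ 2 * r := mul_le_mul_of_nonneg_right hCC2 hr.le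
  have hCr0 : 0 < C ^ 2 * r := by positivity
  have hd0 : 0 < d := by linarith
  have hD0 : 0 < D := by linarith
  have hdl : d ≤ l / 20 := hP.d_le.trans hP.le
  have hdR : d ≤ R := hP.d_le.trans hP.leR
  have hRC : R ≤ C * R := by nlinarith [hS.R_pos]
  have e1 := start_dep h u c
  rw [abs_le] at e1
  have hdu1 : D / 2 < dep h u := by linarith [e1.1]
  have hdu2 : dep h u < 3 * D / 2 := by linarith [e1.2]
  have hη0 := norm_nonneg η
  have hCη : C * ‖η‖ ≤ 1.00001 * (C ^ 2 * r) := by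
    have : C * ‖η‖ ≤ C * (1.00001 * r) := mul_le_mul_of_nonneg_left hη1.le (by linarith)
    nlinarith
  have hmem : (u, η) ∈ SReg h b l C R := by
    refine ⟨?_, ?_, ?_, ?_⟩
    · show |u.re - b| < l / 2
      have f1 : |u.re - c.re| ≤ ‖u - c‖ := by
        rw [← sub_re]
        exact Complex.abs_re_le_norm _
      have f2 := hP.re
      rw [abs_le] at f1 g4
      rw [abs_lt] at f2 ⊢
      constructor <;> nlinarith [f1.1, f1.2, g4.1, g4.2, f2.1, f2.2]
    · show dep h u < l / 4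
      nlinarith
    · show C * ‖η‖ < dep h u
      nlinarith
    · show ‖η‖ < R
      nlinarith
  refine ⟨hmem, ?_⟩
  have e2 := hS.est (u, η) hmem (by show 3 * C * ‖η‖ ≤ dep h u; nlinarith)
    (by show dep h u ≤ C * R; nlinarith)
  refine e2.trans ?_
  show 3 * C ^ 2 * ‖η‖ ^ 2 / dep h u ≤ 6 * C ^ 2 * ‖η‖ ^ 2 / D
  rw [div_le_div_iff₀ (by linarith) hD0]
  have h5 : 0 ≤ 3 * C ^ 2 * ‖η‖ ^ 2 := by positivity
  nlinarith

/-- the bottom of the column (formula (2.23)) -/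
theorem col_start (hS : Slope Y h b l C R M) (hP : Pos h b l C R d r w) :
    ColStart w r (0.00000025 / C ^ 2) (NN C) (Cap h C r d w ×ˢ ball (I * r) (del C r))
      (fun p => M (p.1 - (NN C : ℕ) * p.2, p.2)) (fun p => M (p.1 - ((NN C - 1 : ℕ) : ℂ) * p.2, p.2)) := by
  have hC := hS.C_one
  have hr := hP.r_pos
  have hC2 : 1 ≤ C ^ 2 := by nlinarith
  obtain ⟨hNN, hNN'⟩ := start_NN C
  have hcast : ((NN C - 1 : ℕ) : ℂ) = (NN C : ℂ) - 1 := by
    have h1 : 1 ≤ NN C := by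
      unfold NN
      omega
    push_cast [Nat.cast_sub h1]
    rfl
  -- the depth of `t - N η`
  have hDep : ∀ p ∈ Cap h C r d w ×ˢ ball (I * r) (del C r),
      10000 * C ^ 2 * r ≤ dep h (p.1 - (NN C : ℕ) * p.2) := by
    rintro ⟨t, η⟩ ⟨ht, hη⟩
    obtain ⟨g1, _, _, _⟩ := cap_dep hC hr hP.r_le hP.d_le hP.le_d ht hη (le_refl (NN C))
    have : (10000 * C ^ 2) * r ≤ ((NN C : ℝ) - 0.05) * r := by
      apply mul_le_mul_of_nonneg_right _ hr.le
      linarith
    exact this.trans g1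
  have hmid : ∀ p ∈ Cap h C r d w ×ˢ ball (I * r) (del C r), ‖p.2‖ < 1.00001 * r ∧
      0.9 * r < ‖p.2‖ := by
    rintro ⟨t, η⟩ ⟨_, hη⟩
    exact start_eta hC hr hη
  have hz : ∀ p ∈ Cap h C r d w ×ˢ ball (I * r) (del C r),
      ‖(p.1 - ((NN C - 1 : ℕ) : ℂ) * p.2) - (p.1 - (NN C : ℕ) * p.2)‖ <
        dep h (p.1 - (NN C : ℕ) * p.2) / 2 := by
    intro p hp
    have e1 : (p.1 - ((NN C - 1 : ℕ) : ℂ) * p.2) - (p.1 - (NN C : ℕ) * p.2) = p.2 := by
      rw [hcast]
      ring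
    rw [e1]
    have := hDep p hp
    have := hmid p hp
    nlinarith
  have hz0 : ∀ p ∈ Cap h C r d w ×ˢ ball (I * r) (del C r),
      ‖(p.1 - (NN C : ℕ) * p.2) - (p.1 - (NN C : ℕ) * p.2)‖ <
        dep h (p.1 - (NN C : ℕ) * p.2) / 2 := by
    intro p hp
    rw [sub_self, norm_zero]
    have := hDep p hp
    nlinarith
  refine ⟨?_, ?_, ?_, by positivity, ?_, ?_⟩
  · intro p hp
    have h1 := (start_mem hS hP hp.1 hp.2 (hz0 p hp)).1
    have h2 : AnalyticAt ℂ (fun p : ℂ × ℂ => (p.1 - (NN C : ℕ) * p.2, p.2)) p :=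
      (analyticAt_fst.sub (analyticAt_const.mul analyticAt_snd)).prod analyticAt_snd
    exact AnalyticAt.comp (f := fun p : ℂ × ℂ => (p.1 - (NN C : ℕ) * p.2, p.2)) (hS.an _ h1) h2
  · intro p hp
    have h1 := (start_mem hS hP hp.1 hp.2 (hz p hp)).1
    have h2 : AnalyticAt ℂ (fun p : ℂ × ℂ => (p.1 - ((NN C - 1 : ℕ) : ℂ) * p.2, p.2)) p :=
      (analyticAt_fst.sub (analyticAt_const.mul analyticAt_snd)).prod analyticAt_snd
    exact AnalyticAt.comp (f := fun p : ℂ × ℂ => (p.1 - ((NN C - 1 : ℕ) : ℂ) * p.2, p.2))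
      (hS.an _ h1) h2
  · rw [← mul_div_assoc, div_le_iff₀ (by positivity)]
    nlinarith
  · intro p hp
    have h1 := (start_mem hS hP hp.1 hp.2 (hz0 p hp)).2
    refine h1.trans ?_
    have hD := hDep p hp
    obtain ⟨h3, _⟩ := hmid p hp
    have hD0 : 0 < dep h (p.1 - (NN C : ℕ) * p.2) := by
      have : 0 < 10000 * C ^ 2 * r := by positivity
      linarith
    rw [div_le_iff₀ hD0]
    have h4 : ‖p.2‖ ^ 2 ≤ 1.1 * r ^ 2 := by
      have := norm_nonneg p.2
      nlinarith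
    have h5 : 6 * C ^ 2 * ‖p.2‖ ^ 2 ≤ 6 * C ^ 2 * (1.1 * r ^ 2) :=
      mul_le_mul_of_nonneg_left h4 (by positivity)
    have h6 : 0.001 * r * (10000 * C ^ 2 * r) ≤
        0.001 * r * dep h (p.1 - (NN C : ℕ) * p.2) :=
      mul_le_mul_of_nonneg_left hD (by positivity)
    nlinarith [mul_pos (show (0:ℝ) < C ^ 2 by positivity) (pow_pos hr 2)]
  · rintro ⟨t, η⟩ hp
    have hD := hDep _ hp
    have hη := hmid _ hp
    have hz1 := hz _ hp
    have hz01 := hz0 _ hp
    simp only at hD hη hz1 hz01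
    set c : ℂ := t - (NN C : ℕ) * η with hc
    set z1 : ℂ := t - ((NN C - 1 : ℕ) : ℂ) * η with hz1d
    set D : ℝ := dep h c with hDd
    have hzc : z1 = c + η := by
      rw [hz1d, hc, hcast]
      ring
    have hCr0 : 0 < C ^ 2 * r := by positivity
    have hD0 : 0 < D := by nlinarith
    have hη0 : η ≠ 0 := norm_pos_iff.1 (by linarith [hη.2])
    have hηn : 0 < ‖η‖ := norm_pos_iff.2 hη0
    set f : ℂ → ℂ := fun u => M (u, η) - u with hf
    have hfan : DifferentiableOn ℂ f (ball c (D / 2)) := by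
      intro u hu
      rw [mem_ball, dist_eq_norm] at hu
      have h1 := (start_mem hS hP hp.1 hp.2 hu).1
      have h2 : AnalyticAt ℂ (fun u : ℂ => (u, η)) u := by fun_prop
      have h3 : AnalyticAt ℂ (fun u : ℂ => M (u, η)) u :=
        AnalyticAt.comp (f := fun u : ℂ => (u, η)) (hS.an _ h1) h2
      exact (h3.differentiableAt.sub differentiableAt_id).differentiableWithinAt
    set K : ℝ := C ^ 2 * ‖η‖ ^ 2 / D with hK
    have hK0 : 0 < K := by positivity
    have hfb : ∀ u ∈ ball c (D / 2), ‖f u‖ ≤ 6 * K := by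
      intro u hu
      rw [mem_ball, dist_eq_norm] at hu
      have h1 := (start_mem hS hP hp.1 hp.2 hu).2
      refine h1.trans (le_of_eq ?_)
      rw [hK]
      show 6 * C ^ 2 * ‖η‖ ^ 2 / D = _
      ring
    have hfc : ‖f c‖ ≤ 3 * K := by
      have h1 := (start_mem hS hP hp.1 hp.2 hz01).1
      have hRC : R ≤ C * R := by nlinarith [hS.R_pos]
      obtain ⟨_, g2, _, _⟩ := cap_dep hC hr hP.r_le hP.d_le hP.le_d hp.1 hp.2 (le_refl (NN C))
      have hC24 : C ^ 2 ≤ C ^ 4 := by nlinarith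
      have hC2r : 10 ^ 12 * (C ^ 2 * r) ≤ d := by
        have h1 : C ^ 2 * r ≤ C ^ 4 * r := mul_le_mul_of_nonneg_right hC24 hr.le
        have h2 := hP.r_le
        nlinarith
      have hdR : d ≤ R := hP.d_le.trans hP.leR
      have hCη : C * ‖η‖ ≤ 1.00001 * (C ^ 2 * r) := by
        have h8 : C * ‖η‖ ≤ C * (1.00001 * r) := mul_le_mul_of_nonneg_left hη.1.le (by linarith)
        have h9 : C * r ≤ C ^ 2 * r := mul_le_mul_of_nonneg_right (by nlinarith) hr.le
        nlinarith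
      have e2 := hS.est (c, η) h1 (by show 3 * C * ‖η‖ ≤ dep h c; nlinarith)
        (by show dep h c ≤ C * R; simp only at g2; nlinarith)
      refine e2.trans (le_of_eq ?_)
      rw [hK]
      show 3 * C ^ 2 * ‖η‖ ^ 2 / D = _
      ring
    have hmaps : MapsTo f (ball c (D / 2)) (ball (f c) (9.1 * K)) := by
      intro u hu
      rw [mem_ball, dist_eq_norm]
      have := norm_sub_le (f u) (f c)
      have := hfb u hu
      linarith
    have hz1m : z1 ∈ ball c (D / 2) := by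
      rw [mem_ball, dist_eq_norm]
      exact hz1
    have hsch := Complex.dist_le_div_mul_dist_of_mapsTo_ball hfan
      (hmaps.mono_right ball_subset_closedBall) hz1m
    rw [dist_eq_norm, dist_eq_norm, hzc, add_sub_cancel_left, ← hzc] at hsch
    set κ : ℂ := (f z1 - f c) / η with hκ
    have hκn : ‖κ‖ ≤ 0.00000019 / C ^ 2 := by
      rw [hκ, norm_div, div_le_iff₀ hηn]
      refine hsch.trans (mul_le_mul_of_nonneg_right ?_ hηn.le)
      have e1 : 9.1 * K / (D / 2) = 18.2 * (C ^ 2 * ‖η‖ ^ 2) / D ^ 2 := by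
        rw [hK]
        field_simp
        ring
      rw [e1, div_le_div_iff₀ (by positivity) (by positivity)]
      have h4 : ‖η‖ ^ 2 ≤ 1.001 * r ^ 2 := by nlinarith [hη.1]
      have h5 : (10000 * C ^ 2 * r) ^ 2 ≤ D ^ 2 := pow_le_pow_left₀ (by positivity) hD 2
      have h6 : 18.2 * (C ^ 2 * ‖η‖ ^ 2) * C ^ 2 ≤ 18.2 * (C ^ 2 * (1.001 * r ^ 2)) * C ^ 2 := by
        gcongr
      have h7 : (0:ℝ) ≤ C ^ 4 * r ^ 2 := by positivity
      nlinarith
    have hκ1 : ‖κ‖ ≤ 0.00000019 := by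
      refine hκn.trans ?_
      rw [div_le_iff₀ (by positivity)]
      nlinarith
    have h1κ : (1:ℂ) + κ ≠ 0 := by
      intro h0
      have h9 : κ = -1 := by linear_combination h0
      rw [h9, norm_neg, norm_one] at hκ1
      norm_num at hκ1
    refine ⟨(1 + κ)⁻¹, ?_, ?_⟩
    · have e1 : (1 + κ)⁻¹ - 1 = -κ / (1 + κ) := by
        field_simp
        ring
      rw [e1, norm_div, norm_neg]
      have h8 : 1 - ‖κ‖ ≤ ‖1 + κ‖ := by
        have := norm_sub_norm_le (1:ℂ) (-κ)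
        rw [norm_neg, norm_one, sub_neg_eq_add] at this
        exact this
      have h9 : 0 < ‖1 + κ‖ := by linarith
      rw [div_le_iff₀ h9]
      have h10 : 0.00000025 / C ^ 2 * (1 - 0.00000019) ≤ 0.00000025 / C ^ 2 * ‖1 + κ‖ := by
        apply mul_le_mul_of_nonneg_left _ (by positivity)
        linarith
      refine hκn.trans (le_trans ?_ h10)
      rw [div_mul_eq_mul_div]
      apply div_le_div_of_nonneg_right _ (by positivity)
      norm_num
    · show M (z1, η) = M (c, η) + η / (1 + κ)⁻¹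
      rw [div_inv_eq_mul, mul_add, mul_one, hκ, mul_div_cancel₀ _ hη0]
      rw [hf]
      simp only
      rw [hzc]
      ring

end Pool.Agent.MP_ae5b4e_an_NB2
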