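import Mathlib
import Pool.Agent.Lib.MP_ae5b4e_an_LU.Start

/-!
# MP_ae5b4e_an, Lemma U: the labels in the overlap
-/

noncomputable section

namespace Pool.Agent.MP_ae5b4e_an_NB2

open Complex Set Filter Topology Metric

variable {Y : Sys} {h b l C R d r : ℝ} {M : ℂ × ℂ → ℂ} {w : ℂ}

/-- the labels in the overlap -/
theorem col_over (hS : Slope Y h b l C R M) (hP : Pos h b l C R d r w) {t η : ℂ}
    (ht : t ∈ Cap h C r d w) (ht' : 4 * C ^ 2 * r < dep h t) (hη : η ∈ ball (I * r) (del C r)) :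
    (t, η) ∈ SReg h b l C R ∧
    (∀ j : ℕ, 1 ≤ j → j ≤ NN C → M (t - j * η, η) ∈ ball w d) ∧
    ∀ j : ℕ, j + 2 ≤ NN C →
      Y.node (M (t - ((j + 1 : ℕ) : ℂ) * η, η)) (M (t - j * η, η)) (M (t - ((j + 2 : ℕ) : ℂ) * η, η)) := by
  have hC := hS.C_one
  have hr := hP.r_pos
  have hC2 : 1 ≤ C ^ 2 := one_le_pow₀ hC
  have hC24 : C ^ 2 ≤ C ^ 4 := pow_le_pow_right₀ hC (by norm_num)
  have hCC2 : C ≤ C ^ 2 := by nlinarith
  have hC2r : C ^ 2 * r ≤ C ^ 4 * r := mul_le_mul_of_nonneg_right hC24 hr.le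
  have hrd : 10 ^ 12 * (C ^ 4 * r) ≤ d := by have := hP.r_le; nlinarith
  have hCr : r ≤ C ^ 2 * r := by nlinarith
  have hCr1 : r ≤ C * r := by nlinarith
  have hCr2 : C * r ≤ C ^ 2 * r := mul_le_mul_of_nonneg_right hCC2 hr.le
  have hd0 : 0 < d := by nlinarith
  -- the size of `η`
  have hNN : (2 : ℝ) ≤ (NN C : ℝ) := by
    have : 2 ≤ NN C := by unfold NN; omega
    exact_mod_cast this
  have hdel : del C r ≤ 0.00001 * r := by
    unfold del
    rw [div_le_iff₀ (by linarith)]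
    nlinarith
  have hη1 : ‖η‖ ≤ 1.00001 * r := by
    rw [mem_ball, dist_eq_norm] at hη
    have h1 : η = (η - I * r) + I * r := by ring
    have h2 : ‖I * (r : ℂ)‖ = r := by
      rw [norm_mul, Complex.norm_I, one_mul, Complex.norm_real, Real.norm_eq_abs, abs_of_pos hr]
    rw [h1]
    refine (norm_add_le _ _).trans ?_
    rw [h2]
    linarith
  have hη0 := norm_nonneg η
  -- the points of the column
  have hdep := fun j (hj : j ≤ NN C) =>
    cap_dep hC hr hP.r_le hP.d_le hP.le_d ht hη (j := j) hj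
  have hpt : ∀ j : ℕ, j ≤ NN C → 4 * C ^ 2 * r - 0.001 * r < dep h (t - j * η) ∧
      dep h (t - j * η) ≤ 0.001 * d ∧ |(t - j * η).re - b| ≤ l / 4 + 0.001 * d := by
    intro j hj
    obtain ⟨-, h2, h3, h4⟩ := hdep j hj
    rw [abs_le] at h3
    refine ⟨?_, ?_, ?_⟩
    · have h5 : (0 : ℝ) ≤ j * r := mul_nonneg (Nat.cast_nonneg j) hr.le
      linarith
    · nlinarith
    · have h5 : (t - j * η).re - b = ((t - j * η).re - w.re) + (w.re - b) := by ring
      rw [h5]
      have h6 := abs_add_le ((t - j * η).re - w.re) (w.re - b)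
      have h7 := hP.re
      linarith
  have hreg : ∀ j : ℕ, j ≤ NN C → (t - j * η, η) ∈ SReg h b l C R := by
    intro j hj
    obtain ⟨h1, h2, h3⟩ := hpt j hj
    refine ⟨?_, ?_, ?_, ?_⟩
    · show |(t - j * η).re - b| < l / 2
      have := hP.le
      have := hP.d_le
      linarith
    · show dep h (t - j * η) < l / 4
      have := hP.le
      have := hP.d_le
      linarith
    · show C * ‖η‖ < dep h (t - j * η)
      have h4 : C * ‖η‖ ≤ C * (1.00001 * r) := mul_le_mul_of_nonneg_left hη1 (by linarith)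
      nlinarith
    · show ‖η‖ < R
      have := hP.leR
      have := hP.d_le
      nlinarith
  refine ⟨?_, ?_, ?_⟩
  · have h1 := hreg 0 (Nat.zero_le _)
    simpa using h1
  · intro j hj1 hj
    have hG := cap_geo (h := h) (w := w) hC hr hP.r_le hP.d_le hP.le_d
    have hlow := hG.low (t, η) ⟨ht, hη⟩ j hj1 hj
    obtain ⟨h1, h2, h3⟩ := hpt j hj
    have hj1' : (1 : ℝ) ≤ j := by exact_mod_cast hj1
    obtain ⟨-, h5, h6, -⟩ := hdep j hj
    rw [abs_le] at h6
    have h4 : 4 * C ^ 2 * r ≤ dep h (t - j * η) := by nlinarith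
    have hest := hS.est (t - j * η, η) (hreg j hj) ?_ ?_
    · have hest' : ‖M (t - j * η, η) - (t - j * η)‖ ≤ 3 * C ^ 2 * ‖η‖ ^ 2 / dep h (t - j * η) := hest
      have hpos : 0 < dep h (t - j * η) := by nlinarith
      have h7 : 3 * C ^ 2 * ‖η‖ ^ 2 / dep h (t - j * η) ≤ 0.76 * r := by
        rw [div_le_iff₀ hpos]
        have h8 : ‖η‖ ^ 2 ≤ (1.00001 * r) ^ 2 := pow_le_pow_left₀ hη0 hη1 2
        have h9 : 3 * C ^ 2 * ‖η‖ ^ 2 ≤ 3 * C ^ 2 * (1.00001 * r) ^ 2 :=
          mul_le_mul_of_nonneg_left h8 (by positivity)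
        have h10 : 0.76 * r * (4 * C ^ 2 * r) ≤ 0.76 * r * dep h (t - j * η) :=
          mul_le_mul_of_nonneg_left h4 (by positivity)
        have h11 : 0 ≤ C ^ 2 * r ^ 2 := by positivity
        nlinarith
      rw [mem_ball, dist_eq_norm]
      have h12 : M (t - j * η, η) - w = (M (t - j * η, η) - (t - j * η)) + (t - j * η - w) := by
        ring
      rw [h12]
      refine (norm_add_le _ _).trans_lt ?_
      have h13 : ((j : ℝ) - 0.05) * r ≤ d - ‖t - j * η - w‖ := hlow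
      have h14 : 0.95 * r ≤ ((j : ℝ) - 0.05) * r :=
        mul_le_mul_of_nonneg_right (by linarith) hr.le
      linarith
    · show 3 * C * ‖η‖ ≤ dep h (t - j * η)
      have h7 : 3 * C * ‖η‖ ≤ 3 * C * (1.00001 * r) := mul_le_mul_of_nonneg_left hη1 (by linarith)
      nlinarith
    · show dep h (t - j * η) ≤ C * R
      have h7 := hP.leR
      have h8 := hP.d_le
      have h9 : R ≤ C * R := by nlinarith [hS.R_pos]
      linarith
  · intro j hj
    have hj' : j + 1 ≤ NN C := by omega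
    obtain ⟨h1, h2, h3⟩ := hpt (j + 1) hj'
    have hn := hS.node (t - ((j + 1 : ℕ) : ℂ) * η, η) (hreg (j + 1) hj') ?_ ?_ ?_
    · have e1 : t - ((j + 1 : ℕ) : ℂ) * η + η = t - j * η := by push_cast; ring
      have e2 : t - ((j + 1 : ℕ) : ℂ) * η - η = t - ((j + 2 : ℕ) : ℂ) * η := by push_cast; ring
      simp only [e1, e2] at hn
      exact hn
    · show |(t - ((j + 1 : ℕ) : ℂ) * η).re - b| + ‖η‖ < l / 2
      have := hP.le
      have := hP.d_le
      nlinarith
    · show dep h (t - ((j + 1 : ℕ) : ℂ) * η) + ‖η‖ < l / 4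
      have := hP.le
      have := hP.d_le
      nlinarith
    · show (C + 1) * ‖η‖ < dep h (t - ((j + 1 : ℕ) : ℂ) * η)
      have h4 : (C + 1) * ‖η‖ ≤ (2 * C) * (1.00001 * r) :=
        mul_le_mul (by linarith) hη1 hη0 (by linarith)
      nlinarith

end Pool.Agent.MP_ae5b4e_an_NB2
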