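import Mathlib
import Pool.Agent.Lib.MP_ae5b4e_an_LU.MerFu
import Pool.Agent.Lib.MP_ae5b4e_an_LU.ColEx
import Pool.Agent.Lib.MP_ae5b4e_an_LU.Over

/-!
# MP_ae5b4e_an, Lemma U: the function on the cap
-/

noncomputable section

namespace Pool.Agent.MP_ae5b4e_an_NB2

open Complex Set Filter Topology Metric
open Pool.Agent.MP_ae5b4e_an_NBT (St Mer MerAt EqM Den)
open Pool.Agent.Lib.MP_ae5b4e_an_LL (ExtH hdom ExtR)

variable {Y : Sys} {h b l C R d r : ℝ} {M : ℂ × ℂ → ℂ} {w : ℂ}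

/-- `y1` of the label is analytic and not locally zero -/
private theorem den_y1 (hS : Slope Y h b l C R M) {p : ℂ × ℂ} (hp : p ∈ SReg h b l C R) :
    Den (fun q => Y.y1 (M q)) p := by
  have hSt : IsOpen (St (-h) h) := Pool.Agent.MP_ae5b4e_an_NBT.isOpen_St (-h) h
  have hC0 : 0 ≤ C := zero_le_one.trans hS.C_one
  have han : AnalyticOnNhd ℂ (fun q => Y.y1 (M q)) (SReg h b l C R) := fun q hq =>
    AnalyticAt.fun_comp (Sys.On.an hSt hS.on (hS.maps hq)).1 (hS.an q hq)
  refine ⟨han p hp, fun h0 => ?_⟩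
  have h1 := han.eqOn_zero_of_preconnected_of_eventuallyEq_zero
    (isPreconnected_SReg hC0) hp h0
  rw [mem_SReg] at hp
  obtain ⟨p1, p2, p3, p4⟩ := hp
  have hpd : 0 < dep h p.1 := lt_of_le_of_lt (mul_nonneg hC0 (norm_nonneg _)) p3
  have hz := SReg_zero (h := h) (b := b) (l := l) (C := C) hS.R_pos p1 hpd p2
  have hM0 := hS.zero p.1 hz
  have hmem : p.1 ∈ St (-h) h := by
    have := hS.maps hz
    rwa [hM0] at this
  have hcont : Continuous fun t : ℂ => (t, (0:ℂ)) := by fun_prop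
  have hev : ∀ᶠ t : ℂ in 𝓝 p.1, Y.y1 t = 0 := by
    have h2 : ∀ᶠ t : ℂ in 𝓝 p.1, (t, (0:ℂ)) ∈ SReg h b l C R :=
      hcont.continuousAt.eventually ((isOpen_SReg h b l C R).mem_nhds hz)
    filter_upwards [h2] with t ht
    have h3 := h1 ht
    simpa [hS.zero t ht] using h3
  have hd1 := hS.on.d1 p.1 hmem
  have hd2 : HasDerivAt Y.y1 0 p.1 :=
    (hasDerivAt_const p.1 (0 : ℂ)).congr_of_eventuallyEq hev
  have h4 : Y.y1' p.1 = 0 := hd1.unique hd2
  have h5 := hS.on.wr p.1 hmem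
  rw [h4, hev.self_of_nhds] at h5
  simp at h5

/-- a point of the cap in the controlled region -/
private theorem cap_deep (hC : 1 ≤ C) (hP : Pos h b l C R d r w) (hne : (Cap h C r d w).Nonempty) :
    ∃ t ∈ Cap h C r d w, 4 * C ^ 2 * r < dep h t := by
  obtain ⟨t, ht1, ht2⟩ := hne
  have hr := hP.r_pos
  have hC2 : 1 ≤ C ^ 2 := one_le_pow₀ hC
  have hC2r : 0 < C ^ 2 * r := by positivity
  have hbig : 5 * C ^ 2 * r < dep h w := by
    have h1 := hP.r_le
    have h2 := hP.d_le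
    have h3 : C ^ 2 * r ≤ C ^ 4 * r := by
      have : C ^ 2 ≤ C ^ 4 := pow_le_pow_right₀ hC (by norm_num)
      gcongr
    nlinarith
  have him : |t.im - w.im| < d + 0.04 * r := by
    have h1 : ‖t - w‖ < d + 0.04 * r := by
      rw [← dist_eq_norm]
      exact mem_ball.1 ht1
    have h2 := Complex.abs_im_le_norm (t - w)
    rw [Complex.sub_im] at h2
    exact h2.trans_lt h1
  have h3 : dep h w - (d + 0.04 * r) < 5 * C ^ 2 * r := by
    have h4 := (abs_lt.1 him).2
    unfold dep at ht2 ⊢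
    linarith
  obtain ⟨δ, hδ1, hδ2⟩ : ∃ δ, max (4 * C ^ 2 * r) (dep h w - (d + 0.04 * r)) < δ ∧
      δ < 5 * C ^ 2 * r := exists_between (max_lt (by linarith) h3)
  have hδ3 := (le_max_left _ _).trans_lt hδ1
  have hδ4 := (le_max_right _ _).trans_lt hδ1
  have hdep : dep h (w + I * ((dep h w - δ : ℝ) : ℂ)) = δ := by
    have : (w + I * ((dep h w - δ : ℝ) : ℂ)).im = w.im + (dep h w - δ) := by simp
    unfold dep at this ⊢
    rw [this]
    ring
  refine ⟨w + I * ((dep h w - δ : ℝ) : ℂ), ⟨?_, ?_⟩, ?_⟩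
  · rw [mem_ball, dist_eq_norm, add_sub_cancel_left, norm_mul, Complex.norm_I, one_mul,
      Complex.norm_real, Real.norm_eq_abs, abs_of_pos (by linarith)]
    linarith
  · rw [hdep]
    exact hδ2
  · rw [hdep]
    exact hδ3

/-- the function on the cap -/
theorem cap_ext (hS : Slope Y h b l C R M) (hU : Uni Y w d) (hP : Pos h b l C R d r w) :
    ∃ G : ℂ × ℂ → ℂ, Mer G (Cap h C r d w ×ˢ ball (I * r) (del C r)) ∧
      ∀ p ∈ Cap h C r d w ×ˢ ball (I * r) (del C r), 4 * C ^ 2 * r < dep h p.1 →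
        EqM G (Fu Y M) p := by
  have hC1 := hS.C_one
  have hGeo := cap_geo hC1 hP.r_pos hP.r_le hP.d_le hP.le_d
  have hSt0 := col_start hS hP
  obtain ⟨lam, hL⟩ := exists_col hU hGeo hSt0
  have hN3 := hGeo.three
  obtain ⟨O, hO⟩ : ∃ O, O = Cap h C r d w ×ˢ ball (I * (r : ℂ)) (del C r) := ⟨_, rfl⟩
  have hOo : IsOpen O := by
    rw [hO]
    exact hGeo.isOpen
  have hOc : IsPreconnected O := by
    rw [hO]
    exact (convex_Cap h C r d w).isPreconnected.prod
      (convex_ball (I * (r : ℂ)) (del C r)).isPreconnected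
  have hSt : IsOpen (St (-h) h) := Pool.Agent.MP_ae5b4e_an_NBT.isOpen_St (-h) h
  -- the set on which the functions are solutions
  have hon : Y.On (ball w d ∪ St (-h) h) := by
    refine ⟨?_, ?_, ?_, ?_, ?_⟩
    · rintro z (hz | hz)
      · exact hU.on.d1 z hz
      · exact hS.on.d1 z hz
    · rintro z (hz | hz)
      · exact hU.on.d1' z hz
      · exact hS.on.d1' z hz
    · rintro z (hz | hz)
      · exact hU.on.d2 z hz
      · exact hS.on.d2 z hz
    · rintro z (hz | hz)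
      · exact hU.on.d2' z hz
      · exact hS.on.d2' z hz
    · rintro z (hz | hz)
      · exact hU.on.wr z hz
      · exact hS.on.wr z hz
  -- the overlap
  have key : ∀ p ∈ O, 4 * C ^ 2 * r < dep h p.1 → p ∈ SReg h b l C R ∧
      (Y.y1 (M p) ≠ 0 → deN Y (lam 1 p) (lam 2 p) ≠ 0 ∧
        Fu Y M p = nuN Y (lam 1 p) (lam 2 p) / deN Y (lam 1 p) (lam 2 p)) := by
    intro p hp hdp
    have hp' := hp
    rw [hO] at hp'
    obtain ⟨o1, o2, o3⟩ := col_over hS hP hp'.1 hdp hp'.2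
    refine ⟨o1, fun hy => ?_⟩
    have hag := Col.agree hU hN3 hL hp' (M := fun j => M (p.1 - j * p.2, p.2)) rfl rfl
      (fun j hj1 hj2 => o2 j hj1 hj2) (fun j hj1 hj2 => o3 j hj2)
    have e1 := hag 1 le_rfl (by omega)
    have e2 := hag 2 (by omega) (by omega)
    have hn := o3 0 (by omega)
    have hn' : Y.node (lam 1 p) (M p) (lam 2 p) := by
      rw [← e1, ← e2]
      have e3 : p.1 - ((0 : ℕ) : ℂ) * p.2 = p.1 := by push_cast; ring
      rw [e3] at hn
      exact hn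
    have hs : Y.s (lam 2 p) (lam 1 p) ≠ 0 := fun h0 =>
      hL.ne 1 le_rfl (by omega) p hp'
        (hU.inj _ (hL.maps 2 (by omega) (by omega) hp') _ (hL.maps 1 le_rfl (by omega) hp') h0)
    exact node_value hon (Or.inl (hL.maps 1 le_rfl (by omega) hp')) (Or.inr (hS.maps o1))
      (Or.inl (hL.maps 2 (by omega) (by omega) hp')) hn' hs hy
  -- analyticity of numerator and denominator
  have han : ∀ p ∈ O, AnalyticAt ℂ (fun q => nuN Y (lam 1 q) (lam 2 q)) p ∧
      AnalyticAt ℂ (fun q => deN Y (lam 1 q) (lam 2 q)) p := by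
    intro p hp
    rw [hO] at hp
    have a1 := hL.an 1 le_rfl (by omega) p hp
    have a2 := hL.an 2 (by omega) (by omega) p hp
    have m1 := hL.maps 1 le_rfl (by omega) hp
    have m2 := hL.maps 2 (by omega) (by omega) hp
    obtain ⟨b1, b2, b3, b4⟩ := Sys.On.an isOpen_ball hU.on m1
    have b1' := AnalyticAt.fun_comp b1 a1
    have b2' := AnalyticAt.fun_comp b2 a1
    have b3' := AnalyticAt.fun_comp b3 a1
    have b4' := AnalyticAt.fun_comp b4 a1
    obtain ⟨k1, -, k3, -⟩ := Sys.On.an isOpen_ball hU.on m2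
    have k1' := AnalyticAt.fun_comp k1 a2
    have k3' := AnalyticAt.fun_comp k3 a2
    have s1 : AnalyticAt ℂ (fun q => Y.s (lam 2 q) (lam 1 q)) p := by
      unfold Sys.s
      exact (b1'.fun_mul k3').fun_sub (b3'.fun_mul k1')
    have c1 : AnalyticAt ℂ (fun q => Y.c (lam 2 q) (lam 1 q)) p := by
      unfold Sys.c
      exact (b4'.fun_mul k1').fun_sub (b2'.fun_mul k3')
    constructor
    · unfold nuN
      exact (b4'.fun_mul s1).fun_sub (b3'.fun_mul c1)
    · unfold deN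
      exact (b2'.fun_mul s1).fun_sub (b1'.fun_mul c1)
  -- the open set of the deep points
  have hdeep : IsOpen {p : ℂ × ℂ | p ∈ O ∧ 4 * C ^ 2 * r < dep h p.1} := by
    have h2 : Continuous fun p : ℂ × ℂ => dep h p.1 := by unfold dep; fun_prop
    exact hOo.inter (isOpen_lt continuous_const h2)
  -- the denominator is not locally zero
  have hden : ∀ p ∈ O, Den (fun q => deN Y (lam 1 q) (lam 2 q)) p := by
    intro p hp
    refine ⟨(han p hp).2, fun h0 => ?_⟩
    have h1 := AnalyticOnNhd.eqOn_zero_of_preconnected_of_eventuallyEq_zero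
      (f := fun q => deN Y (lam 1 q) (lam 2 q)) (fun q hq => (han q hq).2) hOc hp h0
    have hne : (Cap h C r d w).Nonempty := by
      rw [hO] at hp
      exact ⟨p.1, hp.1⟩
    obtain ⟨t, ht1, ht2⟩ := cap_deep hC1 hP hne
    have hdel : 0 < del C r := by
      unfold del
      have h3 : (0 : ℝ) < NN C := by
        have : 0 < NN C := by omega
        exact_mod_cast this
      have := hP.r_pos
      positivity
    have hmem : (t, I * (r : ℂ)) ∈ {p : ℂ × ℂ | p ∈ O ∧ 4 * C ^ 2 * r < dep h p.1} := by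
      refine ⟨?_, ht2⟩
      rw [hO]
      exact ⟨ht1, mem_ball_self hdel⟩
    have hD := den_y1 hS (key _ hmem.1 ht2).1
    obtain ⟨q, hq1, hq2⟩ := (hD.freq.and_eventually (hdeep.mem_nhds hmem)).exists
    exact ((key q hq2.1 hq2.2).2 hq1).1 (h1 hq2.1)
  rw [← hO]
  refine ⟨fun q => nuN Y (lam 1 q) (lam 2 q) / deN Y (lam 1 q) (lam 2 q), ?_, ?_⟩
  · intro p hp
    exact ⟨_, _, (han p hp).1, hden p hp, Eventually.of_forall fun q _ => rfl⟩
  · intro p hp hdp
    refine ⟨_, den_y1 hS (key p hp hdp).1, ?_⟩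
    filter_upwards [hdeep.mem_nhds (show p ∈ {p : ℂ × ℂ | p ∈ O ∧ 4 * C ^ 2 * r < dep h p.1} from
      ⟨hp, hdp⟩)] with q hq h0
    exact ((key q hq.1 hq.2).2 h0).2.symm

end Pool.Agent.MP_ae5b4e_an_NB2
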