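import Mathlib
import Pool.Agent.Lib.MP_ae5b4e_an_LU.CapExt

/-!
# MP_ae5b4e_an, Lemma U: the vertical directions (formula (2.22))
-/

noncomputable section

namespace Pool.Agent.MP_ae5b4e_an_NB2

open Complex Set Filter Topology Metric
open Pool.Agent.MP_ae5b4e_an_NBT (St Mer MerAt EqM)
open Pool.Agent.Lib.MP_ae5b4e_an_LL (ExtH hdom ExtR)

variable {Y : Sys} {h b l C R d r : ℝ} {M : ℂ × ℂ → ℂ} {w : ℂ}

private lemma del_pos (hr : 0 < r) : 0 < del C r := by
  unfold del
  have : (0 : ℝ) < NN C := by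
    have : 0 < NN C := by unfold NN; omega
    exact_mod_cast this
  positivity

private lemma del_le (hr : 0 < r) : del C r ≤ 0.00001 * r := by
  unfold del
  have : (1 : ℝ) ≤ NN C := by
    have : 1 ≤ NN C := by unfold NN; omega
    exact_mod_cast this
  exact div_le_self (by positivity) this

private lemma r_small (hS : Slope Y h b l C R M) (hP : Pos h b l C R d r w) :
    10 ^ 12 * C ^ 2 * r ≤ d ∧ 10 ^ 12 * C * r ≤ d ∧ 10 ^ 12 * r ≤ d := by
  have hC := hS.C_one
  have hr := hP.r_pos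
  have h1 := hP.r_le
  have h2 : C ≤ C ^ 4 := le_self_pow₀ hC (by norm_num)
  have h3 : C ^ 2 ≤ C ^ 4 := pow_le_pow_right₀ hC (by norm_num)
  have h4 : 1 ≤ C ^ 4 := one_le_pow₀ hC
  refine ⟨le_trans ?_ h1, le_trans ?_ h1, le_trans ?_ h1⟩
  · have := mul_le_mul_of_nonneg_right h3 hr.le
    nlinarith
  · have := mul_le_mul_of_nonneg_right h2 hr.le
    nlinarith
  · have := mul_le_mul_of_nonneg_right h4 hr.le
    nlinarith

private lemma mem_SReg_of (hS : Slope Y h b l C R M) (hP : Pos h b l C R d r w) {p : ℂ × ℂ}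
    (h1 : p.1 ∈ ball w (d + 0.04 * r)) (h2 : ‖p.2‖ ≤ 1.00001 * r)
    (h3 : 4 * C ^ 2 * r < dep h p.1) : p ∈ SReg h b l C R := by
  have hC := hS.C_one
  have hr := hP.r_pos
  obtain ⟨_, _, hrd⟩ := r_small hS hP
  have hre := hP.re
  have hle := hP.le
  have hleR := hP.leR
  have hd := hP.d_le
  have hd0 : 0 < d := by
    have : (0 : ℝ) < 10 ^ 12 * r := by positivity
    linarith
  rw [mem_ball, dist_eq_norm] at h1
  have e1 : |p.1.re - w.re| < d + 0.04 * r := by
    have := abs_re_le_norm (p.1 - w)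
    rw [sub_re] at this
    linarith
  have e2 : |p.1.im - w.im| < d + 0.04 * r := by
    have := abs_im_le_norm (p.1 - w)
    rw [sub_im] at this
    linarith
  rw [mem_SReg]
  refine ⟨?_, ?_, ?_, ?_⟩
  · have := abs_sub_le p.1.re w.re b
    linarith
  · unfold dep at *
    rw [abs_lt] at e2
    linarith [e2.1, e2.2]
  · refine lt_of_le_of_lt ?_ h3
    have h4 : C * ‖p.2‖ ≤ C * (1.00001 * r) := mul_le_mul_of_nonneg_left h2 (by linarith)
    have h5 : C * r ≤ C ^ 2 * r := by
      apply mul_le_mul_of_nonneg_right _ hr.le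
      nlinarith
    nlinarith [mul_pos (show (0:ℝ) < C by linarith) hr]
  · linarith

private lemma norm_le_of (hr : 0 < r) {η : ℂ} (hη : η ∈ ball (I * r) (del C r)) :
    ‖η‖ ≤ 1.00001 * r := by
  rw [mem_ball, dist_eq_norm] at hη
  have h1 := del_le (C := C) hr
  have h2 : ‖η‖ ≤ ‖η - I * r‖ + ‖I * (r : ℂ)‖ := by
    have := norm_add_le (η - I * r) (I * r)
    rwa [sub_add_cancel] at this
  have h3 : ‖I * (r : ℂ)‖ = r := by
    rw [norm_mul, Complex.norm_I, one_mul, Complex.norm_real, Real.norm_of_nonneg hr.le]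
  rw [h3] at h2
  linarith

private lemma cont_dep : Continuous fun p : ℂ × ℂ => dep h p.1 := by
  unfold dep
  fun_prop

/-- **the vertical direction** -/
theorem ext_up (hS : Slope Y h b l C R M) (hU : Uni Y w d) (hP : Pos h b l C R d r w) :
    ExtR (Fu Y M) w (d + 0.04 * r) (I * r) := by
  obtain ⟨G, hG1, hG2⟩ := cap_ext hS hU hP
  have hC := hS.C_one
  have hr := hP.r_pos
  have hC2 : 0 < C ^ 2 * r := by positivity
  have hF := mer_Fu hS
  classical
  -- the glued function
  set G' : ℂ × ℂ → ℂ := fun p => if dep h p.1 < 4.5 * C ^ 2 * r then G p else Fu Y M p with hG'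
  have hev1 : ∀ p : ℂ × ℂ, dep h p.1 < 4.5 * C ^ 2 * r → G' =ᶠ[𝓝 p] G := by
    intro p hp
    have : ∀ᶠ q : ℂ × ℂ in 𝓝 p, dep h q.1 < 4.5 * C ^ 2 * r :=
      cont_dep.continuousAt.eventually (gt_mem_nhds hp)
    filter_upwards [this] with q hq
    simp [hG', hq]
  have hev2 : ∀ p : ℂ × ℂ, 4.5 * C ^ 2 * r < dep h p.1 → G' =ᶠ[𝓝 p] Fu Y M := by
    intro p hp
    have : ∀ᶠ q : ℂ × ℂ in 𝓝 p, 4.5 * C ^ 2 * r < dep h q.1 :=
      cont_dep.continuousAt.eventually (lt_mem_nhds hp)
    filter_upwards [this] with q hq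
    simp only [hG']
    rw [if_neg (not_lt.mpr hq.le)]
  refine ⟨del C r, del_pos hr, G', ?_, ?_⟩
  · rintro p ⟨hp1, hp2⟩
    have hn := norm_le_of hr hp2
    by_cases h1 : dep h p.1 < 4.5 * C ^ 2 * r
    · have hcap : p.1 ∈ Cap h C r d w := ⟨hp1, by linarith⟩
      exact (hG1 p ⟨hcap, hp2⟩).congr (EqM.of_eventuallyEq (hev1 p h1).symm)
    · rw [not_lt] at h1
      have hreg : p ∈ SReg h b l C R := mem_SReg_of hS hP hp1 hn (by linarith)
      have hFp := hF p hreg
      by_cases h2 : dep h p.1 < 5 * C ^ 2 * r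
      · have hcap : p.1 ∈ Cap h C r d w := ⟨hp1, h2⟩
        obtain ⟨B, hB, hev⟩ := hG2 p ⟨hcap, hp2⟩ (by linarith)
        refine hFp.congr (EqM.symm ⟨B, hB, ?_⟩)
        filter_upwards [hev] with q hq h0
        simp only [hG']
        split_ifs
        · exact hq h0
        · rfl
      · exact hFp.congr (EqM.of_eventuallyEq (hev2 p (by linarith)).symm)
  · intro η' _
    apply EqM.of_eventuallyEq
    apply hev2
    show 4.5 * C ^ 2 * r < dep h w
    obtain ⟨h1, _, _⟩ := r_small hS hP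
    have := hP.d_le
    linarith

private def negSnd : (ℂ × ℂ) ≃ₜ (ℂ × ℂ) where
  toFun p := (p.1, -p.2)
  invFun p := (p.1, -p.2)
  left_inv p := by simp
  right_inv p := by simp
  continuous_toFun := by fun_prop
  continuous_invFun := by fun_prop

private lemma analyticAt_negSnd (p : ℂ × ℂ) : AnalyticAt ℂ negSnd p := by
  change AnalyticAt ℂ (fun p : ℂ × ℂ => (p.1, -p.2)) p
  exact AnalyticAt.prod analyticAt_fst analyticAt_snd.neg

/-- the opposite direction -/
theorem ext_down (hS : Slope Y h b l C R M) (hU : Uni Y w d) (hP : Pos h b l C R d r w) :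
    ExtR (Fu Y M) w (d + 0.04 * r) (-(I * r)) := by
  obtain ⟨δ, hδ, G, hG1, hG2⟩ := ext_up hS hU hP
  have hr := hP.r_pos
  have hd := del_pos (C := C) hr
  have hmem : ∀ η ∈ ball (-(I * r)) (min δ (del C r)),
      -η ∈ ball (I * r) δ ∧ -η ∈ ball (I * r) (del C r) := by
    intro η hη
    rw [mem_ball, dist_eq_norm, sub_neg_eq_add] at hη
    have e : ‖-η - I * r‖ = ‖η + I * r‖ := by
      rw [← norm_neg]
      congr 1
      ring
    rw [mem_ball, mem_ball, dist_eq_norm, e]
    exact ⟨hη.trans_le (min_le_left _ _), hη.trans_le (min_le_right _ _)⟩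
  refine ⟨min δ (del C r), lt_min hδ hd, fun p => G (negSnd p), ?_, ?_⟩
  · rintro p ⟨hp1, hp2⟩
    exact MerAt.comp negSnd (analyticAt_negSnd p) (hG1 (p.1, -p.2) ⟨hp1, (hmem p.2 hp2).1⟩)
  · intro η' hη'
    have h1 := EqM.comp negSnd (p := (w, η')) (analyticAt_negSnd _)
      (f := G) (g := Fu Y M) (hG2 (-η') (hmem η' hη').1)
    refine h1.trans (EqM.of_eventuallyEq ?_)
    have hreg : (w, η') ∈ SReg h b l C R := by
      apply mem_SReg_of hS hP
      · apply mem_ball_self
        obtain ⟨_, _, h3⟩ := r_small hS hP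
        have : (0 : ℝ) < 10 ^ 12 * r := by positivity
        linarith
      · have := norm_le_of hr (hmem η' hη').2
        rwa [norm_neg] at this
      · show 4 * C ^ 2 * r < dep h w
        obtain ⟨h1, _, _⟩ := r_small hS hP
        have := hP.d_le
        have hC := hS.C_one
        have hC2 : 0 < C ^ 2 * r := by positivity
        linarith
    filter_upwards [(isOpen_SReg h b l C R).mem_nhds hreg] with q hq
    show Fu Y M (q.1, -q.2) = Fu Y M q
    unfold Fu
    rw [hS.even q hq]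

end Pool.Agent.MP_ae5b4e_an_NB2
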