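import Mathlib
import Pool.Agent.Lib.MP_ae5b4e_an_LL.Gain
import Pool.Agent.Lib.MP_ae5b4e_an_LU.ExtUp
import Pool.Agent.Lib.MP_ae5b4e_an_LU.AllDir
import Pool.Agent.Lib.MP_ae5b4e_an_LU.Bridge

/-!
# MP_ae5b4e_an, Theorem U (formula (2.26))
-/

noncomputable section

namespace Pool.Agent.MP_ae5b4e_an_NB2

open Complex Set Filter Topology Metric
open Pool.Agent.MP_ae5b4e_an_NBT (St Mer MerAt EqM)
open Pool.Agent.Lib.MP_ae5b4e_an_LL (ExtH hdom ExtR prad SubH)

/-- the radius of extension satisfies the hypotheses of the log gain lemma -/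
private lemma tu_gain {Y : Sys} {h b l C R : ℝ} {M : ℂ × ℂ → ℂ} {w : ℂ} {ε D d : ℝ} (hC : 1 ≤ C)
    (hS : Slope Y h b l C R M) (hN : NBArc Y h b l M) (hD : D = dep h w) (hD0 : 0 < D)
    (hw : |w.re - b| < l / 4) (hDl : D ≤ l / 20) (hDR : D ≤ R) (hε : 0 < ε) (hε1 : ε ≤ 1)
    (hd : d = D / (1 + ε)) (hU : Uni Y w d) (h01 : 50 * ε * d < d / (10 ^ 12 * C ^ 4)) :
    Real.log ((d / (10 ^ 12 * C ^ 4)) / (50 * ε * d)) ≤ 8 + 302 * C := by
  have hC0 : 0 < C := by linarith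
  have hdD : (1 + ε) * d = D := by rw [hd]; field_simp
  have hd0 : 0 < d := by rw [hd]; positivity
  have hdle : d ≤ D := by nlinarith
  have hle2 : D ≤ 2 * d := by nlinarith
  obtain ⟨r₁, hr₁⟩ : ∃ r₁ : ℝ, r₁ = d / (10 ^ 12 * C ^ 4) := ⟨_, rfl⟩
  obtain ⟨r₀, hr₀⟩ : ∃ r₀ : ℝ, r₀ = 50 * ε * d := ⟨_, rfl⟩
  rw [← hr₁, ← hr₀] at h01 ⊢
  have hr₀0 : 0 < r₀ := by rw [hr₀]; positivity
  have hr₁0 : 0 < r₁ := hr₀0.trans h01
  have hC4 : C ≤ C ^ 4 := by
    calc C = C ^ 1 := (pow_one C).symm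
      _ ≤ C ^ 4 := pow_le_pow_right₀ hC (by norm_num)
  have hr₁d : 10 ^ 12 * C ^ 4 * r₁ = d := by rw [hr₁]; field_simp
  have hr₁C : 10 ^ 12 * (C * r₁) ≤ d := by
    rw [← hr₁d]
    nlinarith
  have hCr : C * r₁ ≤ d / 100 := by linarith
  have hr₁R : r₁ ≤ d / 100 := by nlinarith
  have h1C4 : 1 ≤ C ^ 4 := one_le_pow₀ hC
  set P : ℝ → ℂ → Prop := ExtR (Fu Y M) w with hP
  have hY : 0 < 2 * D := by linarith
  have hext : ∀ η : ℂ, ‖η‖ < r₁ → ∀ s < D - C * ‖η‖, P s η := by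
    intro η hη s hs
    have h1 : C * ‖η‖ ≤ C * r₁ := mul_le_mul_of_nonneg_left hη.le hC0.le
    refine ext_all hS hw (by rw [← hD]; exact hD0) (by rw [← hD]; exact hDl) ?_ ?_ ?_
    · rw [← hD]; linarith
    · linarith
    · rw [← hD]; exact hs
  have hex : ∀ η ∈ ball (0:ℂ) r₁, ∃ s > 0, P s η := by
    intro η hη
    rw [mem_ball_zero_iff] at hη
    have h1 : C * ‖η‖ ≤ C * r₁ := mul_le_mul_of_nonneg_left hη.le hC0.le
    exact ⟨D / 2, by linarith, hext η hη _ (by linarith)⟩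
  have hDP := Pool.Agent.Lib.MP_ae5b4e_an_LL.discP_extR (F := Fu Y M) (t₁ := w)
    (V := ball (0:ℂ) r₁) isOpen_ball hex
  set u : ℂ → ℝ := fun η => -Real.log (prad P (2 * D) η) + Real.log D with hu
  have hsub : SubH u (ball 0 r₁) := (hDP.subH_neg_log hY).add_const _
  have hpos : ∀ η : ℂ, ‖η‖ < r₁ → 0 < prad P (2 * D) η := fun η hη =>
    hDP.prad_pos (mem_ball_zero_iff.2 hη) hY
  have hlow : ∀ η : ℂ, ‖η‖ < r₁ → D - C * ‖η‖ ≤ prad P (2 * D) η := by
    intro η hη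
    have h1 : C * ‖η‖ ≤ C * r₁ := mul_le_mul_of_nonneg_left hη.le hC0.le
    refine le_of_forall_lt fun s hs => ?_
    have h2 : max s (D / 2) < D - C * ‖η‖ := max_lt hs (by linarith)
    obtain ⟨s', hs1, hs2⟩ := exists_between h2
    have h3 : 0 < s' := by
      have := le_max_right s (D / 2)
      linarith
    refine lt_of_lt_of_le ((le_max_left _ _).trans_lt hs1) ?_
    refine Pool.Agent.Lib.MP_ae5b4e_an_LL.le_prad h3 ?_ (hext η hη s' hs2)
    have := mul_nonneg hC0.le (norm_nonneg η)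
    linarith
  -- at the origin
  have hu0 : 0 ≤ u 0 := by
    have h1 : prad P (2 * D) 0 ≤ D := by
      obtain ⟨s, hs, hsY, h⟩ := hDP.exists_mem (mem_ball_self hr₁0) hY
      refine csSup_le ⟨s, hs, hsY, h⟩ ?_
      rintro s' ⟨-, -, h3⟩
      have := ext_zero hS hN hw (by rw [← hD]; exact hD0) (by rw [← hD]; exact hDl) h3
      rwa [← hD] at this
    have h2 := Real.log_le_log (hpos 0 (by simpa using hr₁0)) h1
    simp only [hu]
    linarith
  -- all directions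
  have huA : ∀ η : ℂ, ‖η‖ < r₁ → u η ≤ 2 * C / D * ‖η‖ := by
    intro η hη
    have h1 : C * ‖η‖ ≤ C * r₁ := mul_le_mul_of_nonneg_left hη.le hC0.le
    obtain ⟨x, hx⟩ : ∃ x : ℝ, x = C * ‖η‖ / D := ⟨_, rfl⟩
    have hxD : x * D = C * ‖η‖ := by rw [hx]; field_simp
    have hx0 : 0 ≤ x := by rw [hx]; positivity
    have hx1 : x ≤ 1 / 2 := by
      rw [hx, div_le_iff₀ hD0]
      linarith
    have h2 : Real.log (D * (1 - x)) ≤ Real.log (prad P (2 * D) η) := by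
      refine Real.log_le_log (mul_pos hD0 (by linarith)) ?_
      have := hlow η hη
      have e : D * (1 - x) = D - C * ‖η‖ := by rw [mul_sub, mul_one, mul_comm D x, hxD]
      rw [e]
      exact this
    rw [Real.log_mul hD0.ne' (by linarith)] at h2
    have h3 := Real.one_sub_inv_le_log_of_pos (by linarith : 0 < 1 - x)
    have h4 : (1 - x)⁻¹ ≤ 1 + 2 * x := by
      rw [inv_le_iff_one_le_mul₀ (by linarith)]
      nlinarith
    have h5 : 2 * C / D * ‖η‖ = 2 * x := by rw [hx]; ring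
    rw [h5]
    simp only [hu]
    linarith
  -- the vertical directions
  have huc : ∀ ζ : ℂ, ζ.re = 0 → r₀ ≤ ‖ζ‖ → ‖ζ‖ < r₁ → u ζ ≤ -(0.0199 / D) * ‖ζ‖ := by
    intro ζ hζ h1 h2
    obtain ⟨r, hr⟩ : ∃ r : ℝ, r = ‖ζ‖ := ⟨_, rfl⟩
    rw [← hr] at h1 h2
    have hr0 : 0 < r := lt_of_lt_of_le hr₀0 h1
    have hpos' : Pos h b l C R d r w := by
      refine ⟨hw, by rw [← hD]; exact hDl, by rw [← hD]; exact hDR, by rw [← hD]; exact hdle,
        by rw [← hD]; exact hle2, hr0, ?_⟩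
      rw [← hr₁d]
      exact mul_le_mul_of_nonneg_left h2.le (by positivity)
    have hζ' : ζ = I * r ∨ ζ = -(I * r) := by
      have e1 : ‖ζ‖ = |ζ.im| := by
        rw [← Complex.re_add_im ζ, hζ]
        simp
      rw [← hr] at e1
      rcases abs_choice ζ.im with h3 | h3
      · left
        apply Complex.ext
        · simp [hζ]
        · simp [e1, h3]
      · right
        apply Complex.ext
        · simp [hζ]
        · simp [e1, h3]
    have hex' : P (d + 0.04 * r) ζ := by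
      rcases hζ' with h3 | h3
      · rw [h3]; exact ext_up hS hU hpos'
      · rw [h3]; exact ext_down hS hU hpos'
    have hrd : r ≤ d / 100 := by linarith
    have h3 : d + 0.04 * r ≤ prad P (2 * D) ζ :=
      Pool.Agent.Lib.MP_ae5b4e_an_LL.le_prad (by positivity) (by linarith) hex'
    obtain ⟨x, hx⟩ : ∃ x : ℝ, x = 0.04 * r / d := ⟨_, rfl⟩
    have hx0 : 0 < x := by rw [hx]; positivity
    have hxd : d * x = 0.04 * r := by rw [hx]; field_simp
    have hx1 : x ≤ 0.0004 := by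
      rw [hx, div_le_iff₀ hd0]
      linarith
    have h4 : Real.log d + Real.log (1 + x) ≤ Real.log (prad P (2 * D) ζ) := by
      rw [← Real.log_mul hd0.ne' (by linarith)]
      refine Real.log_le_log (by positivity) ?_
      rw [mul_add, mul_one, hxd]
      exact h3
    have h5 : Real.log D = Real.log (1 + ε) + Real.log d := by
      rw [← hdD, Real.log_mul (by linarith) hd0.ne']
    have h6 : Real.log (1 + ε) ≤ ε := by
      have := Real.log_le_sub_one_of_pos (by linarith : 0 < 1 + ε)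
      linarith
    have h7 : 0.9995 * x ≤ Real.log (1 + x) := by
      have h8 := Real.one_sub_inv_le_log_of_pos (by linarith : 0 < 1 + x)
      have h9 : (1 + x)⁻¹ ≤ 1 - 0.9995 * x := by
        rw [inv_le_iff_one_le_mul₀ (by linarith)]
        nlinarith
      linarith
    have h8 : ε ≤ 0.02 * r / d := by
      rw [le_div_iff₀ hd0]
      rw [hr₀] at h1
      linarith
    have h9 : 0.0199 / D * r ≤ 0.0199 * r / d := by
      rw [div_mul_eq_mul_div]
      exact div_le_div_of_nonneg_left (by positivity) hd0 hdle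
    have h10 : 0.9995 * x = 0.03998 * (r / d) := by rw [hx]; ring
    have h11 : 0.02 * r / d = 0.02 * (r / d) := by ring
    have h12 : 0.0199 * r / d = 0.0199 * (r / d) := by ring
    have h13 : 0 < r / d := by positivity
    rw [← hr]
    simp only [hu]
    rw [h11] at h8
    rw [h12] at h9
    rw [h10] at h7
    linarith
  have key := Pool.Agent.Lib.MP_ae5b4e_an_LL.log_gain (u := u) (A := 2 * C / D)
    (c := 0.0199 / D) (by positivity) (by positivity) hr₀0 h01 hsub hu0 huA huc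
  have e1 : (2 * C / D + 0.0199 / D) / (0.0199 / D) = 1 + 2 * C / 0.0199 := by
    field_simp
    ring
  rw [e1] at key
  have e2 : 2 * C / 0.0199 ≤ 100.6 * C := by
    rw [div_le_iff₀ (by norm_num)]
    nlinarith
  linarith

/-- Theorem U for a controlled label -/
theorem not_uni_of_slope {C : ℝ} (hC : 1 ≤ C) : ∃ ε > 0, ∀ (Y : Sys) (h b l R : ℝ)
    (M : ℂ × ℂ → ℂ), Slope Y h b l C R M → NBArc Y h b l M → ∃ D₀ > 0, ∀ w : ℂ,
      |w.re - b| < l / 4 → 0 < dep h w → dep h w < D₀ → ¬ Uni Y w (dep h w / (1 + ε)) := by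
  have hC0 : 0 < C := by linarith
  obtain ⟨X, hX⟩ : ∃ X : ℝ, X = Real.exp (8 + 302 * C) := ⟨_, rfl⟩
  have hX1 : 1 ≤ X := by
    rw [hX]
    exact Real.one_le_exp (by linarith)
  have hC4 : 1 ≤ C ^ 4 := one_le_pow₀ hC
  obtain ⟨ε, hε⟩ : ∃ ε : ℝ, ε = 1 / (10 ^ 14 * C ^ 4 * X) := ⟨_, rfl⟩
  have hden : 1 ≤ 10 ^ 14 * C ^ 4 * X := by
    have : 1 ≤ C ^ 4 * X := one_le_mul_of_one_le_of_one_le hC4 hX1
    nlinarith
  have hε0 : 0 < ε := by rw [hε]; positivity
  have hε1 : ε ≤ 1 := by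
    rw [hε, div_le_one (by linarith)]
    exact hden
  have hεX : ε * (10 ^ 14 * C ^ 4 * X) = 1 := by
    rw [hε]
    field_simp
  refine ⟨ε, hε0, fun Y h b l R M hS hN => ⟨min (l / 20) R, lt_min (by linarith [hS.l_pos])
    hS.R_pos, fun w hw hw0 hwD hU => ?_⟩⟩
  obtain ⟨D, hD⟩ : ∃ D : ℝ, D = dep h w := ⟨_, rfl⟩
  rw [← hD] at hw0 hwD hU
  have hd0 := hU.pos
  obtain ⟨d, hd⟩ : ∃ d : ℝ, d = D / (1 + ε) := ⟨_, rfl⟩
  rw [← hd] at hU hd0
  have e1 : (d / (10 ^ 12 * C ^ 4)) / (50 * ε * d) = 2 * X := by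
    have h1 : 50 * ε * d * (2 * X) * (10 ^ 12 * C ^ 4) = d := by
      calc 50 * ε * d * (2 * X) * (10 ^ 12 * C ^ 4) = (ε * (10 ^ 14 * C ^ 4 * X)) * d := by ring
        _ = d := by rw [hεX, one_mul]
    rw [div_eq_iff (by positivity), div_eq_iff (by positivity)]
    linarith
  have h01 : 50 * ε * d < d / (10 ^ 12 * C ^ 4) := by
    have h2 : d / (10 ^ 12 * C ^ 4) = 2 * X * (50 * ε * d) := by
      rw [← e1]
      field_simp
    rw [h2]
    have : 0 < 50 * ε * d := by positivity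
    nlinarith
  have key := tu_gain hC hS hN hD hw0 hw ((hwD.trans_le (min_le_left _ _)).le)
    ((hwD.trans_le (min_le_right _ _)).le) hε0 hε1 hd hU h01
  rw [e1] at key
  have h3 : Real.log (2 * X) = Real.log 2 + (8 + 302 * C) := by
    rw [Real.log_mul (by norm_num) (by positivity), hX, Real.log_exp]
  rw [h3] at key
  have := Real.log_pos (by norm_num : (1:ℝ) < 2)
  linarith

/-- **Theorem U** -/
theorem not_uni {q : ℝ} (hq : 1 ≤ q) : ∃ ε > 0, ∀ (Y : Sys) (h : ℝ) (L : ℂ × ℂ → ℂ) (b l : ℝ),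
    Lab Y h L → Arc Y h b l q → NBArc Y h b l L → ∃ D₀ > 0, ∀ w : ℂ, |w.re - b| < l / 4 →
      0 < dep h w → dep h w < D₀ → ¬ Uni Y w (dep h w / (1 + ε)) := by
  obtain ⟨C, hC, H⟩ := exists_slope hq
  obtain ⟨ε, hε, H2⟩ := not_uni_of_slope hC
  refine ⟨ε, hε, fun Y h L b l hL hA hN => ?_⟩
  obtain ⟨R, M, hS, hM⟩ := H Y h L b l hL hA
  refine H2 Y h b l R M hS ?_
  rintro β hβ hβh ⟨δ, hδ, g, hg, t₁, ht₁, h1, h2, h3, h4⟩
  refine hN β hβ hβh ⟨δ, hδ, g, hg, t₁, ht₁, h1, h2, h3, h4.trans ?_⟩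
  refine EqM.of_eventuallyEq ?_
  filter_upwards [hM t₁ h1 h2 h3] with p hp
  show Y.y2 (M p) / Y.y1 (M p) = Y.y2 (L p) / Y.y1 (L p)
  rw [hp]

end Pool.Agent.MP_ae5b4e_an_NB2
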