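import Mathlib
import Pool.Agent.Lib.MP_ae5b4e_an_LU.TU

/-!
# MP_ae5b4e_an, consequences of Theorem U (formulas (2.30), (2.31))
-/

noncomputable section

namespace Pool.Agent.MP_ae5b4e_an_NB2

open Complex Set Filter Topology Metric

/-- a solution of `f'' = A f`, `|A| ≤ κ`, with `f 0 = 0`, `|f' 0| = 1` does not vanish at `T` if
`κ T ^ 2 < 1` -/
private theorem ne_of_small {T κ : ℝ} (hT : 0 < T) (hκ : 0 ≤ κ) (hκT : κ * T ^ 2 < 1)
    {f f1 f2 : ℝ → ℂ} {e : ℂ} (he : ‖e‖ = 1) (h0 : f 0 = 0) (h1 : f1 0 = e)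
    (hf : ∀ x ∈ Icc 0 T, HasDerivAt f (f1 x) x) (hf1 : ∀ x ∈ Icc 0 T, HasDerivAt f1 (f2 x) x)
    (hb : ∀ x ∈ Icc 0 T, ‖f2 x‖ ≤ κ * ‖f x‖) : f T ≠ 0 := by
  have hc : ContinuousOn f (Icc 0 T) := fun x hx => (hf x hx).continuousAt.continuousWithinAt
  obtain ⟨x₀, hx₀, hmax⟩ := isCompact_Icc.exists_isMaxOn
    (nonempty_Icc.mpr hT.le) hc.norm
  set m : ℝ := ‖f x₀‖ with hm
  have hm0 : 0 ≤ m := norm_nonneg _
  have hmx : ∀ x ∈ Icc 0 T, ‖f x‖ ≤ m := fun x hx => hmax hx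
  have s1 : ∀ x ∈ Icc 0 T, ‖f1 x - e‖ ≤ κ * m * x := by
    intro x hx
    have h := norm_image_sub_le_of_norm_deriv_le_segment' (f := f1) (f' := f2) (a := 0) (b := T)
      (C := κ * m) (fun y hy => (hf1 y hy).hasDerivWithinAt)
      (fun y hy => (hb y ⟨hy.1, hy.2.le⟩).trans
        (mul_le_mul_of_nonneg_left (hmx y ⟨hy.1, hy.2.le⟩) hκ)) x hx
    rwa [h1, sub_zero] at h
  have s2 : ∀ x ∈ Icc 0 T, ‖f x - e * x‖ ≤ κ * m * (x ^ 2 / 2) := by
    intro x hx
    have h := image_norm_le_of_norm_deriv_right_le_deriv_boundary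
      (f := fun x : ℝ => f x - e * x) (f' := fun x => f1 x - e) (a := 0) (b := T)
      (B := fun x => κ * m * (x ^ 2 / 2)) (B' := fun x => κ * m * x)
      (hc.sub (by fun_prop))
      (fun y hy => by
        have h2 : HasDerivAt (fun x : ℝ => e * (x : ℂ)) e y := by
          simpa using (Complex.ofRealCLM.hasDerivAt (x := y)).const_mul e
        exact ((hf y ⟨hy.1, hy.2.le⟩).sub h2).hasDerivWithinAt)
      (by simp [h0])
      (fun y => by
        have h3 := ((hasDerivAt_pow 2 y).div_const 2).const_mul (κ * m)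
        refine h3.congr_deriv ?_
        simp)
      (fun y hy => s1 y ⟨hy.1, hy.2.le⟩) hx
    exact h
  have hm2 : m ≤ 2 * T := by
    have h2 := s2 x₀ hx₀
    have h3 : m ≤ ‖f x₀ - e * x₀‖ + ‖e * (x₀ : ℂ)‖ := by
      calc m = ‖(f x₀ - e * x₀) + e * x₀‖ := by rw [sub_add_cancel]
        _ ≤ _ := norm_add_le _ _
    have h4 : ‖e * (x₀ : ℂ)‖ = x₀ := by
      rw [norm_mul, he, one_mul, Complex.norm_real, Real.norm_of_nonneg hx₀.1]
    have h5 : x₀ ^ 2 ≤ T ^ 2 := pow_le_pow_left₀ hx₀.1 hx₀.2 2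
    have h6 : κ * m * (x₀ ^ 2 / 2) ≤ m / 2 := by
      calc κ * m * (x₀ ^ 2 / 2) ≤ κ * m * (T ^ 2 / 2) := by
            refine mul_le_mul_of_nonneg_left (by linarith) (mul_nonneg hκ hm0)
        _ = m / 2 * (κ * T ^ 2) := by ring
        _ ≤ m / 2 * 1 := mul_le_mul_of_nonneg_left hκT.le (by linarith)
        _ = m / 2 := mul_one _
    have h7 := hx₀.2
    linarith
  intro hz
  have h2 := s2 T ⟨hT.le, le_rfl⟩
  rw [hz, zero_sub, norm_neg, norm_mul, he, one_mul, Complex.norm_real,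
    Real.norm_of_nonneg hT.le] at h2
  have h3 : κ * m * (T ^ 2 / 2) ≤ κ * T ^ 2 * T := by
    calc κ * m * (T ^ 2 / 2) = κ * T ^ 2 / 2 * m := by ring
      _ ≤ κ * T ^ 2 / 2 * (2 * T) := mul_le_mul_of_nonneg_left hm2 (by positivity)
      _ = _ := by ring
  have h4 : κ * T ^ 2 * T < 1 * T := mul_lt_mul_of_pos_right hκT hT
  linarith

/-- a small potential on a disc makes the limit curve univalent there -/
theorem uni_of_small {Y : Sys} {w : ℂ} {d : ℝ} (hd : 0 < d) (hY : Y.On (ball w d))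
    (hQ : ∀ z ∈ ball w d, ‖Y.Q z‖ * (4 * d ^ 2) ≤ 1) : Uni Y w d := by
  refine ⟨hd, hY, fun u hu v hv h => ?_⟩
  by_contra huv
  have hne : u - v ≠ 0 := sub_ne_zero.mpr huv
  set T : ℝ := ‖u - v‖ with hT
  have hT0 : 0 < T := norm_pos_iff.mpr hne
  have hTC : (T : ℂ) ≠ 0 := by exact_mod_cast hT0.ne'
  set e : ℂ := (u - v) / T with he
  have he1 : ‖e‖ = 1 := by
    rw [he, norm_div, Complex.norm_real, Real.norm_of_nonneg hT0.le, ← hT, div_self hT0.ne']
  have hT2 : T < 2 * d := by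
    have h1 := mem_ball.mp hu
    have h2 := mem_ball'.mp hv
    have h3 : dist u v ≤ dist u w + dist w v := dist_triangle _ _ _
    rw [dist_eq_norm] at h3
    linarith
  have hin : ∀ x ∈ Icc 0 T, v + x * e ∈ ball w d := by
    intro x hx
    have h1 : v + x * e ∈ segment ℝ v u := by
      rw [segment_eq_image']
      refine ⟨x / T, ⟨div_nonneg hx.1 hT0.le, (div_le_one hT0).mpr hx.2⟩, ?_⟩
      show v + (x / T) • (u - v) = v + x * e
      rw [he, Complex.real_smul]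
      push_cast
      ring
    exact (convex_ball w d).segment_subset hv hu h1
  have hd2 : 0 < 4 * d ^ 2 := by positivity
  have haff : ∀ x : ℝ, HasDerivAt (fun x : ℝ => v + (x : ℂ) * e) e x := by
    intro x
    simpa using ((Complex.ofRealCLM.hasDerivAt (x := x)).mul_const e).const_add v
  have key : ∀ x ∈ Icc 0 T,
      HasDerivAt (fun x : ℝ => Y.s (v + x * e) v)
        ((Y.y1 v * Y.y2' (v + x * e) - Y.y2 v * Y.y1' (v + x * e)) * e) x := by
    intro x hx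
    have h1 := (hY.d1 _ (hin x hx)).comp x (haff x)
    have h2 := (hY.d2 _ (hin x hx)).comp x (haff x)
    refine ((h2.const_mul (Y.y1 v)).sub (h1.const_mul (Y.y2 v))).congr_deriv ?_
    ring
  have key1 : ∀ x ∈ Icc 0 T,
      HasDerivAt (fun x : ℝ => (Y.y1 v * Y.y2' (v + x * e) - Y.y2 v * Y.y1' (v + x * e)) * e)
        (-(Y.Q (v + x * e) * Y.s (v + x * e) v) * e ^ 2) x := by
    intro x hx
    have h1 := (hY.d1' _ (hin x hx)).comp x (haff x)
    have h2 := (hY.d2' _ (hin x hx)).comp x (haff x)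
    refine (((h2.const_mul (Y.y1 v)).sub (h1.const_mul (Y.y2 v))).mul_const e).congr_deriv ?_
    rw [Sys.s]
    ring
  have hκT : 1 / (4 * d ^ 2) * T ^ 2 < 1 := by
    rw [one_div, inv_mul_lt_iff₀ hd2, mul_one]
    have h1 : T ^ 2 < (2 * d) ^ 2 := pow_lt_pow_left₀ hT2 hT0.le two_ne_zero
    calc T ^ 2 < (2 * d) ^ 2 := h1
      _ = 4 * d ^ 2 := by ring
  refine ne_of_small hT0 (κ := 1 / (4 * d ^ 2)) (by positivity) hκT he1 ?_ ?_ key key1 ?_ ?_
  · show Y.s (v + ((0 : ℝ) : ℂ) * e) v = 0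
    rw [Complex.ofReal_zero, zero_mul, add_zero, Sys.s]
    ring
  · show (Y.y1 v * Y.y2' (v + ((0 : ℝ) : ℂ) * e) - Y.y2 v * Y.y1' (v + ((0 : ℝ) : ℂ) * e)) * e = e
    rw [Complex.ofReal_zero, zero_mul, add_zero]
    have h1 := hY.wr v hv
    have h2 : Y.y1 v * Y.y2' v - Y.y2 v * Y.y1' v = 1 := by
      rw [← h1]
      ring
    rw [h2, one_mul]
  · intro x hx
    show ‖-(Y.Q (v + x * e) * Y.s (v + x * e) v) * e ^ 2‖ ≤
      1 / (4 * d ^ 2) * ‖Y.s (v + x * e) v‖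
    rw [norm_mul, norm_neg, norm_mul, norm_pow, he1, one_pow, mul_one]
    refine mul_le_mul_of_nonneg_right ?_ (norm_nonneg _)
    rw [le_div_iff₀ hd2]
    exact hQ _ (hin x hx)
  · show Y.s (v + (T : ℂ) * e) v = 0
    have h1 : v + (T : ℂ) * e = u := by
      rw [he, mul_div_cancel₀ _ hTC]
      ring
    rw [h1, h]

/-- points near `w` -/
private theorem dep_near {h r : ℝ} {w z : ℂ} (hz : z ∈ ball w r) :
    dep h w - r < dep h z ∧ dep h z < dep h w + r ∧ |z.re - w.re| < r := by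
  have h1 : ‖z - w‖ < r := by rwa [← dist_eq_norm]
  have h2 := (Complex.abs_im_le_norm (z - w)).trans_lt h1
  have h3 := (Complex.abs_re_le_norm (z - w)).trans_lt h1
  rw [Complex.sub_im] at h2
  rw [Complex.sub_re] at h3
  rw [abs_lt] at h2
  refine ⟨?_, ?_, h3⟩ <;> rw [dep, dep] <;> linarith [h2.1, h2.2]

private theorem ball_strip {h r : ℝ} {w : ℂ} (hr : r ≤ dep h w) (hw : dep h w < h) :
    ball w r ⊆ Pool.Agent.MP_ae5b4e_an_NBT.St (-h) h := by
  intro z hz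
  obtain ⟨h1, h2, -⟩ := dep_near (h := h) hz
  rw [dep, dep] at h1 h2
  rw [dep] at hr hw
  show -h < z.im ∧ z.im < h
  constructor <;> linarith

private theorem On.mono' {Y : Sys} {S T : Set ℂ} (h : Y.On T) (hST : S ⊆ T) : Y.On S :=
  ⟨fun z hz => h.d1 z (hST hz), fun z hz => h.d1' z (hST hz), fun z hz => h.d2 z (hST hz),
    fun z hz => h.d2' z (hST hz), fun z hz => h.wr z (hST hz)⟩

/-- (2.31): the windows are never flat -/
theorem exists_large {q : ℝ} (hq : 1 ≤ q) : ∃ θ : ℝ, 0 < θ ∧ θ < 1 ∧ ∀ (Y : Sys) (h : ℝ)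
    (L : ℂ × ℂ → ℂ) (b l : ℝ), Lab Y h L → Arc Y h b l q → NBArc Y h b l L → ∃ D₀ > 0, ∀ w : ℂ,
      |w.re - b| < l / 4 → 0 < dep h w → dep h w < D₀ →
      ∃ z ∈ ball w (θ * dep h w), 1 < ‖Y.Q z‖ * (4 * dep h w ^ 2) := by
  obtain ⟨ε, hε, H⟩ := not_uni hq
  have hθ0 : (0 : ℝ) < 1 / (1 + ε) := by positivity
  have hθ1 : 1 / (1 + ε) < 1 := by
    rw [div_lt_one (by linarith)]
    linarith
  refine ⟨1 / (1 + ε), hθ0, hθ1, ?_⟩
  intro Y h L b l hL hA hN
  obtain ⟨D₀, hD₀, H1⟩ := H Y h L b l hL hA hN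
  refine ⟨min D₀ h, lt_min hD₀ hL.h_pos, ?_⟩
  intro w hw hw0 hwD
  have hwD1 := hwD.trans_le (min_le_left _ _)
  have hwD2 := hwD.trans_le (min_le_right _ _)
  by_contra hcon
  push Not at hcon
  have hle : 1 / (1 + ε) * dep h w ≤ dep h w := by
    calc 1 / (1 + ε) * dep h w ≤ 1 * dep h w := mul_le_mul_of_nonneg_right hθ1.le hw0.le
      _ = dep h w := one_mul _
  refine H1 w hw hw0 hwD1 ?_
  have heq : dep h w / (1 + ε) = 1 / (1 + ε) * dep h w := by ring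
  rw [heq]
  refine uni_of_small (mul_pos hθ0 hw0) (On.mono' hL.on (ball_strip hle hwD2)) ?_
  intro z hz
  refine le_trans ?_ (hcon z hz)
  refine mul_le_mul_of_nonneg_left ?_ (norm_nonneg _)
  have h2 : (1 / (1 + ε) * dep h w) ^ 2 ≤ dep h w ^ 2 :=
    pow_le_pow_left₀ (mul_pos hθ0 hw0).le hle 2
  linarith

/-- (2.30): two labels with the same value of the limit curve, at a definite hyperbolic distance -/
theorem exists_pair {q : ℝ} (hq : 1 ≤ q) : ∃ θ c : ℝ, 0 < θ ∧ θ < 1 ∧ 0 < c ∧ ∀ (Y : Sys) (h : ℝ)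
    (L : ℂ × ℂ → ℂ) (b l : ℝ), Lab Y h L → Arc Y h b l q → NBArc Y h b l L → ∃ D₀ > 0, ∀ w : ℂ,
      |w.re - b| < l / 4 → 0 < dep h w → dep h w < D₀ →
      ∃ u ∈ ball w (θ * dep h w), ∃ v ∈ ball w (θ * dep h w), Y.s u v = 0 ∧
        c * dep h w ≤ ‖u - v‖ := by
  obtain ⟨ε, hε, H⟩ := not_uni hq
  have hθ0 : (0 : ℝ) < 1 / (1 + ε) := by positivity
  have hθ1 : 1 / (1 + ε) < 1 := by
    rw [div_lt_one (by linarith)]
    linarith
  set θ : ℝ := 1 / (1 + ε) with hθ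
  have hq0 : 0 < q := by linarith
  have hc0 : 0 < (1 - θ) / (16 * q) := div_pos (by linarith) (by linarith)
  set c : ℝ := (1 - θ) / (16 * q) with hc
  have hc1 : 16 * q * c = 1 - θ := by
    rw [hc]
    field_simp
  refine ⟨θ, c, hθ0, hθ1, hc0, ?_⟩
  intro Y h L b l hL hA hN
  obtain ⟨D₀, hD₀, H1⟩ := H Y h L b l hL hA hN
  have hl := hA.l_pos
  refine ⟨min D₀ (l / 4), lt_min hD₀ (by linarith), ?_⟩
  intro w hw hw0 hwD
  have hwD1 := hwD.trans_le (min_le_left _ _)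
  have hwD2 := hwD.trans_le (min_le_right _ _)
  have hlh := hA.l_le
  set D : ℝ := dep h w with hD
  have hwD3 : D < h := by linarith
  have hle : θ * D ≤ D := by
    calc θ * D ≤ 1 * D := mul_le_mul_of_nonneg_right hθ1.le hw0.le
      _ = D := one_mul _
  have hnu := H1 w hw hw0 hwD1
  have heq : D / (1 + ε) = θ * D := by
    rw [hθ]
    ring
  rw [heq] at hnu
  have hex : ∃ u ∈ ball w (θ * D), ∃ v ∈ ball w (θ * D), Y.s u v = 0 ∧ u ≠ v := by
    by_contra hcon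
    push Not at hcon
    exact hnu ⟨mul_pos hθ0 hw0, On.mono' hL.on (ball_strip hle hwD3),
      fun u hu v hv hs => hcon u hu v hv hs⟩
  obtain ⟨u, hu, v, hv, hs, huv⟩ := hex
  refine ⟨u, hu, v, hv, hs, ?_⟩
  by_contra hlt
  push Not at hlt
  -- the disc about `u`
  have hcD : 0 < c * D := mul_pos hc0 hw0
  have hq16 : c * 16 ≤ 1 - θ := by
    rw [← hc1]
    nlinarith
  have hsub : ∀ z ∈ ball u (c * D), z ∈ ball w ((θ + c) * D) := by
    intro z hz
    rw [mem_ball] at hz hu ⊢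
    have := dist_triangle z u w
    nlinarith
  have hc4 : θ + c < 1 := by linarith
  have hr1 : (θ + c) * D ≤ D := by nlinarith
  have hon : Y.On (ball u (c * D)) := by
    refine On.mono' hL.on fun z hz => ?_
    exact ball_strip (w := w) hr1 hwD3 (hsub z hz)
  have hUni : Uni Y u (c * D) := by
    refine uni_of_small hcD hon ?_
    intro z hz
    obtain ⟨h1, h2, h3⟩ := dep_near (h := h) (hsub z hz)
    rw [← hD] at h1 h2
    have h4 : (1 - θ) / 2 * D < dep h z := by nlinarith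
    have h5 : |z.re - b| < l := by
      have h6 : |z.re - b| ≤ |z.re - w.re| + |w.re - b| := by
        have := abs_add_le (z.re - w.re) (w.re - b)
        rwa [sub_add_sub_cancel] at this
      linarith
    have h7 : 0 < (1 - θ) / 2 * D := mul_pos (by linarith) hw0
    have h8 := hA.bd z h5 (h7.trans h4) (by linarith)
    -- `‖Q‖ ((1 - θ) D / 2) ^ 2 ≤ q ^ 2`
    have h9 : ((1 - θ) / 2 * D) ^ 2 ≤ dep h z ^ 2 := pow_le_pow_left₀ h7.le h4.le 2
    have h10 : ‖Y.Q z‖ * ((1 - θ) / 2 * D) ^ 2 ≤ q ^ 2 :=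
      (mul_le_mul_of_nonneg_left h9 (norm_nonneg _)).trans h8
    have h11 : (1 - θ) / 2 * D = q * (8 * c * D) := by
      rw [← hc1]
      ring
    rw [h11, mul_pow, ← mul_assoc, mul_comm _ (q ^ 2), mul_assoc] at h10
    have h12 : ‖Y.Q z‖ * (8 * c * D) ^ 2 ≤ 1 := by
      have hq2 : 0 < q ^ 2 := by positivity
      by_contra hh
      push Not at hh
      nlinarith
    calc ‖Y.Q z‖ * (4 * (c * D) ^ 2) ≤ ‖Y.Q z‖ * (8 * c * D) ^ 2 := by
          refine mul_le_mul_of_nonneg_left ?_ (norm_nonneg _)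
          nlinarith [sq_nonneg (c * D)]
      _ ≤ 1 := h12
  exact huv (hUni.inj u (mem_ball_self hcD) v (by
    rw [mem_ball', dist_eq_norm]
    exact hlt) hs)

end Pool.Agent.MP_ae5b4e_an_NB2
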